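import Mathlib

set_option autoImplicit false

/-!
# Linearly ordered spaces with countable character: basic notions
-/

namespace Pool.Agent.E8helper92.LOTS

open Set Cardinal

universe u

/-- continuity of a map between linear orders with respect to the open interval topologies -/
def OCont {A B : Type} [LinearOrder A] [LinearOrder B] (f : A → B) : Prop :=
  @Continuous A B (Preorder.topology A) (Preorder.topology B) f

/-- `A` LOTS-embeds into `B` (`A ⪯ B`): there is an injective order preserving map which is continuous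
for the open interval topologies. -/
def LOTSEmb (A B : Type) [LinearOrder A] [LinearOrder B] : Prop :=
  ∃ f : A → B, StrictMono f ∧ OCont f

/-- `L` is `ℵ₁`-dense: at least two points, and every open interval `(a, b)`, `a < b`, has exactly `ℵ₁` points. -/
def Aleph1Dense (L : Type) [LinearOrder L] : Prop :=
  Nontrivial L ∧ ∀ a b : L, a < b → #(Ioo a b) = ℵ₁

/-- Every point of `L` has countable cofinality and countable coinitiality: the set of the points below it has a
countable cofinal subset and the set of the points above it has a countable coinitial subset. -/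
def CountableCharacter (L : Type) [LinearOrder L] : Prop :=
  ∀ x : L, (∃ S : Set L, S.Countable ∧ S ⊆ Iio x ∧ ∀ y < x, ∃ s ∈ S, y ≤ s) ∧
    (∃ S : Set L, S.Countable ∧ S ⊆ Ioi x ∧ ∀ y, x < y → ∃ s ∈ S, s ≤ y)

/-- the class `𝒞` -/
def InC (L : Type) [LinearOrder L] : Prop := Aleph1Dense L ∧ CountableCharacter L

section cont

variable {A B : Type} [LinearOrder A] [LinearOrder B]

theorem ocont_of {f : A → B} (hf : StrictMono f)
    (h1 : ∀ x : A, ∀ c < f x, ∃ y < x, ∀ z, y < z → c < f z)
    (h2 : ∀ x : A, ∀ c, f x < c → ∃ y, x < y ∧ ∀ z, z < y → f z < c) : OCont f := by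
  unfold OCont
  let _ : TopologicalSpace A := Preorder.topology A
  have _ : OrderTopology A := ⟨rfl⟩
  let _ : TopologicalSpace B := Preorder.topology B
  apply continuous_generateFrom_iff.2
  rintro s ⟨c, rfl | rfl⟩
  · rw [isOpen_iff_forall_mem_open]
    intro x hx
    obtain ⟨y, hy, h⟩ := h1 x c hx
    exact ⟨Ioi y, fun z hz => h z hz, isOpen_Ioi, hy⟩
  · rw [isOpen_iff_forall_mem_open]
    intro x hx
    obtain ⟨y, hy, h⟩ := h2 x c hx
    exact ⟨Iio y, fun z hz => h z hz, isOpen_Iio, hy⟩

theorem LOTSEmb.refl (A : Type) [LinearOrder A] : LOTSEmb A A :=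
  ⟨id, strictMono_id, by
    unfold OCont
    let _ : TopologicalSpace A := Preorder.topology A
    exact continuous_id⟩

theorem LOTSEmb.trans {A B C : Type} [LinearOrder A] [LinearOrder B] [LinearOrder C]
    (h1 : LOTSEmb A B) (h2 : LOTSEmb B C) : LOTSEmb A C := by
  obtain ⟨f, hf, hf'⟩ := h1
  obtain ⟨g, hg, hg'⟩ := h2
  refine ⟨g ∘ f, hg.comp hf, ?_⟩
  unfold OCont at *
  let _ : TopologicalSpace A := Preorder.topology A
  let _ : TopologicalSpace B := Preorder.topology B
  let _ : TopologicalSpace C := Preorder.topology C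
  exact hg'.comp hf'

theorem LOTSEmb.of_iso {A B : Type} [LinearOrder A] [LinearOrder B] (e : A ≃o B) : LOTSEmb A B := by
  refine ⟨e, e.strictMono, ?_⟩
  unfold OCont
  let _ : TopologicalSpace A := Preorder.topology A
  have _ : OrderTopology A := ⟨rfl⟩
  let _ : TopologicalSpace B := Preorder.topology B
  have _ : OrderTopology B := ⟨rfl⟩
  exact e.continuous

theorem LOTSEmb.of_Ioo (L : Type) [LinearOrder L] (a b : L) : LOTSEmb (Ioo a b) L := by
  refine ⟨Subtype.val, Subtype.strictMono_coe _, ?_⟩
  unfold OCont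
  let _ : TopologicalSpace L := Preorder.topology L
  have _ : OrderTopology L := ⟨rfl⟩
  have h : OrderTopology (Ioo a b) := orderTopology_of_ordConnected
  have h2 := h.topology_eq_generate_intervals
  have h3 : Preorder.topology (Ioo a b) = instTopologicalSpaceSubtype := h2.symm
  rw [h3]
  exact continuous_subtype_val

end cont

section seq

variable {L : Type} [LinearOrder L] [DenselyOrdered L]

theorem exists_seq_lt (hc : CountableCharacter L) (c p : L) (h : c < p) :
    ∃ a : ℕ → L, StrictMono a ∧ (∀ n, c < a n ∧ a n < p) ∧ ∀ y < p, ∃ n, y < a n := by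
  obtain ⟨S, hS, hSp, hSc⟩ := (hc p).1
  have hne : S.Nonempty := by
    obtain ⟨s, hs, _⟩ := hSc c h
    exact ⟨s, hs⟩
  obtain ⟨e, he⟩ := hS.exists_eq_range hne
  have hep : ∀ n, e n < p := fun n => hSp (he ▸ mem_range_self n)
  -- the step
  have step : ∀ (n : ℕ) (x : L), x < p → ∃ y, max x (e n) < y ∧ y < p := fun n x hx =>
    exists_between (max_lt hx (hep n))
  choose! g hg1 hg2 using step
  obtain ⟨a0, ha0, ha0'⟩ := exists_between h
  let a : ℕ → L := fun n => Nat.rec a0 (fun k x => g k x) n
  have ha_succ : ∀ n, a (n + 1) = g n (a n) := fun n => rfl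
  have ha_p : ∀ n, a n < p := by
    intro n
    induction n with
    | zero => exact ha0'
    | succ n ih => rw [ha_succ]; exact hg2 n _ ih
  have hlt : ∀ n, a n < a (n + 1) := fun n => by
    rw [ha_succ]
    exact (le_max_left _ _).trans_lt (hg1 n _ (ha_p n))
  have hmono : StrictMono a := strictMono_nat_of_lt_succ hlt
  refine ⟨a, hmono, fun n => ⟨?_, ha_p n⟩, ?_⟩
  · exact ha0.trans_le (hmono.monotone (Nat.zero_le n))
  · intro y hy
    obtain ⟨s, hs, hys⟩ := hSc y hy
    rw [he] at hs
    obtain ⟨n, rfl⟩ := hs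
    refine ⟨n + 1, hys.trans_lt ?_⟩
    rw [ha_succ]
    exact (le_max_right _ _).trans_lt (hg1 n _ (ha_p n))

theorem exists_seq_gt (hc : CountableCharacter L) (c p : L) (h : p < c) :
    ∃ b : ℕ → L, StrictAnti b ∧ (∀ n, b n < c ∧ p < b n) ∧ ∀ y, p < y → ∃ n, b n < y := by
  have hc' : CountableCharacter (Lᵒᵈ) := fun x => ⟨(hc (OrderDual.ofDual x)).2, (hc (OrderDual.ofDual x)).1⟩
  obtain ⟨a, h1, h2, h3⟩ := exists_seq_lt hc' (OrderDual.toDual c) (OrderDual.toDual p) h
  exact ⟨a, h1, h2, h3⟩

end seq

end Pool.Agent.E8helper92.LOTS
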