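import Pool.Agent.E8helper92.LOTSMain

set_option autoImplicit false

/-!
# From a basis for `𝒞` to a basis for the uncountable linear orders
-/

namespace Pool.Agent.E8helper92.LOTS

open Set Cardinal

/-- a linear order without a countable cofinal set contains a copy of `ω₁` -/
theorem W1_of_no_cofinal {M : Type} [LinearOrder M]
    (h : ∀ S : Set M, S.Countable → ∃ y, ∀ s ∈ S, s < y) : ∃ f : W1 → M, StrictMono f := by
  have _ : Nonempty M := ⟨(h ∅ countable_empty).choose⟩
  choose! up hup using h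
  let F : (α : W1) → ((β : W1) → β < α → M) → M := fun α ih => up (range fun β : Iio α => ih β β.2)
  let f : W1 → M := (wellFounded_lt (α := W1)).fix F
  have hf : ∀ α : W1, f α = up (range fun β : Iio α => f (β : W1)) := fun α => WellFounded.fix_eq _ F α
  refine ⟨f, fun β α h => ?_⟩
  have hc : (range fun β : Iio α => f (β : W1)).Countable := by
    have := (W1_Iio α).to_subtype
    exact countable_range _
  have h1 := hup _ hc (f β) ⟨⟨β, h⟩, rfl⟩
  rw [← hf α] at h1
  exact h1

theorem cofinal_or_W1 {L : Type} [LinearOrder L] (hL : ∀ f : W1 → L, ¬ StrictMono f) (A : Set L) :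
    ∃ S : Set L, S.Countable ∧ S ⊆ A ∧ ∀ y ∈ A, ∃ s ∈ S, y ≤ s := by
  by_contra hcon
  push Not at hcon
  obtain ⟨f, hf⟩ := W1_of_no_cofinal (M := A) (by
    intro S hS
    obtain ⟨y, hy, h⟩ := hcon (Subtype.val '' S) (hS.image _) (by rintro _ ⟨x, _, rfl⟩; exact x.2)
    exact ⟨⟨y, hy⟩, fun s hs => h s ⟨s, hs, rfl⟩⟩)
  exact hL (fun α => f α) fun x y hxy => hf hxy

theorem coinitial_or_W1dual {L : Type} [LinearOrder L] (hL : ∀ f : W1ᵒᵈ → L, ¬ StrictMono f) (A : Set L) :
    ∃ S : Set L, S.Countable ∧ S ⊆ A ∧ ∀ y ∈ A, ∃ s ∈ S, s ≤ y := by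
  refine @cofinal_or_W1 Lᵒᵈ _ (fun f hf => ?_) A
  refine hL (fun x => OrderDual.ofDual (f (OrderDual.ofDual x))) ?_
  intro x y hxy
  exact hf (a := OrderDual.ofDual y) (b := OrderDual.ofDual x) hxy

/-- `ω₁` embeds into all of its uncountable suborders -/
theorem W1_of_sub {Z : Type} [LinearOrder Z] (hZ : Uncountable Z) (g : Z → W1) (hg : StrictMono g) :
    ∃ f : W1 → Z, StrictMono f := by
  apply W1_of_no_cofinal
  intro S hS
  by_contra hcon
  push Not at hcon
  have h1 : ∀ z : Z, (Iic z).Countable := by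
    intro z
    apply Set.countable_of_injective_of_countable_image (f := g) hg.injective.injOn
    refine (W1_Iic (g z)).mono ?_
    rintro _ ⟨y, hy, rfl⟩
    exact hg.monotone hy
  have h2 : (univ : Set Z) ⊆ ⋃ s ∈ S, Iic s := by
    intro z _
    obtain ⟨s, hs, h⟩ := hcon z
    simp only [mem_iUnion]
    exact ⟨s, hs, h⟩
  exact not_countable_univ_iff.2 hZ ((hS.biUnion fun s _ => h1 s).mono h2)

theorem W1dual_of_sub {Z : Type} [LinearOrder Z] (hZ : Uncountable Z) (g : Z → W1ᵒᵈ) (hg : StrictMono g) :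
    ∃ f : W1ᵒᵈ → Z, StrictMono f := by
  obtain ⟨f, hf⟩ := W1_of_sub (Z := Zᵒᵈ) hZ (fun z => OrderDual.ofDual (g (OrderDual.ofDual z)))
    (fun x y hxy => hg (show OrderDual.ofDual y < OrderDual.ofDual x from hxy))
  exact ⟨fun x => OrderDual.ofDual (f (OrderDual.ofDual x)), fun x y hxy =>
    hf (show OrderDual.ofDual y < OrderDual.ofDual x from hxy)⟩

/-- an uncountable linear order without copies of `ω₁` and of its reverse contains a member of `𝒞` -/
theorem exists_inC_sub {L : Type} [LinearOrder L] (hL : Uncountable L) (h1 : ∀ f : W1 → L, ¬ StrictMono f)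
    (h2 : ∀ f : W1ᵒᵈ → L, ¬ StrictMono f) : ∃ A : Set L, InC A := by
  classical
  -- a subset of size `ℵ₁`
  have h3 : ℵ₁ ≤ #L := by
    rw [← succ_aleph0, Order.succ_le_iff]
    exact Cardinal.aleph0_lt_mk_iff.2 hL
  obtain ⟨P, hP⟩ := le_mk_iff_exists_set.1 h3
  have hPc : ¬ P.Countable := not_countable_of_mk hP.ge
  -- the condensation
  let R : L → L → Prop := fun x y => (P ∩ Icc (min x y) (max x y)).Countable
  have hRsymm : ∀ x y, R x y → R y x := by
    intro x y h
    simp only [R] at h ⊢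
    rw [min_comm, max_comm]
    exact h
  have hRtrans : ∀ x y z, R x y → R y z → R x z := by
    intro x y z h h'
    refine (h.union h').mono ?_
    rintro w ⟨hw, hw1, hw2⟩
    rcases le_total w y with h3 | h3
    · rcases le_total x z with h4 | h4
      · rw [min_eq_left h4] at hw1
        exact Or.inl ⟨hw, (min_le_left _ _).trans hw1, h3.trans (le_max_right _ _)⟩
      · rw [min_eq_right h4] at hw1
        exact Or.inr ⟨hw, (min_le_right _ _).trans hw1, h3.trans (le_max_left _ _)⟩
    · rcases le_total x z with h4 | h4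
      · rw [max_eq_right h4] at hw2
        exact Or.inr ⟨hw, (min_le_left _ _).trans h3, hw2.trans (le_max_right _ _)⟩
      · rw [max_eq_left h4] at hw2
        exact Or.inl ⟨hw, (min_le_right _ _).trans h3, hw2.trans (le_max_left _ _)⟩
  have hRrefl : ∀ x, R x x := by
    intro x
    simp only [R, min_self, max_self, Icc_self]
    exact (countable_singleton x).mono inter_subset_right
  -- the classes are countable
  have hcl : ∀ x, {y | y ∈ P ∧ R x y}.Countable := by
    intro x
    obtain ⟨S, hSc, hSA, hS⟩ := cofinal_or_W1 h1 {y | y ∈ P ∧ R x y}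
    obtain ⟨S', hSc', hSA', hS'⟩ := coinitial_or_W1dual h2 {y | y ∈ P ∧ R x y}
    have h4 : {y | y ∈ P ∧ R x y} ⊆ ⋃ s ∈ S, ⋃ s' ∈ S', (P ∩ Icc s' s) := by
      intro y hy
      obtain ⟨s, hs, h5⟩ := hS y hy
      obtain ⟨s', hs', h6⟩ := hS' y hy
      simp only [mem_iUnion]
      exact ⟨s, hs, s', hs', hy.1, h6, h5⟩
    refine (hSc.biUnion fun s hs => hSc'.biUnion fun s' hs' => ?_).mono h4
    have h7 : R s' s := hRtrans _ _ _ (hRsymm _ _ (hSA' hs').2) (hSA hs).2
    refine Countable.mono ?_ h7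
    exact inter_subset_inter_right _ (Icc_subset_Icc (min_le_left _ _) (le_max_right _ _))
  -- representatives
  let setoid : Setoid P := ⟨fun x y => R x y, fun x => hRrefl x, fun {x y} h => hRsymm x y h,
    fun {x y z} h h' => hRtrans x y z h h'⟩
  let rep : P → P := fun x => Quotient.out (Quotient.mk setoid x)
  have hrep1 : ∀ x : P, R (rep x) x := fun x => Quotient.exact (Quotient.out_eq (Quotient.mk setoid x))
  have hrep2 : ∀ x y : P, R x y → rep x = rep y := by
    intro x y h
    simp only [rep]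
    rw [Quotient.sound (s := setoid) h]
  let A : Set L := range fun x : P => (rep x : L)
  have hA1 : ∀ x ∈ A, ∀ y ∈ A, R x y → x = y := by
    rintro _ ⟨x, rfl⟩ _ ⟨y, rfl⟩ h
    have h5 : R x y := hRtrans _ _ _ (hRsymm _ _ (hrep1 x)) (hRtrans _ _ _ h (hrep1 y))
    exact congrArg Subtype.val (hrep2 x y h5)
  -- uncountable sets have uncountable sets of representatives
  have hA2 : ∀ Q : Set L, Q ⊆ P → ¬ Q.Countable → ¬ {a | a ∈ A ∧ ∃ q ∈ Q, R a q}.Countable := by
    intro Q hQ hQc hc
    apply hQc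
    have h5 : Q ⊆ ⋃ a ∈ {a | a ∈ A ∧ ∃ q ∈ Q, R a q}, {y | y ∈ P ∧ R a y} := by
      intro q hq
      simp only [mem_iUnion]
      exact ⟨rep ⟨q, hQ hq⟩, ⟨⟨_, rfl⟩, q, hq, hrep1 ⟨q, hQ hq⟩⟩, hQ hq, hrep1 ⟨q, hQ hq⟩⟩
    exact (hc.biUnion fun a _ => hcl a).mono h5
  have hAunc : ¬ A.Countable := by
    intro h
    exact hA2 P subset_rfl hPc (h.mono fun a ha => ha.1)
  have hAcard : #A ≤ ℵ₁ := by
    rw [← hP]
    exact mk_range_le
  -- intervals
  have hint : ∀ a ∈ A, ∀ b ∈ A, a < b → ¬ (A ∩ Ioo a b).Countable := by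
    intro a ha b hb hab hc
    have h5 : ¬ (P ∩ Ioo a b).Countable := by
      intro h6
      have h7 : R a b := by
        simp only [R]
        rw [min_eq_left hab.le, max_eq_right hab.le]
        refine (h6.union (Set.toFinite {a, b}).countable).mono ?_
        rintro w ⟨hw, hw1, hw2⟩
        rcases hw1.eq_or_lt with h | h
        · exact Or.inr (by rw [← h]; exact mem_insert _ _)
        · rcases hw2.eq_or_lt with h' | h'
          · exact Or.inr (by rw [h']; exact mem_insert_of_mem _ rfl)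
          · exact Or.inl ⟨hw, h, h'⟩
      exact hab.ne (hA1 a ha b hb h7)
    apply hA2 _ inter_subset_left h5
    refine (hc.union (Set.toFinite {a, b}).countable).mono ?_
    rintro w ⟨hw, q, ⟨_, hq1, hq2⟩, hwq⟩
    by_cases h8 : w ≤ a
    · have h9 : R w a := by
        refine Countable.mono ?_ hwq
        apply inter_subset_inter_right
        rw [min_eq_left h8, max_eq_right h8, min_eq_left (h8.trans hq1.le), max_eq_right (h8.trans hq1.le)]
        exact Icc_subset_Icc_right hq1.le
      exact Or.inr (by rw [hA1 w hw a ha h9]; exact mem_insert _ _)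
    · by_cases h9 : b ≤ w
      · have h10 : R w b := by
          refine Countable.mono ?_ hwq
          apply inter_subset_inter_right
          rw [min_eq_right h9, max_eq_left h9, min_eq_right (hq2.le.trans h9), max_eq_left (hq2.le.trans h9)]
          exact Icc_subset_Icc_left hq2.le
        exact Or.inr (by rw [hA1 w hw b hb h10]; exact mem_insert_of_mem _ rfl)
      · exact Or.inl ⟨hw, not_le.1 h8, not_le.1 h9⟩
  refine ⟨A, ⟨?_, ?_⟩, ?_⟩
  · by_contra hcon
    rw [not_nontrivial_iff_subsingleton] at hcon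
    apply hAunc
    apply Set.Subsingleton.countable
    intro x hx y hy
    exact congrArg Subtype.val (Subsingleton.elim (⟨x, hx⟩ : A) ⟨y, hy⟩)
  · intro a b hab
    apply le_antisymm
    · exact (mk_set_le _).trans hAcard
    · apply mk_of_not_countable
      intro hc
      apply hint a a.2 b b.2 hab
      refine (hc.image Subtype.val).mono ?_
      rintro z ⟨hz, hz1, hz2⟩
      exact ⟨⟨z, hz⟩, ⟨hz1, hz2⟩, rfl⟩
  · intro x
    constructor
    · obtain ⟨S, hS1, hS2, hS3⟩ := cofinal_or_W1 h1 (A ∩ Iio (x : L))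
      refine ⟨Subtype.val ⁻¹' S, hS1.preimage_of_injOn Subtype.val_injective.injOn, fun y hy => (hS2 hy).2,
        fun y hy => ?_⟩
      obtain ⟨s, hs, hys⟩ := hS3 y ⟨y.2, hy⟩
      exact ⟨⟨s, (hS2 hs).1⟩, hs, hys⟩
    · obtain ⟨S, hS1, hS2, hS3⟩ := coinitial_or_W1dual h2 (A ∩ Ioi (x : L))
      refine ⟨Subtype.val ⁻¹' S, hS1.preimage_of_injOn Subtype.val_injective.injOn, fun y hy => (hS2 hy).2,
        fun y hy => ?_⟩
      obtain ⟨s, hs, hys⟩ := hS3 y ⟨y.2, hy⟩
      exact ⟨⟨s, (hS2 hs).1⟩, hs, hys⟩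

/-- A basis for `𝒞` with the index set `ι` gives a basis for the uncountable linear orders with the index set
`ι ⊕ Bool`. -/
theorem unc_of_C {ι : Type} (B : ι → LinOrd.{0}) (hB : CBasis B) :
    ∃ T : ι ⊕ Bool → LinOrd.{0}, (∀ i, T (Sum.inl i) = B i) ∧ UncBasis T := by
  refine ⟨Sum.elim B (fun b => if b then LinOrd.of W1 else LinOrd.of W1ᵒᵈ), fun i => rfl, ?_, ?_⟩
  · rintro (i | b)
    · exact (hB.1 i).uncountable
    · cases b
      · exact W1_uncountable
      · exact W1_uncountable
  · intro L _ hL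
    by_cases h1 : ∃ f : W1 → L, StrictMono f
    · exact ⟨Sum.inr true, h1⟩
    · by_cases h2 : ∃ f : W1ᵒᵈ → L, StrictMono f
      · exact ⟨Sum.inr false, h2⟩
      · push Not at h1 h2
        obtain ⟨A, hA⟩ := exists_inC_sub hL h1 h2
        obtain ⟨i, f, hf, _⟩ := hB.2 A hA
        exact ⟨Sum.inl i, fun x => f x, fun x y hxy => hf hxy⟩

/-- A six element basis for `𝒞` gives a five element basis for the uncountable linear orders. -/
theorem five_of_six (B : Fin 6 → LinOrd.{0}) (hB : CBasis B) : ∃ T : Fin 5 → LinOrd.{0}, UncBasis T := by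
  obtain ⟨S, hSc, hSo, ⟨fR, hfR⟩, hSR, -, -, ⟨f1, hf1⟩, ⟨f2, hf2⟩, hC3, hC4⟩ := exists_tests
  have hSu : ∀ j, Uncountable (S j) := fun j => uncountable_of_mk (hSc j)
  choose d b e hdb hbe using fun i => exists_three (hSu i)
  obtain ⟨X, hX⟩ := exists_aleph1DenseReal
  obtain ⟨i0, hi0⟩ := hB.2 X hX.inC
  have h1 : ∀ j, ∃ i, LOTSEmb (B i) (Power (S j) (b j)) := fun j =>
    hB.2 _ (Power.inC (hSc j) (hdb j) (hbe j))
  choose r hr using h1
  have hsubu : ∀ {U : Type} {V : Set U}, ¬ V.Countable → Uncountable V := by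
    intro U V hV
    rw [← not_countable_iff]
    exact fun h => hV (Set.countable_coe_iff.1 h)
  -- no `B (r j)` embeds into the reals
  have hnr : ∀ j, ∀ f : B (r j) → ℝ, ¬ StrictMono f := by
    intro j f hf
    obtain ⟨g, hg, hgc⟩ := hr j
    exact not_real_and_power (hB.1 (r j)).uncountable f hf (hbe j) g hg hgc
  have h2 : ∀ j, i0 ≠ r j := by
    intro j h
    rw [h] at hi0
    obtain ⟨f0, hf0, _⟩ := hi0
    exact hnr j (fun x => (f0 x : ℝ)) (fun x y hxy => hf0 hxy)
  have hsub : ∀ j, ∃ V : Set (B (r j)), ¬ V.Countable ∧ ∃ u : V → S j, StrictMono u := by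
    intro j
    obtain ⟨g, hg, _⟩ := hr j
    exact exists_sub_of_embed (hB.1 (r j)).uncountable g hg
  have h3 : ∀ j j', r j = r j' → j = j' := by
    intro j j' h
    by_contra hne
    obtain ⟨V, hV, u, hu⟩ := hsub j
    have hVu : Uncountable V := hsubu hV
    have hgj' := hr j'
    rw [← h] at hgj'
    obtain ⟨g', hg', _⟩ := hgj'
    obtain ⟨V', hV', u', hu'⟩ := exists_sub_of_embed hVu (fun x : V => g' x) (fun x y hxy => hg' hxy)
    exact hSo j j' hne V' (hsubu hV') (fun x => u x) u' (fun x y hxy => hu hxy) hu'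
  -- the enumeration of the members of the basis
  let φ : Fin 6 → Fin 6 := Fin.cons i0 r
  have hφi : Function.Injective φ := by
    intro i
    refine Fin.cases (fun j => Fin.cases (fun _ => rfl) (fun j' h => ?_) j)
      (fun i' j => Fin.cases (fun h => ?_) (fun j' h => ?_) j) i
    · exact absurd h (h2 j')
    · exact absurd h.symm (h2 i')
    · rw [h3 i' j' h]
  have hφs : Function.Surjective φ := Finite.injective_iff_surjective.1 hφi
  obtain ⟨f0, hf0, _⟩ := hi0
  -- `B i0` embeds into every uncountable real type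
  have hreal : ∀ (Z : Type) [LinearOrder Z], Uncountable Z → ∀ g : Z → ℝ, StrictMono g →
      ∃ f : B i0 → Z, StrictMono f := by
    intro Z _ hZ g hg
    obtain ⟨A, hA⟩ := exists_inC_sub hZ
      (fun f hf => orth_real_W1 W1 W1_uncountable (fun x => g (f x)) id (fun x y h => hg (hf h)) strictMono_id)
      (fun f hf => orth_real_W1dual W1ᵒᵈ W1_uncountable (fun x => g (f x)) id (fun x y h => hg (hf h))
        strictMono_id)
    obtain ⟨i, f, hf, _⟩ := hB.2 A hA
    obtain ⟨j, rfl⟩ := hφs i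
    revert f
    refine Fin.cases (fun f hf => ?_) (fun j f hf => ?_) j
    · intro _
      exact ⟨fun x => f x, fun x y h => hf h⟩
    · exact absurd (fun x y h => hg (hf h)) (hnr j fun x => g (f x))
  refine ⟨![B i0, LinOrd.of W1, LinOrd.of W1ᵒᵈ, B (r 3), B (r 4)], ?_, ?_⟩
  · intro i
    fin_cases i
    · exact (hB.1 _).uncountable
    · exact W1_uncountable
    · exact W1_uncountable
    · exact (hB.1 _).uncountable
    · exact (hB.1 _).uncountable
  · intro L _ hL
    by_cases hs1 : ∃ f : W1 → L, StrictMono f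
    · exact ⟨1, hs1⟩
    · by_cases hs2 : ∃ f : W1ᵒᵈ → L, StrictMono f
      · exact ⟨2, hs2⟩
      · push Not at hs1 hs2
        obtain ⟨A, hA⟩ := exists_inC_sub hL hs1 hs2
        obtain ⟨i, f, hf, _⟩ := hB.2 A hA
        obtain ⟨j, rfl⟩ := hφs i
        revert f
        refine Fin.cases (fun f hf => ?_) (fun j f hf => ?_) j
        · exact fun _ => ⟨0, fun x => f x, fun x y h => hf h⟩
        · intro _
          obtain ⟨V, hV, u, hu⟩ := hsub j
          have hVu : Uncountable V := hsubu hV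
          fin_cases j
          · obtain ⟨w, hw⟩ := hreal V hVu (fun x => fR (u x)) (fun x y h => hfR (hu h))
            exact ⟨0, fun x => f (w x).1, fun x y h => hf (hw h)⟩
          · obtain ⟨w, hw⟩ := W1_of_sub hVu (fun x => f1 (u x)) (fun x y h => hf1 (hu h))
            exact absurd (fun x y h => hf (hw h)) (hs1 fun x => f (w x).1)
          · obtain ⟨w, hw⟩ := W1dual_of_sub hVu (fun x => f2 (u x)) (fun x y h => hf2 (hu h))
            exact absurd (fun x y h => hf (hw h)) (hs2 fun x => f (w x).1)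
          · exact ⟨3, fun x => f x, fun x y h => hf h⟩
          · exact ⟨4, fun x => f x, fun x y h => hf h⟩

end Pool.Agent.E8helper92.LOTS
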