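import Mathlib

set_option autoImplicit false

/-!
# Countryman lines exist (Shelah; proof of Todorcevic)
-/

namespace Pool.Agent.E8helper92.LOTS

open Set Cardinal

/-- the first uncountable ordinal, as a linearly ordered type -/
abbrev W1 : Type := (ℵ₁ : Cardinal.{0}).ord.ToType

/-- `C` is a Countryman line: it is uncountable and its square, with the coordinatewise order, is a union of
countably many chains. -/
def Countryman (C : Type) [LinearOrder C] : Prop :=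
  Uncountable C ∧ ∃ K : ℕ → Set (C × C), (∀ n, ∀ p ∈ K n, ∀ q ∈ K n, p ≤ q ∨ q ≤ p) ∧ ∀ p, ∃ n, p ∈ K n

theorem W1_uncountable : Uncountable W1 := by
  rw [← Cardinal.aleph0_lt_mk_iff]
  simp [W1]

theorem W1_Iio (a : W1) : (Iio a).Countable := by
  rw [← Cardinal.le_aleph0_iff_set_countable]
  have h : #(Iio a) < Order.succ ℵ₀ := (Cardinal.mk_Iio_toType_ord_lt a).trans_eq succ_aleph0.symm
  exact Order.lt_succ_iff.1 h

theorem W1_Iic (a : W1) : (Iic a).Countable := by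
  have h : Iic a = insert a (Iio a) := by
    ext x
    simp [le_iff_eq_or_lt]
  rw [h]
  exact (W1_Iio a).insert a

theorem W1_bounded {S : Set W1} (hS : S.Countable) : ∃ δ : W1, ∀ s ∈ S, s < δ := by
  by_contra hcon
  push Not at hcon
  have h1 : (univ : Set W1) ⊆ ⋃ s ∈ S, Iic s := by
    intro x _
    obtain ⟨s, hs, h⟩ := hcon x
    simp only [mem_iUnion]
    exact ⟨s, hs, h⟩
  have h2 := (hS.biUnion fun s _ => W1_Iic s).mono h1
  exact not_countable_univ_iff.2 W1_uncountable h2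

/-- Todorcevic's coherent finite-to-one sequence -/
theorem exists_coherent : ∃ e : W1 → W1 → ℕ, (∀ α ξ, α ≤ ξ → e α ξ = 0) ∧ (∀ α ξ, ξ < α → 1 ≤ e α ξ) ∧
    (∀ α k, {ξ | ξ ≤ α ∧ e α ξ ≤ k}.Finite) ∧ ∀ α β, β ≤ α → {ξ | ξ ≤ β ∧ e α ξ ≠ e β ξ}.Finite := by
  classical
  have hj : ∀ α : W1, ∃ j : W1 → ℕ, InjOn j (Iio α) := fun α =>
    (Set.countable_iff_exists_injOn).1 (W1_Iio α)
  choose j hj using hj
  have hη : ∀ α ξ : W1, ∃ η : W1, ξ < α → (ξ ≤ η ∧ η < α ∧ ∀ θ, ξ ≤ θ → θ < α → j α η ≤ j α θ) := by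
    intro α ξ
    by_cases h : ξ < α
    · have hne : (Ico ξ α).Nonempty := ⟨ξ, le_rfl, h⟩
      have hwf : WellFounded (fun x y : W1 => j α x < j α y) := InvImage.wf (j α) wellFounded_lt
      refine ⟨hwf.min (Ico ξ α) hne, fun _ => ?_⟩
      have h1 := hwf.min_mem (Ico ξ α) hne
      refine ⟨h1.1, h1.2, fun θ h2 h3 => ?_⟩
      exact not_lt.1 (hwf.not_lt_min (Ico ξ α) (x := θ) ⟨h2, h3⟩)
    · exact ⟨ξ, fun h' => absurd h' h⟩
  choose η hη using hη
  let F : (α : W1) → ((β : W1) → β < α → W1 → ℕ) → W1 → ℕ := fun α ih ξ =>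
    if h : ξ < α then max (j α (η α ξ) + 1) (ih (η α ξ) (hη α ξ h).2.1 ξ) else 0
  let e : W1 → W1 → ℕ := (wellFounded_lt (α := W1)).fix F
  have he : ∀ α ξ, ξ < α → e α ξ = max (j α (η α ξ) + 1) (e (η α ξ) ξ) := by
    intro α ξ h
    have h1 : e α = F α fun β _ => e β := WellFounded.fix_eq _ F α
    rw [h1]
    simp only [F]
    rw [dif_pos h]
  have he0 : ∀ α ξ, α ≤ ξ → e α ξ = 0 := by
    intro α ξ h
    have h1 : e α = F α fun β _ => e β := WellFounded.fix_eq _ F α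
    rw [h1]
    simp only [F]
    rw [dif_neg (not_lt.2 h)]
  have hfin : ∀ α k, {θ | θ < α ∧ j α θ ≤ k}.Finite := by
    intro α k
    apply Set.Finite.of_finite_image (f := j α)
    · exact (finite_Iic k).subset (by rintro _ ⟨θ, ⟨_, h⟩, rfl⟩; exact h)
    · exact (hj α).mono fun θ h => h.1
  have key : ∀ α, (∀ k, {ξ | ξ ≤ α ∧ e α ξ ≤ k}.Finite) ∧
      ∀ β, β ≤ α → {ξ | ξ ≤ β ∧ e α ξ ≠ e β ξ}.Finite := by
    intro α
    induction α using WellFoundedLT.induction with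
    | _ α ih =>
      constructor
      · intro k
        have hsub : {ξ | ξ ≤ α ∧ e α ξ ≤ k} ⊆
            {α} ∪ ⋃ θ ∈ {θ | θ < α ∧ j α θ ≤ k}, {ξ | ξ ≤ θ ∧ e θ ξ ≤ k} := by
          rintro ξ ⟨h1, h2⟩
          rcases h1.eq_or_lt with h | h
          · exact Or.inl h
          · right
            have h3 := hη α ξ h
            rw [he α ξ h] at h2
            simp only [mem_iUnion]
            exact ⟨η α ξ, ⟨h3.2.1, by have := le_max_left (j α (η α ξ) + 1) (e (η α ξ) ξ); omega⟩, h3.1,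
              (le_max_right _ _).trans h2⟩
        refine Finite.subset ((finite_singleton α).union ((hfin α k).biUnion fun θ hθ => ?_)) hsub
        exact (ih θ hθ.1).1 k
      · intro β hβ
        rcases hβ.eq_or_lt with h | h
        · subst h
          simp
        · have hsub : {ξ | ξ ≤ β ∧ e α ξ ≠ e β ξ} ⊆
              ⋃ θ ∈ {θ | θ < α ∧ j α θ ≤ j α β}, ({ξ | ξ ≤ θ ∧ e θ ξ ≤ j α θ} ∪
                {ξ | ξ ≤ θ ∧ ξ ≤ β ∧ e θ ξ ≠ e β ξ}) := by
            rintro ξ ⟨h1, h2⟩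
            have h3 := hη α ξ (h1.trans_lt h)
            have h4 := h3.2.2 β h1 h
            simp only [mem_iUnion]
            refine ⟨η α ξ, ⟨h3.2.1, h4⟩, ?_⟩
            by_cases h5 : e (η α ξ) ξ ≤ j α (η α ξ)
            · exact Or.inl ⟨h3.1, h5⟩
            · right
              refine ⟨h3.1, h1, ?_⟩
              rw [he α ξ (h1.trans_lt h), max_eq_right (by omega)] at h2
              exact h2
          refine Finite.subset ((hfin α _).biUnion fun θ hθ => ((ih θ hθ.1).1 _).union ?_) hsub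
          rcases le_total θ β with h6 | h6
          · refine ((ih β h).2 θ h6).subset ?_
            rintro ξ ⟨h7, h8, h9⟩
            exact ⟨h7, h9.symm⟩
          · refine ((ih θ hθ.1).2 β h6).subset ?_
            rintro ξ ⟨h7, h8, h9⟩
            exact ⟨h8, h9⟩
  refine ⟨e, he0, fun α ξ h => ?_, fun α => (key α).1, fun α => (key α).2⟩
  rw [he α ξ h]
  exact (Nat.le_add_left 1 _).trans (le_max_left _ _)

/-- there is a Countryman line -/
theorem exists_countryman : ∃ (C : Type) (_ : LinearOrder C), Countryman C := by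
  classical
  obtain ⟨e, he0, he1, hft, hco⟩ := exists_coherent
  -- the number `n(α, β)`
  let D : W1 → W1 → Finset W1 := fun α β => if h : α ≤ β then (hco β α h).toFinset else ∅
  have hD : ∀ α β, α ≤ β → ∀ ξ, ξ ∈ D α β ↔ ξ ≤ α ∧ e β ξ ≠ e α ξ := by
    intro α β h ξ
    simp only [D, dif_pos h, Finite.mem_toFinset, Set.mem_ofPred_eq]
  let nn : W1 → W1 → ℕ := fun α β => (D α β).sup fun ξ => max (e α ξ) (e β ξ)
  let F : W1 → W1 → ℕ → Finset W1 := fun α β n =>
    ((hft α n).toFinset ∪ ((hft β n).toFinset.filter fun ξ => ξ ≤ α))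
  have hF : ∀ α β n, α ≤ β → ∀ ξ, ξ ∈ F α β n ↔ ξ ≤ α ∧ (e α ξ ≤ n ∨ e β ξ ≤ n) := by
    intro α β n h ξ
    simp only [F, Finset.mem_union, Finset.mem_filter, Finite.mem_toFinset, Set.mem_ofPred_eq]
    constructor
    · rintro (⟨h1, h2⟩ | ⟨⟨h1, h2⟩, h3⟩)
      · exact ⟨h1, Or.inl h2⟩
      · exact ⟨h3, Or.inr h2⟩
    · rintro ⟨h1, h2 | h2⟩
      · exact Or.inl ⟨h1, h2⟩
      · exact Or.inr ⟨⟨h1.trans h, h2⟩, h1⟩
  let cd : W1 → W1 → ℕ × Finset (ℕ × ℕ × ℕ) := fun α β =>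
    (nn α β, (F α β (nn α β)).image fun ζ => (((F α β (nn α β)).filter (· < ζ)).card, e α ζ, e β ζ))
  let v : W1 → Lex (W1 → ℕ) := fun α => toLex (e α)
  have hlt : ∀ α β, v α < v β ↔ ∃ ξ, (∀ η, η < ξ → e α η = e β η) ∧ e α ξ < e β ξ := fun α β => Iff.rfl
  have hbd : ∀ α β ξ, (∀ η, η < ξ → e α η = e β η) → e α ξ < e β ξ → ξ ≤ α ∧ ξ < β := by
    intro α β ξ h1 h2
    have h3 : ξ < β := by
      by_contra h
      rw [he0 β ξ (not_lt.1 h)] at h2
      omega
    refine ⟨?_, h3⟩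
    by_contra h
    have h4 := h1 α (not_le.1 h)
    rw [he0 α α le_rfl] at h4
    have h5 := he1 β α ((not_le.1 h).trans h3)
    omega
  have key : ∀ α β γ δ, α ≤ β → γ ≤ δ → cd α β = cd γ δ → v α < v γ → v δ < v β → False := by
    intro α β γ δ hαβ hγδ hcd h1 h2
    obtain ⟨ξ, hξ1, hξ2⟩ := (hlt _ _).1 h1
    obtain ⟨η, hη1, hη2⟩ := (hlt _ _).1 h2
    obtain ⟨hξ3, hξ4⟩ := hbd _ _ _ hξ1 hξ2
    obtain ⟨hη3, hη4⟩ := hbd _ _ _ hη1 hη2
    obtain ⟨ζ, hζ⟩ : ∃ ζ, ζ = min ξ η := ⟨_, rfl⟩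
    have hζξ : ζ ≤ ξ := hζ ▸ min_le_left _ _
    have hζη : ζ ≤ η := hζ ▸ min_le_right _ _
    have hζα : ζ ≤ α := hζξ.trans hξ3
    have hζγ : ζ ≤ γ := hζξ.trans hξ4.le
    have e1 : ∀ θ, θ < ζ → e α θ = e γ θ := fun θ h => hξ1 θ (h.trans_le hζξ)
    have e2 : ∀ θ, θ < ζ → e δ θ = e β θ := fun θ h => hη1 θ (h.trans_le hζη)
    have l1 : e α ζ ≤ e γ ζ := by
      rcases hζξ.eq_or_lt with h | h
      · rw [h]; exact hξ2.le
      · exact (hξ1 ζ h).le
    have l2 : e δ ζ ≤ e β ζ := by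
      rcases hζη.eq_or_lt with h | h
      · rw [h]; exact hη2.le
      · exact (hη1 ζ h).le
    have l3 : e α ζ < e γ ζ ∨ e δ ζ < e β ζ := by
      rcases min_choice ξ η with h | h
      · left; rw [hζ, h]; exact hξ2
      · right; rw [hζ, h]; exact hη2
    have hn : nn α β = nn γ δ := congrArg Prod.fst hcd
    have hdab : ∀ θ, θ ≤ α → e β θ ≠ e α θ → e α θ ≤ nn α β ∧ e β θ ≤ nn α β := by
      intro θ h3 h4
      have h5 : max (e α θ) (e β θ) ≤ nn α β :=
        Finset.le_sup (f := fun ξ => max (e α ξ) (e β ξ)) ((hD α β hαβ θ).2 ⟨h3, h4⟩)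
      exact ⟨(le_max_left _ _).trans h5, (le_max_right _ _).trans h5⟩
    have hdgd : ∀ θ, θ ≤ γ → e δ θ ≠ e γ θ → e γ θ ≤ nn γ δ ∧ e δ θ ≤ nn γ δ := by
      intro θ h3 h4
      have h5 : max (e γ θ) (e δ θ) ≤ nn γ δ :=
        Finset.le_sup (f := fun ξ => max (e γ ξ) (e δ ξ)) ((hD γ δ hγδ θ).2 ⟨h3, h4⟩)
      exact ⟨(le_max_left _ _).trans h5, (le_max_right _ _).trans h5⟩
    have hmem : ζ ∈ F α β (nn α β) ∧ ζ ∈ F γ δ (nn γ δ) := by
      rw [hF α β _ hαβ, hF γ δ _ hγδ]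
      by_cases h3 : e β ζ = e α ζ
      · by_cases h4 : e δ ζ = e γ ζ
        · omega
        · have h5 := hdgd ζ hζγ h4
          exact ⟨⟨hζα, Or.inl (by omega)⟩, hζγ, Or.inl h5.1⟩
      · have h5 := hdab ζ hζα h3
        exact ⟨⟨hζα, Or.inl h5.1⟩, hζγ, Or.inr (by omega)⟩
    have hfil : (F α β (nn α β)).filter (· < ζ) = (F γ δ (nn γ δ)).filter (· < ζ) := by
      ext θ
      simp only [Finset.mem_filter, hF α β _ hαβ, hF γ δ _ hγδ]
      constructor
      · rintro ⟨⟨_, h4⟩, h5⟩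
        refine ⟨⟨h5.le.trans hζγ, ?_⟩, h5⟩
        rw [← e1 θ h5, e2 θ h5, ← hn]
        exact h4
      · rintro ⟨⟨_, h4⟩, h5⟩
        refine ⟨⟨h5.le.trans hζα, ?_⟩, h5⟩
        rw [e1 θ h5, ← e2 θ h5, hn]
        exact h4
    have hcd2 : (F α β (nn α β)).image (fun ζ => (((F α β (nn α β)).filter (· < ζ)).card, e α ζ, e β ζ)) =
        (F γ δ (nn γ δ)).image fun ζ => (((F γ δ (nn γ δ)).filter (· < ζ)).card, e γ ζ, e δ ζ) :=
      congrArg Prod.snd hcd
    have h6 : (((F α β (nn α β)).filter (· < ζ)).card, e α ζ, e β ζ) ∈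
        (F γ δ (nn γ δ)).image fun ζ => (((F γ δ (nn γ δ)).filter (· < ζ)).card, e γ ζ, e δ ζ) := by
      rw [← hcd2]
      exact Finset.mem_image_of_mem (fun ζ => (((F α β (nn α β)).filter (· < ζ)).card, e α ζ, e β ζ)) hmem.1
    obtain ⟨θ, hθ, h7⟩ := Finset.mem_image.1 h6
    simp only [Prod.mk.injEq] at h7
    obtain ⟨h8, h9, h10⟩ := h7
    have hθζ : θ = ζ := by
      rw [hfil] at h8
      rcases lt_trichotomy θ ζ with h | h | h
      · exfalso
        have : (F γ δ (nn γ δ)).filter (· < θ) ⊂ (F γ δ (nn γ δ)).filter (· < ζ) := by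
          rw [Finset.ssubset_iff_of_subset (fun x hx => by
            rw [Finset.mem_filter] at hx ⊢
            exact ⟨hx.1, hx.2.trans h⟩)]
          exact ⟨θ, Finset.mem_filter.2 ⟨hθ, h⟩, fun hx => lt_irrefl θ (Finset.mem_filter.1 hx).2⟩
        have := Finset.card_lt_card this
        omega
      · exact h
      · exfalso
        have : (F γ δ (nn γ δ)).filter (· < ζ) ⊂ (F γ δ (nn γ δ)).filter (· < θ) := by
          rw [Finset.ssubset_iff_of_subset (fun x hx => by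
            rw [Finset.mem_filter] at hx ⊢
            exact ⟨hx.1, hx.2.trans h⟩)]
          exact ⟨ζ, Finset.mem_filter.2 ⟨hmem.2, h⟩, fun hx => lt_irrefl ζ (Finset.mem_filter.1 hx).2⟩
        have := Finset.card_lt_card this
        omega
    rw [hθζ] at h9 h10
    omega
  have hvinj : Function.Injective v := by
    intro α β h
    have h' : e α = e β := h
    rcases lt_trichotomy α β with h1 | h1 | h1
    · exfalso
      have h2 := he1 β α h1
      rw [← h', he0 α α le_rfl] at h2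
      omega
    · exact h1
    · exfalso
      have h2 := he1 α β h1
      rw [h', he0 β β le_rfl] at h2
      omega
  have hcomp : ∀ α β γ δ, α ≤ β → γ ≤ δ → cd α β = cd γ δ →
      (v α ≤ v γ ∧ v β ≤ v δ) ∨ (v γ ≤ v α ∧ v δ ≤ v β) := by
    intro α β γ δ h1 h2 h3
    rcases le_or_gt (v α) (v γ) with h4 | h4
    · rcases le_or_gt (v β) (v δ) with h5 | h5
      · exact Or.inl ⟨h4, h5⟩
      · rcases h4.eq_or_lt with h6 | h6
        · exact Or.inr ⟨h6.ge, h5.le⟩
        · exact (key α β γ δ h1 h2 h3 h6 h5).elim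
    · rcases le_or_gt (v δ) (v β) with h5 | h5
      · exact Or.inr ⟨h4.le, h5⟩
      · exact (key γ δ α β h2 h1 h3.symm h4 h5).elim
  refine ⟨range v, inferInstance, ?_, ?_⟩
  · have h1 : Function.Injective (fun α : W1 => (⟨v α, α, rfl⟩ : range v)) := fun α β h =>
      hvinj (congrArg Subtype.val h)
    have := W1_uncountable
    exact h1.uncountable
  · have hr : ∀ x : range v, ∃ α, v α = x := fun x => x.2
    choose r hr using hr
    obtain ⟨enc, henc⟩ := exists_injective_nat (Bool × ℕ × Finset (ℕ × ℕ × ℕ))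
    let co : range v × range v → Bool × ℕ × Finset (ℕ × ℕ × ℕ) := fun p =>
      if r p.1 ≤ r p.2 then (true, cd (r p.1) (r p.2)) else (false, cd (r p.2) (r p.1))
    refine ⟨fun n => {p | enc (co p) = n}, ?_, fun p => ⟨_, rfl⟩⟩
    intro n p hp q hq
    have hpq : co p = co q := henc (hp.trans hq.symm)
    have conv : ∀ a b : range v, v (r a) ≤ v (r b) → a ≤ b := by
      intro a b h
      rw [hr, hr] at h
      exact h
    by_cases h1 : r p.1 ≤ r p.2
    · by_cases h2 : r q.1 ≤ r q.2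
      · simp only [co, if_pos h1, if_pos h2, Prod.mk.injEq, true_and] at hpq
        rcases hcomp _ _ _ _ h1 h2 hpq with h | h
        · exact Or.inl ⟨conv _ _ h.1, conv _ _ h.2⟩
        · exact Or.inr ⟨conv _ _ h.1, conv _ _ h.2⟩
      · simp only [co, if_pos h1, if_neg h2, Prod.mk.injEq] at hpq
        exact absurd hpq.1 (by simp)
    · by_cases h2 : r q.1 ≤ r q.2
      · simp only [co, if_neg h1, if_pos h2, Prod.mk.injEq] at hpq
        exact absurd hpq.1 (by simp)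
      · simp only [co, if_neg h1, if_neg h2, Prod.mk.injEq, true_and] at hpq
        rcases hcomp _ _ _ _ (not_le.1 h1).le (not_le.1 h2).le hpq with h | h
        · exact Or.inl ⟨conv _ _ h.2, conv _ _ h.1⟩
        · exact Or.inr ⟨conv _ _ h.2, conv _ _ h.1⟩

end Pool.Agent.E8helper92.LOTS
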