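import Pool.Agent.E8helper92.LOTSConverse

set_option autoImplicit false

/-!
# The definitions of the hand-in, and the translation
-/

namespace Pool.Agent.E8helper92.LOTS.Final

open Set Cardinal

/-- `A` LOTS-embeds into `B`: there is a strictly increasing map from `A` to `B` which is continuous for the open
interval topologies of `A` and `B`. -/
def LOTSEmbeds (A B : Type) [LinearOrder A] [LinearOrder B] : Prop :=
  ∃ f : A → B, StrictMono f ∧ @Continuous A B (Preorder.topology A) (Preorder.topology B) f

/-- `L` is `ℵ₁`-dense: it has at least two points and for all `a < b` in `L` the open interval `(a, b)` has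
cardinality exactly `ℵ₁`. -/
def Aleph1Dense (L : Type) [LinearOrder L] : Prop :=
  Nontrivial L ∧ ∀ a b : L, a < b → #(Ioo a b) = ℵ₁

/-- Every point `x` of `L` has countable cofinality and countable coinitiality, wherever these are defined: if
there are points below `x` then `x` is the supremum of a strictly increasing sequence indexed by the natural
numbers, and if there are points above `x` then `x` is the infimum of such a strictly decreasing sequence. -/
def CountableCharacter (L : Type) [LinearOrder L] : Prop :=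
  ∀ x : L, ((∃ y, y < x) → ∃ s : ℕ → L, StrictMono s ∧ IsLUB (range s) x) ∧
    ((∃ y, x < y) → ∃ s : ℕ → L, StrictAnti s ∧ IsGLB (range s) x)

/-- the class `𝒞` of the `ℵ₁`-dense linear orders all of whose points have countable cofinality and countable
coinitiality -/
def InClass (L : Type) [LinearOrder L] : Prop := Aleph1Dense L ∧ CountableCharacter L

/-- The family `B` is a basis for `𝒞`: its members are in `𝒞`, and every member of `𝒞` has a LOTS embedding of
some member of the family. -/
def IsBasisForClass {ι : Type} (B : ι → LinOrd.{0}) : Prop :=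
  (∀ i, InClass (B i)) ∧ ∀ (L : Type) [LinearOrder L], InClass L → ∃ i, LOTSEmbeds (B i) L

/-- The family `T` is a basis for the uncountable linear orders under order embedding: its members are
uncountable, and every uncountable linear order contains a copy of some member of the family. -/
def IsBasisUncountable {ι : Type} (T : ι → LinOrd.{0}) : Prop :=
  (∀ i, Uncountable (T i)) ∧ ∀ (L : Type) [LinearOrder L], Uncountable L → ∃ i, Nonempty (T i ↪o L)

theorem inClass_iff (L : Type) [LinearOrder L] : InClass L ↔ InC L := by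
  have hd : Aleph1Dense L → DenselyOrdered L := fun h => ⟨fun a b hab => by
    have h1 : #(Ioo a b) ≠ 0 := by
      rw [h.2 a b hab]
      exact (aleph_pos 1).ne'
    obtain ⟨z, hz1, hz2⟩ := mk_ne_zero_iff.1 h1
    exact ⟨z, hz1, hz2⟩⟩
  constructor
  · rintro ⟨h1, h2⟩
    refine ⟨h1, fun x => ⟨?_, ?_⟩⟩
    · by_cases hx : ∃ y, y < x
      · obtain ⟨s, hs, hsl⟩ := (h2 x).1 hx
        refine ⟨range s, countable_range s, ?_, fun y hy => ?_⟩
        · rintro _ ⟨n, rfl⟩
          exact (hs (Nat.lt_succ_self n)).trans_le (hsl.1 ⟨n + 1, rfl⟩)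
        · by_contra hcon
          push Not at hcon
          exact absurd (hsl.2 fun z hz => (hcon z hz).le) (not_le.2 hy)
      · exact ⟨∅, countable_empty, empty_subset _, fun y hy => absurd ⟨y, hy⟩ hx⟩
    · by_cases hx : ∃ y, x < y
      · obtain ⟨s, hs, hsl⟩ := (h2 x).2 hx
        refine ⟨range s, countable_range s, ?_, fun y hy => ?_⟩
        · rintro _ ⟨n, rfl⟩
          exact lt_of_le_of_lt (hsl.1 ⟨n + 1, rfl⟩) (hs (Nat.lt_succ_self n))
        · by_contra hcon
          push Not at hcon
          exact absurd (hsl.2 fun z hz => (hcon z hz).le) (not_le.2 hy)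
      · exact ⟨∅, countable_empty, empty_subset _, fun y hy => absurd ⟨y, hy⟩ hx⟩
  · rintro ⟨h1, h2⟩
    have _ := hd h1
    refine ⟨h1, fun x => ⟨?_, ?_⟩⟩
    · rintro ⟨y, hy⟩
      obtain ⟨s, hs, hs1, hs2⟩ := exists_seq_lt h2 y x hy
      refine ⟨s, hs, ?_, fun z hz => ?_⟩
      · rintro _ ⟨n, rfl⟩
        exact (hs1 n).2.le
      · by_contra hcon
        obtain ⟨n, hn⟩ := hs2 z (not_le.1 hcon)
        exact absurd (hz ⟨n, rfl⟩) (not_le.2 hn)
    · rintro ⟨y, hy⟩
      obtain ⟨s, hs, hs1, hs2⟩ := exists_seq_gt h2 y x hy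
      refine ⟨s, hs, ?_, fun z hz => ?_⟩
      · rintro _ ⟨n, rfl⟩
        exact (hs1 n).2.le
      · by_contra hcon
        obtain ⟨n, hn⟩ := hs2 z (not_le.1 hcon)
        exact absurd (hz ⟨n, rfl⟩) (not_le.2 hn)

theorem isBasisForClass_iff {ι : Type} (B : ι → LinOrd.{0}) : IsBasisForClass B ↔ CBasis B := by
  constructor
  · rintro ⟨h1, h2⟩
    exact ⟨fun i => (inClass_iff _).1 (h1 i), fun L _ hL => h2 L ((inClass_iff L).2 hL)⟩
  · rintro ⟨h1, h2⟩
    exact ⟨fun i => (inClass_iff _).2 (h1 i), fun L _ hL => h2 L ((inClass_iff L).1 hL)⟩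

theorem isBasisUncountable_iff {ι : Type} (T : ι → LinOrd.{0}) : IsBasisUncountable T ↔ UncBasis T := by
  constructor
  · rintro ⟨h1, h2⟩
    refine ⟨h1, fun L _ hL => ?_⟩
    obtain ⟨i, ⟨f⟩⟩ := h2 L hL
    exact ⟨i, f, f.strictMono⟩
  · rintro ⟨h1, h2⟩
    refine ⟨h1, fun L _ hL => ?_⟩
    obtain ⟨i, f, hf⟩ := h2 L hL
    exact ⟨i, ⟨OrderEmbedding.ofStrictMono f hf⟩⟩

end Pool.Agent.E8helper92.LOTS.Final
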