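import Pool.Agent.E8helper92.LOTSLam

set_option autoImplicit false

/-!
# A minimal real type with the `λ`-property LOTS-embeds into every `ℵ₁`-dense set of reals
-/

namespace Pool.Agent.E8helper92.LOTS

open Set Cardinal

/-- left continuity -/
def LG {L M : Type} [LinearOrder L] [LinearOrder M] (g : L → M) (x : L) : Prop :=
  ∀ r, r < g x → ∃ y, y < x ∧ r < g y

/-- right continuity -/
def RG {L M : Type} [LinearOrder L] [LinearOrder M] (g : L → M) (x : L) : Prop :=
  ∀ r, g x < r → ∃ y, x < y ∧ g y < r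

theorem LG.congr {L M : Type} [LinearOrder L] [LinearOrder M] [DenselyOrdered L] {g g' : L → M}
    (hg : StrictMono g) {x x1 : L} (h1 : x1 < x) (heq : ∀ y, x1 < y → y ≤ x → g y = g' y) (h : LG g x) :
    LG g' x := by
  intro r hr
  rw [← heq x h1 le_rfl] at hr
  obtain ⟨y, hy, hry⟩ := h r hr
  obtain ⟨z, hz1, hz2⟩ := exists_between (max_lt hy h1)
  refine ⟨z, hz2, ?_⟩
  rw [← heq z ((le_max_right _ _).trans_lt hz1) hz2.le]
  exact hry.trans (hg ((le_max_left _ _).trans_lt hz1))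

theorem RG.congr {L M : Type} [LinearOrder L] [LinearOrder M] [DenselyOrdered L] {g g' : L → M}
    (hg : StrictMono g) {x x1 : L} (h1 : x < x1) (heq : ∀ y, x ≤ y → y < x1 → g y = g' y) (h : RG g x) :
    RG g' x := by
  intro r hr
  rw [← heq x le_rfl h1] at hr
  obtain ⟨y, hy, hry⟩ := h r hr
  obtain ⟨z, hz1, hz2⟩ := exists_between (lt_min hy h1)
  refine ⟨z, hz1, ?_⟩
  rw [← heq z hz1.le (hz2.trans_le (min_le_right _ _))]
  exact (hg (hz2.trans_le (min_le_left _ _))).trans hry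

/-- left continuity of the limit of the stage functions -/
theorem limit_left {L M : Type} [LinearOrder L] [LinearOrder M] (V : ℕ → Set L)
    (hconv : ∀ n x y z, x ∈ V n → z ∈ V n → x ≤ y → y ≤ z → y ∈ V n)
    (hlam : ∀ m n, m < n → ∀ y, y ∈ V m → y ∈ V n → V n ⊆ V m) (hfin : ∀ x, {n | x ∈ V n}.Finite)
    (G : ℕ → L → M) (hG : ∀ n, StrictMono (G n)) (hout : ∀ n x, x ∉ V n → G (n + 1) x = G n x)
    (hull : ∀ n x, x ∈ V n → ∃ u ∈ V n, G n u < G (n + 1) x)
    (hsep : ∀ n x x1, x ∉ V n → x1 ∈ V n → x1 < x → ∃ z, x1 < z ∧ z < x ∧ z ∉ V n)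
    (hdense : ∀ x1 x : L, x1 < x → ∃ z, x1 < z ∧ z < x)
    (g : L → M) (hg : ∀ x, ∃ N, ∀ n, N ≤ n → G n x = g x) (x : L) (N : ℕ) (hN : ∀ n, N ≤ n → x ∉ V n)
    (hNg : G N x = g x) (hN' : LG (G N) x) : LG g x := by
  intro r hr
  rw [← hNg] at hr
  obtain ⟨x1, hx1, hrx1⟩ := hN' r hr
  -- a point `z` separated from `x1` by all later modifications
  have hz : ∀ S : Set ℕ, S.Finite → (∀ n ∈ S, N ≤ n ∧ x1 ∈ V n) →
      ∃ z, x1 < z ∧ z < x ∧ ∀ n ∈ S, z ∉ V n := by
    intro S hS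
    induction S, hS using Set.Finite.induction_on with
    | empty =>
      intro _
      obtain ⟨z, h1, h2⟩ := hdense x1 x hx1
      exact ⟨z, h1, h2, by simp⟩
    | @insert a S ha hSf ih =>
      intro hS
      obtain ⟨z, h1, h2, h3⟩ := ih fun n hn => hS n (mem_insert_of_mem a hn)
      have ha2 := hS a (mem_insert a S)
      obtain ⟨w, h4, h5, h6⟩ := hsep a x x1 (hN a ha2.1) ha2.2 hx1
      refine ⟨max z w, lt_max_of_lt_left h1, max_lt h2 h5, ?_⟩
      intro n hn hcon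
      rcases mem_insert_iff.1 hn with h | h
      · subst h
        exact h6 (hconv n x1 w _ ha2.2 hcon h4.le (le_max_right _ _))
      · have h7 := hS n (mem_insert_of_mem a h)
        exact h3 n h (hconv n x1 z _ h7.2 hcon h1.le (le_max_left _ _))
  obtain ⟨z, hz1, hz2, hz3⟩ := hz {n | N ≤ n ∧ x1 ∈ V n} ((hfin x1).subset fun n hn => hn.2) fun n hn => hn
  refine ⟨z, hz2, hrx1.trans ?_⟩
  obtain ⟨Nz, hNz⟩ := hg z
  by_cases hex : ∃ n, N ≤ n ∧ z ∈ V n
  · classical
    obtain ⟨n0, hn0, hmin⟩ : ∃ n0, (N ≤ n0 ∧ z ∈ V n0) ∧ ∀ m, m < n0 → ¬ (N ≤ m ∧ z ∈ V m) :=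
      ⟨Nat.find hex, Nat.find_spec hex, fun m hm => Nat.find_min hex hm⟩
    have hx1V : x1 ∉ V n0 := fun h => hz3 n0 ⟨hn0.1, h⟩ hn0.2
    have hA : ∀ j, N + j ≤ n0 → ∀ w ∈ V n0, G (N + j) w = G N w := by
      intro j
      induction j with
      | zero => intro _ w _; rfl
      | succ j ih =>
        intro hj w hw
        have hjn : N + j < n0 := by omega
        rw [← add_assoc, hout (N + j) w (fun hw2 => hmin (N + j) hjn ⟨by omega,
          hlam (N + j) n0 hjn w hw2 hw hn0.2⟩)]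
        exact ih (by omega) w hw
    have hgt : ∀ w ∈ V n0, x1 < w := by
      intro w hw
      by_contra hcon
      exact hx1V (hconv n0 w x1 z hw hn0.2 (not_lt.1 hcon) hz1.le)
    have hB : ∀ j, ∀ w ∈ V n0, G N x1 < G (n0 + j) w := by
      intro j
      induction j with
      | zero =>
        intro w hw
        have h1 := hA (n0 - N) (by omega) w hw
        rw [show N + (n0 - N) = n0 by omega] at h1
        rw [add_zero, h1]
        exact hG N (hgt w hw)
      | succ j ih =>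
        intro w hw
        by_cases hw2 : w ∈ V (n0 + j)
        · obtain ⟨u, hu, hu2⟩ := hull (n0 + j) w hw2
          rw [← add_assoc]
          refine (ih u ?_).trans hu2
          rcases Nat.eq_zero_or_pos j with h0 | h0
          · subst h0; exact hu
          · exact hlam n0 (n0 + j) (by omega) w hw hw2 hu
        · rw [← add_assoc, hout _ _ hw2]
          exact ih w hw
    have h1 := hB Nz z hn0.2
    rwa [hNz (n0 + Nz) (by omega)] at h1
  · push Not at hex
    have h1 : ∀ j, G (N + j) z = G N z := by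
      intro j
      induction j with
      | zero => rfl
      | succ j ih => rw [← add_assoc, hout _ _ (hex (N + j) (by omega)), ih]
    rw [← hNz (N + Nz) (by omega), h1]
    exact hG N hz1

/-- right continuity of the limit -/
theorem limit_right {L M : Type} [LinearOrder L] [LinearOrder M] (V : ℕ → Set L)
    (hconv : ∀ n x y z, x ∈ V n → z ∈ V n → x ≤ y → y ≤ z → y ∈ V n)
    (hlam : ∀ m n, m < n → ∀ y, y ∈ V m → y ∈ V n → V n ⊆ V m) (hfin : ∀ x, {n | x ∈ V n}.Finite)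
    (G : ℕ → L → M) (hG : ∀ n, StrictMono (G n)) (hout : ∀ n x, x ∉ V n → G (n + 1) x = G n x)
    (hull : ∀ n x, x ∈ V n → ∃ u ∈ V n, G (n + 1) x < G n u)
    (hsep : ∀ n x x1, x ∉ V n → x1 ∈ V n → x < x1 → ∃ z, x < z ∧ z < x1 ∧ z ∉ V n)
    (hdense : ∀ x1 x : L, x1 < x → ∃ z, x1 < z ∧ z < x)
    (g : L → M) (hg : ∀ x, ∃ N, ∀ n, N ≤ n → G n x = g x) (x : L) (N : ℕ) (hN : ∀ n, N ≤ n → x ∉ V n)
    (hNg : G N x = g x) (hN' : RG (G N) x) : RG g x := by
  refine @limit_left Lᵒᵈ Mᵒᵈ _ _ V (fun n x y z hx hz h1 h2 => hconv n z y x hz hx h2 h1) hlam hfin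
    (fun n x => OrderDual.toDual (G n (OrderDual.ofDual x)))
    (fun n x y hxy => hG n (a := OrderDual.ofDual y) (b := OrderDual.ofDual x) hxy)
    (fun n x hx => congrArg OrderDual.toDual (hout n (OrderDual.ofDual x) hx))
    (fun n x hx => hull n (OrderDual.ofDual x) hx) (fun n x x1 hx hx1 h => ?_)
    (fun x1 x h => ?_) (fun x => OrderDual.toDual (g (OrderDual.ofDual x)))
    (fun x => ?_) (OrderDual.toDual x) N hN (congrArg OrderDual.toDual hNg) hN'
  · obtain ⟨z, h1, h2, h3⟩ := hsep n (OrderDual.ofDual x) (OrderDual.ofDual x1) hx hx1 h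
    exact ⟨OrderDual.toDual z, h2, h1, h3⟩
  · obtain ⟨z, h1, h2⟩ := hdense (OrderDual.ofDual x) (OrderDual.ofDual x1) h
    exact ⟨OrderDual.toDual z, h2, h1⟩
  · obtain ⟨N, hN⟩ := hg (OrderDual.ofDual x)
    exact ⟨N, fun n hn => congrArg OrderDual.toDual (hN n hn)⟩

/-! ### dyadic cells -/

/-- the number of the dyadic interval of level `k` which contains `x` -/
noncomputable def cell (k : ℕ) (x : ℝ) : ℤ := ⌊x * 2 ^ k⌋

theorem cell_mono (k : ℕ) {x y : ℝ} (h : x ≤ y) : cell k x ≤ cell k y :=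
  Int.floor_le_floor (mul_le_mul_of_nonneg_right h (by positivity))

theorem cell_conv {k : ℕ} {x y z : ℝ} (h1 : x ≤ y) (h2 : y ≤ z) {m : ℤ} (hx : cell k x = m) (hz : cell k z = m) :
    cell k y = m :=
  le_antisymm ((cell_mono k h2).trans hz.le) (hx.ge.trans (cell_mono k h1))

theorem cell_dist {k : ℕ} {x y : ℝ} (h : cell k x = cell k y) : |x - y| < 1 / 2 ^ k := by
  have h1 := Int.abs_sub_lt_one_of_floor_eq_floor h
  rw [← sub_mul, abs_mul, abs_of_pos (show (0 : ℝ) < 2 ^ k by positivity)] at h1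
  rw [lt_div_iff₀ (by positivity)]
  exact h1

theorem cell_anti {k l : ℕ} (hkl : k ≤ l) {x y : ℝ} (h : cell l x = cell l y) : cell k x = cell k y := by
  have key : ∀ x : ℝ, cell k x = ⌊(cell l x : ℝ) / 2 ^ (l - k)⌋ := by
    intro x
    have h2 : x * 2 ^ k = x * 2 ^ l / (2 ^ (l - k) : ℕ) := by
      rw [eq_div_iff (by positivity)]
      push_cast
      rw [mul_assoc, ← pow_add]
      congr 2
      omega
    unfold cell
    rw [h2, Int.floor_div_natCast]
    have h3 : ((⌊x * 2 ^ l⌋ : ℤ) : ℝ) / 2 ^ (l - k) = ((⌊x * 2 ^ l⌋ : ℤ) : ℝ) / ((2 ^ (l - k) : ℕ) : ℝ) := by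
      push_cast; rfl
    rw [h3, Int.floor_div_natCast, Int.floor_intCast]
  rw [key x, key y, h]

theorem cell_near (k : ℕ) {x : ℝ} (hx : Irrational x) : ∃ η > 0, ∀ y, |y - x| < η → cell k y = cell k x := by
  have h1 : ((cell k x : ℤ) : ℝ) < x * 2 ^ k := by
    refine lt_of_le_of_ne (Int.floor_le _) fun h => ?_
    have h2 : Irrational (x * ((2 ^ k : ℕ) : ℝ)) := hx.mul_natCast (by positivity)
    apply h2
    refine ⟨(cell k x : ℚ), ?_⟩
    push_cast
    exact h
  have h2 : x * 2 ^ k < (cell k x : ℝ) + 1 := Int.lt_floor_add_one _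
  have hp : (0 : ℝ) < 2 ^ k := by positivity
  refine ⟨min (x * 2 ^ k - cell k x) (cell k x + 1 - x * 2 ^ k) / 2 ^ k, div_pos (lt_min (by linarith)
    (by linarith)) hp, fun y hy => ?_⟩
  rw [lt_div_iff₀ hp] at hy
  have h3 : |(y - x) * 2 ^ k| < min (x * 2 ^ k - cell k x) (cell k x + 1 - x * 2 ^ k) := by
    rw [abs_mul, abs_of_pos hp]
    exact hy
  have h4 := abs_lt.1 h3
  have h5 := min_le_left (x * 2 ^ k - cell k x) (cell k x + 1 - x * 2 ^ k)
  have h6 := min_le_right (x * 2 ^ k - cell k x) (cell k x + 1 - x * 2 ^ k)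
  have h7 : y * 2 ^ k = x * 2 ^ k + (y - x) * 2 ^ k := by ring
  unfold cell at *
  rw [Int.floor_eq_iff]
  constructor
  · linarith [h4.1]
  · linarith [h4.2]

end Pool.Agent.E8helper92.LOTS
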