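import Pool.Agent.E8helper92.LOTSFusion

set_option autoImplicit false

/-!
# The step of the construction and the LOTS embedding
-/

namespace Pool.Agent.E8helper92.LOTS

open Set Cardinal Filter Topology

section concrete

variable {X Y : Set ℝ}

theorem countable_bad_left (e : X → Y) : {x : X | ¬ LG e x}.Countable := by
  obtain ⟨A, hA⟩ : ∃ A : Set X, A = {x : X | ¬ LG e x} := ⟨_, rfl⟩
  rw [← hA]
  have h1 : ∀ x : A, ∃ r : Y, r < e x ∧ ∀ y, y < (x : X) → e y ≤ r := by
    rintro ⟨x, hx⟩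
    rw [hA] at hx
    have hx' : ¬ LG e x := hx
    unfold LG at hx'
    push Not at hx'
    exact hx'
  choose r hr1 hr2 using h1
  have h2 : ∀ x : A, ∃ q : ℚ, (r x : ℝ) < q ∧ (q : ℝ) < e x := fun x => exists_rat_btwn (hr1 x)
  choose q hq1 hq2 using h2
  have key : ∀ x x' : A, (x : X) < x' → q x < q x' := by
    intro x x' h
    have h3 : (e x : ℝ) ≤ r x' := hr2 x' x h
    have h4 : (q x : ℝ) < q x' := (hq2 x).trans_le (h3.trans (hq1 x').le)
    exact_mod_cast h4
  have hinj : Function.Injective q := by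
    intro x x' h
    rcases lt_trichotomy (x : X) x' with h7 | h7 | h7
    · exact absurd h (key _ _ h7).ne
    · exact Subtype.ext h7
    · exact absurd h (key _ _ h7).ne'
  exact Set.countable_coe_iff.1 hinj.countable

theorem countable_bad_right (e : X → Y) : {x : X | ¬ RG e x}.Countable := by
  obtain ⟨A, hA⟩ : ∃ A : Set X, A = {x : X | ¬ RG e x} := ⟨_, rfl⟩
  rw [← hA]
  have h1 : ∀ x : A, ∃ r : Y, e x < r ∧ ∀ y, (x : X) < y → r ≤ e y := by
    rintro ⟨x, hx⟩
    rw [hA] at hx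
    have hx' : ¬ RG e x := hx
    unfold RG at hx'
    push Not at hx'
    exact hx'
  choose r hr1 hr2 using h1
  have h2 : ∀ x : A, ∃ q : ℚ, (e x : ℝ) < q ∧ (q : ℝ) < r x := fun x => exists_rat_btwn (hr1 x)
  choose q hq1 hq2 using h2
  have key : ∀ x x' : A, (x : X) < x' → q x < q x' := by
    intro x x' h
    have h3 : (r x : ℝ) ≤ e x' := hr2 x x' h
    have h4 : (q x : ℝ) < q x' := (hq2 x).trans_le (h3.trans (hq1 x').le)
    exact_mod_cast h4
  have hinj : Function.Injective q := by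
    intro x x' h
    rcases lt_trichotomy (x : X) x' with h7 | h7 | h7
    · exact absurd h (key _ _ h7).ne
    · exact Subtype.ext h7
    · exact absurd h (key _ _ h7).ne'
  exact Set.countable_coe_iff.1 hinj.countable

variable (hX1 : ∀ x ∈ X, Irrational x)
    (hXl : ∀ x : X, ∀ a : ℝ, a < x → ∃ y : X, a < y ∧ y < x)
    (hXr : ∀ x : X, ∀ a : ℝ, (x : ℝ) < a → ∃ y : X, x < y ∧ (y : ℝ) < a)
    (E : ℚ → ℚ → X → Y) (hE1 : ∀ p q, p < q → StrictMono (E p q))
    (hE2 : ∀ p q : ℚ, p < q → ∀ x, (p : ℝ) < E p q x ∧ (E p q x : ℝ) < q)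
    (C : Set X) (hC : ∀ p q, p < q → ∀ x, x ∉ C → LG (E p q) x ∧ RG (E p q) x)

include hX1 hXl hXr hE1 hE2 hC

theorem left_part (c : X) (s d : ℝ) (hsd : s < d) : ∃ h : X → Y,
    (∀ x, x < c → s < h x ∧ (h x : ℝ) < d) ∧ (∀ x y, x < y → y < c → h x < h y) ∧
    (∀ r, r < d → ∃ x, x < c ∧ r < h x) ∧
    ∀ x, x < c → x ∉ C → (∀ r : Y, r < h x → ∃ y, y < x ∧ r < h y) ∧
      ∀ r : Y, h x < r → ∃ y, x < y ∧ y < c ∧ h y < r := by
  classical
  obtain ⟨a, ha, hac, hat⟩ := Real.exists_seq_rat_strictMono_tendsto (c : ℝ)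
  obtain ⟨a', ha', had', hat'⟩ := Real.exists_seq_rat_strictMono_tendsto d
  obtain ⟨m, hm⟩ := (hat'.eventually (lt_mem_nhds hsd)).exists
  obtain ⟨t, ht⟩ : ∃ t : ℕ → ℚ, t = fun i => a' (m + i) := ⟨_, rfl⟩
  have htm : StrictMono t := by
    intro i j hij
    rw [ht]
    exact ha' (by omega)
  have htd : ∀ i, (t i : ℝ) < d := fun i => by rw [ht]; exact had' _
  have hts : ∀ i, s < t i := by
    intro i
    rw [ht]
    have : (a' m : ℝ) ≤ a' (m + i) := by exact_mod_cast ha'.monotone (Nat.le_add_right m i)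
    exact hm.trans_le this
  have htt : ∀ r, r < d → ∃ i, r < t i := by
    intro r hr
    obtain ⟨i, hi⟩ := (hat'.eventually (lt_mem_nhds hr)).exists
    refine ⟨i, hi.trans_le ?_⟩
    rw [ht]
    exact_mod_cast ha'.monotone (Nat.le_add_left i m)
  have hex : ∀ x : X, x < c → ∃ i, (x : ℝ) < a i := fun x hx => (hat.eventually (lt_mem_nhds hx)).exists
  let idx : X → ℕ := fun x => if h : ∃ i, (x : ℝ) < a i then Nat.find h else 0
  have hidx1 : ∀ x : X, x < c → (x : ℝ) < a (idx x) := by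
    intro x hx
    simp only [idx]
    rw [dif_pos (hex x hx)]
    exact Nat.find_spec (hex x hx)
  have hidx2 : ∀ (x : X) (j : ℕ), x < c → j < idx x → (a j : ℝ) < x := by
    intro x j hx hj
    simp only [idx] at hj
    rw [dif_pos (hex x hx)] at hj
    have h1 := not_lt.1 (Nat.find_min (hex x hx) hj)
    refine lt_of_le_of_ne h1 fun h => ?_
    exact hX1 x x.2 ⟨a j, h⟩
  have hidx3 : ∀ (x : X) (i : ℕ), x < c → (x : ℝ) < a i → (∀ j, j < i → (a j : ℝ) < x) → idx x = i := by
    intro x i hx h1 h2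
    apply le_antisymm
    · by_contra hcon
      exact absurd (hidx2 x i hx (not_le.1 hcon)) (not_lt.2 h1.le)
    · by_contra hcon
      exact absurd (h2 _ (not_le.1 hcon)) (not_lt.2 (hidx1 x hx).le)
  have htlt : ∀ i, t i < t (i + 1) := fun i => htm (Nat.lt_succ_self i)
  let h : X → Y := fun x => E (t (idx x)) (t (idx x + 1)) x
  have hh1 : ∀ x, (t (idx x) : ℝ) < h x ∧ (h x : ℝ) < t (idx x + 1) := fun x => hE2 _ _ (htlt _) x
  refine ⟨h, fun x _ => ⟨(hts _).trans (hh1 x).1, (hh1 x).2.trans (htd _)⟩, ?_, ?_, ?_⟩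
  · intro x y hxy hyc
    have h1 : idx x ≤ idx y := by
      by_contra hcon
      have h2 := hidx2 x (idx y) (hxy.trans hyc) (not_le.1 hcon)
      have h3 := hidx1 y hyc
      exact absurd (h2.trans hxy) (not_lt.2 h3.le)
    rcases h1.eq_or_lt with h2 | h2
    · show E (t (idx x)) (t (idx x + 1)) x < E (t (idx y)) (t (idx y + 1)) y
      rw [← h2]
      exact hE1 _ _ (htlt _) hxy
    · have h3 : (t (idx x + 1) : ℝ) ≤ t (idx y) := by exact_mod_cast htm.monotone h2
      show (h x : ℝ) < h y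
      exact (hh1 x).2.trans_le (h3.trans (hh1 y).1.le)
  · intro r hr
    obtain ⟨i, hi⟩ := htt r hr
    obtain ⟨x, hx1, hx2⟩ := hXl c (a i) (hac i)
    refine ⟨x, hx2, hi.trans (lt_of_le_of_lt ?_ (hh1 x).1)⟩
    have h1 : i ≤ idx x := by
      by_contra hcon
      have h2 := hidx1 x hx2
      have h3 : (a (idx x) : ℝ) ≤ a i := by exact_mod_cast ha.monotone (not_le.1 hcon).le
      exact absurd (h2.trans_le h3) (not_lt.2 hx1.le)
    exact_mod_cast htm.monotone h1
  · intro x hxc hxC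
    obtain ⟨hl, hr⟩ := hC (t (idx x)) (t (idx x + 1)) (htlt _) x hxC
    constructor
    · intro r hrx
      obtain ⟨y, hy, hry⟩ := hl r hrx
      obtain ⟨w, hw1, hw2⟩ : ∃ w : ℝ, w < x ∧ ∀ j, j < idx x → (a j : ℝ) ≤ w := by
        rcases Nat.eq_zero_or_pos (idx x) with h0 | h0
        · exact ⟨x - 1, by linarith, fun j hj => by omega⟩
        · refine ⟨a (idx x - 1), hidx2 x _ hxc (by omega), fun j hj => ?_⟩
          exact_mod_cast ha.monotone (by omega)
      obtain ⟨z, hz1, hz2⟩ := hXl x (max y w) (max_lt hy hw1)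
      have hzi : idx z = idx x := by
        apply hidx3 z _ (hz2.trans hxc)
        · exact (show (z : ℝ) < x from hz2).trans (hidx1 x hxc)
        · intro j hj
          exact ((hw2 j hj).trans (le_max_right _ _)).trans_lt hz1
      refine ⟨z, hz2, hry.trans ?_⟩
      show E (t (idx x)) (t (idx x + 1)) y < E (t (idx z)) (t (idx z + 1)) z
      rw [hzi]
      exact hE1 _ _ (htlt _) ((le_max_left _ _).trans_lt hz1 : (y : ℝ) < z)
    · intro r hrx
      obtain ⟨y, hy, hry⟩ := hr r hrx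
      obtain ⟨z, hz1, hz2⟩ := hXr x (min y (min (a (idx x)) c))
        (lt_min hy (lt_min (hidx1 x hxc) hxc))
      have hzy : (z : ℝ) < y := hz2.trans_le (min_le_left _ _)
      have hza : (z : ℝ) < a (idx x) := hz2.trans_le ((min_le_right _ _).trans (min_le_left _ _))
      have hzc : (z : ℝ) < c := hz2.trans_le ((min_le_right _ _).trans (min_le_right _ _))
      have hzi : idx z = idx x := hidx3 z _ hzc hza fun j hj => (hidx2 x j hxc hj).trans hz1
      refine ⟨z, hz1, hzc, lt_trans ?_ hry⟩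
      show E (t (idx z)) (t (idx z + 1)) z < E (t (idx x)) (t (idx x + 1)) y
      rw [hzi]
      exact hE1 _ _ (htlt _) hzy

theorem right_part (c : X) (s d : ℝ) (hsd : d < s) : ∃ h : X → Y,
    (∀ x, c < x → (h x : ℝ) < s ∧ d < (h x : ℝ)) ∧ (∀ x y, x < y → c < x → h x < h y) ∧
    (∀ r, d < r → ∃ x, c < x ∧ (h x : ℝ) < r) ∧
    ∀ x, c < x → x ∉ C → (∀ r : Y, r < h x → ∃ y, y < x ∧ c < y ∧ r < h y) ∧
      ∀ r : Y, h x < r → ∃ y, x < y ∧ h y < r := by
  classical
  obtain ⟨a, ha, hac, hat⟩ := Real.exists_seq_rat_strictAnti_tendsto (c : ℝ)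
  obtain ⟨a', ha', had', hat'⟩ := Real.exists_seq_rat_strictAnti_tendsto d
  obtain ⟨m, hm⟩ := (hat'.eventually (gt_mem_nhds hsd)).exists
  obtain ⟨t, ht⟩ : ∃ t : ℕ → ℚ, t = fun i => a' (m + i) := ⟨_, rfl⟩
  have htm : StrictAnti t := by
    intro i j hij
    rw [ht]
    exact ha' (by omega)
  have htd : ∀ i, d < (t i : ℝ) := fun i => by rw [ht]; exact had' _
  have hts : ∀ i, (t i : ℝ) < s := by
    intro i
    rw [ht]
    have : (a' (m + i) : ℝ) ≤ a' m := by exact_mod_cast ha'.antitone (Nat.le_add_right m i)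
    exact this.trans_lt hm
  have htt : ∀ r, d < r → ∃ i, (t i : ℝ) < r := by
    intro r hr
    obtain ⟨i, hi⟩ := (hat'.eventually (gt_mem_nhds hr)).exists
    refine ⟨i, lt_of_le_of_lt ?_ hi⟩
    rw [ht]
    exact_mod_cast ha'.antitone (Nat.le_add_left i m)
  have hex : ∀ x : X, c < x → ∃ i, (a i : ℝ) < x := fun x hx => (hat.eventually (gt_mem_nhds hx)).exists
  let idx : X → ℕ := fun x => if h : ∃ i, (a i : ℝ) < x then Nat.find h else 0
  have hidx1 : ∀ x : X, c < x → (a (idx x) : ℝ) < x := by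
    intro x hx
    simp only [idx]
    rw [dif_pos (hex x hx)]
    exact Nat.find_spec (hex x hx)
  have hidx2 : ∀ (x : X) (j : ℕ), c < x → j < idx x → (x : ℝ) < a j := by
    intro x j hx hj
    simp only [idx] at hj
    rw [dif_pos (hex x hx)] at hj
    have h1 := not_lt.1 (Nat.find_min (hex x hx) hj)
    refine lt_of_le_of_ne h1 fun h => ?_
    exact hX1 x x.2 ⟨a j, h.symm⟩
  have hidx3 : ∀ (x : X) (i : ℕ), c < x → (a i : ℝ) < x → (∀ j, j < i → (x : ℝ) < a j) → idx x = i := by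
    intro x i hx h1 h2
    apply le_antisymm
    · by_contra hcon
      exact absurd (hidx2 x i hx (not_le.1 hcon)) (not_lt.2 h1.le)
    · by_contra hcon
      exact absurd (h2 _ (not_le.1 hcon)) (not_lt.2 (hidx1 x hx).le)
  have htlt : ∀ i, t (i + 1) < t i := fun i => htm (Nat.lt_succ_self i)
  let h : X → Y := fun x => E (t (idx x + 1)) (t (idx x)) x
  have hh1 : ∀ x, (t (idx x + 1) : ℝ) < h x ∧ (h x : ℝ) < t (idx x) := fun x => hE2 _ _ (htlt _) x
  refine ⟨h, fun x _ => ⟨(hh1 x).2.trans (hts _), (htd _).trans (hh1 x).1⟩, ?_, ?_, ?_⟩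
  · intro x y hxy hyc
    have h1 : idx y ≤ idx x := by
      by_contra hcon
      have h2 := hidx2 y (idx x) (hyc.trans hxy) (not_le.1 hcon)
      have h3 := hidx1 x hyc
      exact absurd (h3.trans hxy) (not_lt.2 h2.le)
    rcases h1.eq_or_lt with h2 | h2
    · show E (t (idx x + 1)) (t (idx x)) x < E (t (idx y + 1)) (t (idx y)) y
      rw [h2]
      exact hE1 _ _ (htlt _) hxy
    · have h3 : (t (idx x) : ℝ) ≤ t (idx y + 1) := by exact_mod_cast htm.antitone h2
      show (h x : ℝ) < h y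
      exact (hh1 x).2.trans_le (h3.trans (hh1 y).1.le)
  · intro r hr
    obtain ⟨i, hi⟩ := htt r hr
    obtain ⟨x, hx1, hx2⟩ := hXr c (a i) (hac i)
    refine ⟨x, hx1, lt_of_lt_of_le (hh1 x).2 (le_trans ?_ hi.le)⟩
    have h1 : i ≤ idx x := by
      by_contra hcon
      have h2 := hidx1 x hx1
      have h3 : (a i : ℝ) ≤ a (idx x) := by exact_mod_cast ha.antitone (not_le.1 hcon).le
      exact absurd (h3.trans_lt h2) (not_lt.2 hx2.le)
    exact_mod_cast htm.antitone h1
  · intro x hxc hxC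
    obtain ⟨hl, hr⟩ := hC (t (idx x + 1)) (t (idx x)) (htlt _) x hxC
    constructor
    · intro r hrx
      obtain ⟨y, hy, hry⟩ := hl r hrx
      obtain ⟨z, hz1, hz2⟩ := hXl x (max y (max (a (idx x)) c))
        (max_lt hy (max_lt (hidx1 x hxc) hxc))
      have hzy : (y : ℝ) < z := (le_max_left _ _).trans_lt hz1
      have hza : (a (idx x) : ℝ) < z := ((le_max_left _ _).trans (le_max_right _ _)).trans_lt hz1
      have hzc : (c : ℝ) < z := ((le_max_right _ _).trans (le_max_right _ _)).trans_lt hz1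
      have hzi : idx z = idx x := hidx3 z _ hzc hza fun j hj =>
        (show (z : ℝ) < x from hz2).trans (hidx2 x j hxc hj)
      refine ⟨z, hz2, hzc, hry.trans ?_⟩
      show E (t (idx x + 1)) (t (idx x)) y < E (t (idx z + 1)) (t (idx z)) z
      rw [hzi]
      exact hE1 _ _ (htlt _) hzy
    · intro r hrx
      obtain ⟨y, hy, hry⟩ := hr r hrx
      obtain ⟨w, hw1, hw2⟩ : ∃ w : ℝ, (x : ℝ) < w ∧ ∀ j, j < idx x → w ≤ (a j : ℝ) := by
        rcases Nat.eq_zero_or_pos (idx x) with h0 | h0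
        · exact ⟨x + 1, by linarith, fun j hj => by omega⟩
        · refine ⟨a (idx x - 1), hidx2 x _ hxc (by omega), fun j hj => ?_⟩
          exact_mod_cast ha.antitone (by omega)
      obtain ⟨z, hz1, hz2⟩ := hXr x (min y w) (lt_min hy hw1)
      have hzi : idx z = idx x := by
        apply hidx3 z _ (hxc.trans hz1)
        · exact (hidx1 x hxc).trans hz1
        · intro j hj
          exact hz2.trans_le ((min_le_right _ _).trans (hw2 j hj))
      refine ⟨z, hz1, lt_trans ?_ hry⟩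
      show E (t (idx z + 1)) (t (idx z)) z < E (t (idx x + 1)) (t (idx x)) y
      rw [hzi]
      exact hE1 _ _ (htlt _) (hz2.trans_le (min_le_left _ _) : (z : ℝ) < y)

theorem exists_step (g : X → Y) (hg : StrictMono g) (k : ℕ) (c : X) : ∃ g' : X → Y, StrictMono g' ∧
    (∀ x : X, cell k x ≠ cell k c → g' x = g x) ∧
    (∃ u v : X, cell k u = cell k c ∧ cell k v = cell k c ∧
      ∀ x : X, cell k x = cell k c → g u < g' x ∧ g' x < g v) ∧
    LG g' c ∧ RG g' c ∧ ∀ x : X, cell k x = cell k c → x ≠ c → x ∉ C → LG g' x ∧ RG g' x := by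
  classical
  have hdl : ∀ x : X, ∀ a : X, a < x → ∃ y : X, a < y ∧ y < x ∧ cell k y = cell k x := by
    intro x a hax
    obtain ⟨η, hη, hηx⟩ := cell_near k (hX1 x x.2)
    obtain ⟨y, hy1, hy2⟩ := hXl x (max a (x - η)) (max_lt hax (by linarith))
    have h1 : (a : ℝ) < y := (le_max_left _ _).trans_lt hy1
    have h2 : (x : ℝ) - η < y := (le_max_right _ _).trans_lt hy1
    have h3 : (y : ℝ) < x := hy2
    exact ⟨y, h1, hy2, hηx y (by rw [abs_lt]; constructor <;> linarith)⟩
  have hdr : ∀ x : X, ∀ a : X, x < a → ∃ y : X, x < y ∧ y < a ∧ cell k y = cell k x := by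
    intro x a hax
    obtain ⟨η, hη, hηx⟩ := cell_near k (hX1 x x.2)
    obtain ⟨y, hy1, hy2⟩ := hXr x (min a (x + η)) (lt_min hax (by linarith))
    have h1 : (y : ℝ) < a := hy2.trans_le (min_le_left _ _)
    have h2 : (y : ℝ) < x + η := hy2.trans_le (min_le_right _ _)
    have h3 : (x : ℝ) < y := hy1
    exact ⟨y, hy1, h1, hηx y (by rw [abs_lt]; constructor <;> linarith)⟩
  obtain ⟨u, hu1, hu2⟩ : ∃ u : X, u < c ∧ cell k u = cell k c := by
    obtain ⟨y, _, h⟩ := hXl c (c - 1) (by linarith)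
    obtain ⟨u, _, h2, h3⟩ := hdl c y h
    exact ⟨u, h2, h3⟩
  obtain ⟨v, hv1, hv2⟩ : ∃ v : X, c < v ∧ cell k v = cell k c := by
    obtain ⟨y, h, _⟩ := hXr c (c + 1) (by linarith)
    obtain ⟨u, h2, _, h3⟩ := hdr c y h
    exact ⟨u, h2, h3⟩
  obtain ⟨l, hl1, hl2, hl3, hl4⟩ := left_part hX1 hXl hXr E hE1 hE2 C hC c (g u) (g c) (hg hu1)
  obtain ⟨r, hr1, hr2, hr3, hr4⟩ := right_part hX1 hXl hXr E hE1 hE2 C hC c (g v) (g c) (hg hv1)
  let g' : X → Y := fun x =>
    if cell k x = cell k c then (if x < c then l x else if c < x then r x else g c) else g x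
  have g1 : ∀ x : X, cell k x ≠ cell k c → g' x = g x := fun x hx => if_neg hx
  have g2 : ∀ x : X, cell k x = cell k c → x < c → g' x = l x := fun x hx hxc => by
    simp only [g']
    rw [if_pos hx, if_pos hxc]
  have g3 : ∀ x : X, cell k x = cell k c → c < x → g' x = r x := fun x hx hxc => by
    simp only [g']
    rw [if_pos hx, if_neg (not_lt.2 hxc.le), if_pos hxc]
  have g4 : g' c = g c := by
    simp [g']
  have hull : ∀ x : X, cell k x = cell k c → g u < g' x ∧ g' x < g v := by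
    intro x hx
    rcases lt_trichotomy x c with h | h | h
    · rw [g2 x hx h]
      have h1 : (l x : ℝ) < g v := (hl1 x h).2.trans (hg hv1)
      exact ⟨(hl1 x h).1, h1⟩
    · rw [h, g4]
      exact ⟨hg hu1, hg hv1⟩
    · rw [g3 x hx h]
      have h1 : (g u : ℝ) < r x := (show (g u : ℝ) < g c from hg hu1).trans (hr1 x h).2
      exact ⟨h1, (hr1 x h).1⟩
  have conv : ∀ x y z : X, cell k x = cell k c → cell k z = cell k c → x ≤ y → y ≤ z →
      cell k y = cell k c := fun x y z hx hz h1 h2 =>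
    cell_conv (show (x : ℝ) ≤ y from h1) (show (y : ℝ) ≤ z from h2) hx hz
  have hmono : StrictMono g' := by
    intro x y hxy
    by_cases hx : cell k x = cell k c
    · by_cases hy : cell k y = cell k c
      · rcases lt_trichotomy x c with h | h | h
        · rcases lt_trichotomy y c with h' | h' | h'
          · rw [g2 x hx h, g2 y hy h']
            exact hl2 x y hxy h'
          · rw [g2 x hx h, h', g4]
            exact (hl1 x h).2
          · rw [g2 x hx h, g3 y hy h']
            exact (hl1 x h).2.trans (hr1 y h').2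
        · subst h
          rw [g4, g3 y hy hxy]
          exact (hr1 y hxy).2
        · rw [g3 x hx h, g3 y hy (h.trans hxy)]
          exact hr2 x y hxy h
      · rw [g1 y hy]
        have hvy : v < y := by
          by_contra hcon
          exact hy (conv x y v hx hv2 hxy.le (not_lt.1 hcon))
        exact (hull x hx).2.trans (hg hvy)
    · by_cases hy : cell k y = cell k c
      · rw [g1 x hx]
        have hvy : x < u := by
          by_contra hcon
          exact hx (conv u x y hu2 hy (not_lt.1 hcon) hxy.le)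
        exact (hg hvy).trans (hull y hy).1
      · rw [g1 x hx, g1 y hy]
        exact hg hxy
  refine ⟨g', hmono, g1, ⟨u, v, hu2, hv2, hull⟩, ?_, ?_, ?_⟩
  · intro s hs
    rw [g4] at hs
    obtain ⟨x, hx1, hx2⟩ := hl3 s hs
    obtain ⟨y, hy1, hy2, hy3⟩ := hdl c x hx1
    refine ⟨y, hy2, ?_⟩
    rw [g2 y hy3 hy2]
    exact (show s < l x from hx2).trans (hl2 x y hy1 hy2)
  · intro s hs
    rw [g4] at hs
    obtain ⟨x, hx1, hx2⟩ := hr3 s hs
    obtain ⟨y, hy1, hy2, hy3⟩ := hdr c x hx1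
    refine ⟨y, hy1, ?_⟩
    rw [g3 y hy3 hy1]
    exact (hr2 y x hy2 hy1).trans (show r x < s from hx2)
  · intro x hx hxc hxC
    rcases lt_or_gt_of_ne hxc with h | h
    · obtain ⟨h1, h2⟩ := hl4 x h hxC
      constructor
      · intro s hs
        rw [g2 x hx h] at hs
        obtain ⟨y, hy1, hy2⟩ := h1 s hs
        obtain ⟨z, hz1, hz2, hz3⟩ := hdl x y hy1
        refine ⟨z, hz2, ?_⟩
        rw [g2 z (hz3.trans hx) (hz2.trans h)]
        exact hy2.trans (hl2 y z hz1 (hz2.trans h))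
      · intro s hs
        rw [g2 x hx h] at hs
        obtain ⟨y, hy1, hyc, hy2⟩ := h2 s hs
        obtain ⟨z, hz1, hz2, hz3⟩ := hdr x y hy1
        refine ⟨z, hz1, ?_⟩
        rw [g2 z (hz3.trans hx) (hz2.trans hyc)]
        exact (hl2 z y hz2 hyc).trans hy2
    · obtain ⟨h1, h2⟩ := hr4 x h hxC
      constructor
      · intro s hs
        rw [g3 x hx h] at hs
        obtain ⟨y, hy1, hyc, hy2⟩ := h1 s hs
        obtain ⟨z, hz1, hz2, hz3⟩ := hdl x y hy1
        refine ⟨z, hz2, ?_⟩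
        rw [g3 z (hz3.trans hx) (hyc.trans hz1)]
        exact hy2.trans (hr2 y z hz1 hyc)
      · intro s hs
        rw [g3 x hx h] at hs
        obtain ⟨y, hy1, hy2⟩ := h2 s hs
        obtain ⟨z, hz1, hz2, hz3⟩ := hdr x y hy1
        refine ⟨z, hz1, ?_⟩
        rw [g3 z (hz3.trans hx) (h.trans hz1)]
        exact (hr2 z y hz2 (h.trans hz1)).trans hy2

end concrete

end Pool.Agent.E8helper92.LOTS
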