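import Pool.Agent.E8helper92.LOTSFusion2

set_option autoImplicit false

/-!
# The LOTS embedding of a minimal real type
-/

namespace Pool.Agent.E8helper92.LOTS

open Set Cardinal Filter Topology

theorem real_lots_emb {X Y : Set ℝ} (hX1 : ∀ x ∈ X, Irrational x) (hlam : Lam X)
    (hX2 : ∀ x ∈ X, ∀ ε > 0, ¬ (X ∩ Ioo (x - ε) x).Countable ∧ ¬ (X ∩ Ioo x (x + ε)).Countable)
    (hXc : ¬ X.Countable)
    (hemb : ∀ Y : Set ℝ, ¬ Y.Countable → ∃ f : ℝ → ℝ, StrictMonoOn f X ∧ ∀ x ∈ X, f x ∈ Y)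
    (hY : Aleph1DenseReal Y) : LOTSEmb X Y := by
  classical
  have hXl : ∀ x : X, ∀ a : ℝ, a < x → ∃ y : X, a < y ∧ y < x := by
    intro x a ha
    have h1 := (hX2 x x.2 (x - a) (by linarith)).1
    have h2 : (X ∩ Ioo ((x : ℝ) - (x - a)) x).Nonempty := by
      rw [nonempty_iff_ne_empty]
      intro h
      rw [h] at h1
      exact h1 countable_empty
    obtain ⟨y, hy, hy1, hy2⟩ := h2
    exact ⟨⟨y, hy⟩, by simp only; linarith, hy2⟩
  have hXr : ∀ x : X, ∀ a : ℝ, (x : ℝ) < a → ∃ y : X, x < y ∧ (y : ℝ) < a := by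
    intro x a ha
    have h1 := (hX2 x x.2 (a - x) (by linarith)).2
    have h2 : (X ∩ Ioo (x : ℝ) (x + (a - x))).Nonempty := by
      rw [nonempty_iff_ne_empty]
      intro h
      rw [h] at h1
      exact h1 countable_empty
    obtain ⟨y, hy, hy1, hy2⟩ := h2
    exact ⟨⟨y, hy⟩, hy1, by simp only; linarith⟩
  have hXdense : ∀ a b : X, a < b → ∃ z, a < z ∧ z < b := by
    intro a b hab
    obtain ⟨z, h1, h2⟩ := hXl b a hab
    exact ⟨z, h1, h2⟩
  have _ : DenselyOrdered X := ⟨fun a b hab => hXdense a b hab⟩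
  -- the blocks
  have hE0 : ∀ p q : ℚ, p < q → ∃ e : X → Y, StrictMono e ∧ ∀ x, (p : ℝ) < e x ∧ (e x : ℝ) < q := by
    intro p q hpq
    have hpq' : (p : ℝ) < q := by exact_mod_cast hpq
    obtain ⟨f, hf1, hf2⟩ := hemb (Y ∩ Ioo (p : ℝ) q) (not_countable_of_mk (hY p q hpq').ge)
    exact ⟨fun x => ⟨f x, (hf2 x x.2).1⟩, fun x y hxy => hf1 x.2 y.2 hxy, fun x => (hf2 x x.2).2⟩
  have hE' : ∀ p q : ℚ, ∃ e : X → Y, p < q → StrictMono e ∧ ∀ x, (p : ℝ) < e x ∧ (e x : ℝ) < q := by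
    intro p q
    by_cases h : p < q
    · obtain ⟨e, he⟩ := hE0 p q h
      exact ⟨e, fun _ => he⟩
    · obtain ⟨e, _⟩ := hE0 0 1 (by norm_num)
      exact ⟨e, fun h' => absurd h' h⟩
  choose E hE using hE'
  have hE1 : ∀ p q, p < q → StrictMono (E p q) := fun p q h => (hE p q h).1
  have hE2 : ∀ p q : ℚ, p < q → ∀ x, (p : ℝ) < E p q x ∧ (E p q x : ℝ) < q := fun p q h => (hE p q h).2
  -- the countable set of bad points
  have hXinf : Infinite X := by
    by_contra hcon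
    rw [not_infinite_iff_finite] at hcon
    exact hXc (Set.toFinite X).countable
  obtain ⟨C, hCdef⟩ : ∃ C : Set X, C = (⋃ pq : ℚ × ℚ, ({x | ¬ LG (E pq.1 pq.2) x} ∪ {x | ¬ RG (E pq.1 pq.2) x})) ∪
      range (Infinite.natEmbedding X) := ⟨_, rfl⟩
  have hCc : C.Countable := by
    rw [hCdef]
    exact (countable_iUnion fun pq => (countable_bad_left _).union (countable_bad_right _)).union
      (countable_range _)
  have hCinf : C.Infinite := by
    rw [hCdef]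
    exact (Set.infinite_range_of_injective (Infinite.natEmbedding X).injective).mono subset_union_right
  have hC : ∀ p q, p < q → ∀ x, x ∉ C → LG (E p q) x ∧ RG (E p q) x := by
    intro p q _ x hx
    constructor
    · by_contra h
      apply hx
      rw [hCdef]
      exact Or.inl (mem_iUnion.2 ⟨(p, q), Or.inl h⟩)
    · by_contra h
      apply hx
      rw [hCdef]
      exact Or.inl (mem_iUnion.2 ⟨(p, q), Or.inr h⟩)
  obtain ⟨c, hcinj, hcC⟩ : ∃ c : ℕ → X, Function.Injective c ∧ range c = C := by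
    have i1 : Countable C := hCc.to_subtype
    have i2 : Infinite C := hCinf.to_subtype
    obtain ⟨d⟩ := (nonempty_denumerable_iff (α := C)).2 ⟨i1, i2⟩
    refine ⟨fun n => ((Denumerable.eqv C).symm n : C), ?_, ?_⟩
    · intro n m h
      exact (Denumerable.eqv C).symm.injective (Subtype.ext h)
    · ext x
      constructor
      · rintro ⟨n, rfl⟩
        exact ((Denumerable.eqv C).symm n).2
      · intro hx
        exact ⟨Denumerable.eqv C ⟨x, hx⟩, by simp⟩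
  obtain ⟨δ, hδ1, hδ2⟩ := hlam (Subtype.val '' C) (by rintro _ ⟨x, _, rfl⟩; exact x.2) (hCc.image _)
  have hcmem : ∀ n, c n ∈ C := fun n => hcC ▸ mem_range_self n
  have hk : ∀ n, ∃ k : ℕ, (1 : ℝ) / 2 ^ k < δ (c n) ∧ ∀ m, m < n → (1 : ℝ) / 2 ^ k < |(c m : ℝ) - c n| := by
    intro n
    have hlim : Tendsto (fun k : ℕ => (1 : ℝ) / 2 ^ k) atTop (𝓝 0) := by
      have h := tendsto_pow_atTop_nhds_zero_of_lt_one (r := (1 / 2 : ℝ)) (by norm_num) (by norm_num)
      refine h.congr fun k => ?_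
      rw [one_div_pow]
    have h1 : ∀ᶠ k : ℕ in atTop, (1 : ℝ) / 2 ^ k < δ (c n) :=
      hlim.eventually (gt_mem_nhds (hδ1 _ ⟨c n, hcmem n, rfl⟩))
    have h2 : ∀ᶠ k : ℕ in atTop, ∀ m ∈ Iio n, (1 : ℝ) / 2 ^ k < |(c m : ℝ) - c n| := by
      rw [Filter.eventually_all_finite (finite_Iio n)]
      intro m hm
      apply hlim.eventually (gt_mem_nhds _)
      rw [abs_pos, sub_ne_zero]
      intro h
      exact (ne_of_lt hm) (hcinj (Subtype.ext h))
    obtain ⟨k, h3, h4⟩ := (h1.and h2).exists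
    exact ⟨k, h3, h4⟩
  choose k hk1 hk2 using hk
  let V : ℕ → Set X := fun n => {x : X | cell (k n) x = cell (k n) (c n)}
  have hV : ∀ n (x : X), x ∈ V n ↔ cell (k n) x = cell (k n) (c n) := fun n x => Iff.rfl
  -- the stage functions
  have hst : ∀ (g : {g : X → Y // StrictMono g}) (n : ℕ), ∃ g' : {g : X → Y // StrictMono g},
      (∀ x : X, x ∉ V n → g'.1 x = g.1 x) ∧
      (∃ u v : X, u ∈ V n ∧ v ∈ V n ∧ ∀ x ∈ V n, g.1 u < g'.1 x ∧ g'.1 x < g.1 v) ∧
      LG g'.1 (c n) ∧ RG g'.1 (c n) ∧ ∀ x ∈ V n, x ≠ c n → x ∉ C → LG g'.1 x ∧ RG g'.1 x := by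
    intro g n
    obtain ⟨g', h1, h2, h3, h4, h5, h6⟩ :=
      exists_step hX1 hXl hXr E hE1 hE2 C hC g.1 g.2 (k n) (c n)
    obtain ⟨u, v, hu, hv, h7⟩ := h3
    exact ⟨⟨g', h1⟩, h2, ⟨u, v, hu, hv, h7⟩, h4, h5, h6⟩
  choose st hst1 hst2 hst3 hst4 hst5 using hst
  let G : ℕ → {g : X → Y // StrictMono g} := fun n =>
    Nat.rec ⟨E 0 1, hE1 0 1 (by norm_num)⟩ (fun n g => st g n) n
  have hG : ∀ n, G (n + 1) = st (G n) n := fun n => rfl
  have hout : ∀ n x, x ∉ V n → (G (n + 1)).1 x = (G n).1 x := fun n x hx => hst1 (G n) n x hx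
  have hull1 : ∀ n x, x ∈ V n → ∃ u ∈ V n, (G n).1 u < (G (n + 1)).1 x := by
    intro n x hx
    obtain ⟨u, v, hu, hv, h⟩ := hst2 (G n) n
    exact ⟨u, hu, (h x hx).1⟩
  have hull2 : ∀ n x, x ∈ V n → ∃ u ∈ V n, (G (n + 1)).1 x < (G n).1 u := by
    intro n x hx
    obtain ⟨u, v, hu, hv, h⟩ := hst2 (G n) n
    exact ⟨v, hv, (h x hx).2⟩
  -- cells near a point
  have hnl : ∀ n (x x1 : X), x ∉ V n → x1 < x → ∃ z, x1 < z ∧ z < x ∧ ∀ y, z ≤ y → y ≤ x → y ∉ V n := by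
    intro n x x1 hx hx1
    obtain ⟨η, hη, hηx⟩ := cell_near (k n) (hX1 x x.2)
    obtain ⟨z, hz1, hz2⟩ := hXl x (max x1 (x - η)) (max_lt hx1 (by linarith))
    have h1 : (x1 : ℝ) < z := (le_max_left _ _).trans_lt hz1
    have h2 : (x : ℝ) - η < z := (le_max_right _ _).trans_lt hz1
    refine ⟨z, h1, hz2, fun y hy1 hy2 hyV => ?_⟩
    have h3 : (z : ℝ) ≤ y := hy1
    have h4 : (y : ℝ) ≤ x := hy2
    apply hx
    rw [hV] at hyV ⊢
    rw [← hηx y (by rw [abs_lt]; constructor <;> linarith)]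
    exact hyV
  have hnr : ∀ n (x x1 : X), x ∉ V n → x < x1 → ∃ z, x < z ∧ z < x1 ∧ ∀ y, x ≤ y → y ≤ z → y ∉ V n := by
    intro n x x1 hx hx1
    obtain ⟨η, hη, hηx⟩ := cell_near (k n) (hX1 x x.2)
    obtain ⟨z, hz1, hz2⟩ := hXr x (min x1 (x + η)) (lt_min hx1 (by linarith))
    have h1 : (z : ℝ) < x1 := hz2.trans_le (min_le_left _ _)
    have h2 : (z : ℝ) < x + η := hz2.trans_le (min_le_right _ _)
    refine ⟨z, hz1, h1, fun y hy1 hy2 hyV => ?_⟩
    have h3 : (y : ℝ) ≤ z := hy2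
    have h4 : (x : ℝ) ≤ y := hy1
    apply hx
    rw [hV] at hyV ⊢
    rw [← hηx y (by rw [abs_lt]; constructor <;> linarith)]
    exact hyV
  have hstayL : ∀ n x, x ∉ V n → LG (G n).1 x → LG (G (n + 1)).1 x := by
    intro n x hx h
    obtain ⟨y, _, hy⟩ := hXl x (x - 1) (by linarith)
    obtain ⟨z, h1, h2, h3⟩ := hnl n x y hx hy
    exact h.congr (G n).2 h2 fun w hw1 hw2 => (hout n w (h3 w hw1.le hw2)).symm
  have hstayR : ∀ n x, x ∉ V n → RG (G n).1 x → RG (G (n + 1)).1 x := by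
    intro n x hx h
    obtain ⟨y, hy, _⟩ := hXr x (x + 1) (by linarith)
    obtain ⟨z, h1, h2, h3⟩ := hnr n x y hx hy
    exact h.congr (G n).2 h1 fun w hw1 hw2 => (hout n w (h3 w hw1 hw2.le)).symm
  have hgoodC : ∀ x, x ∉ C → ∀ n, LG (G n).1 x ∧ RG (G n).1 x := by
    intro x hx n
    induction n with
    | zero => exact hC 0 1 (by norm_num) x hx
    | succ n ih =>
      by_cases h : x ∈ V n
      · exact hst5 (G n) n x h (fun he => hx (he ▸ hcmem n)) hx
      · exact ⟨hstayL n x h ih.1, hstayR n x h ih.2⟩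
  have hcV : ∀ m n, m < n → c m ∉ V n := by
    intro m n hmn h
    have h1 := cell_dist ((hV n (c m)).1 h)
    exact absurd (hk2 n m hmn) (not_lt.2 h1.le)
  have hgoodc : ∀ m j, LG (G (m + 1 + j)).1 (c m) ∧ RG (G (m + 1 + j)).1 (c m) := by
    intro m j
    induction j with
    | zero => exact ⟨hst3 (G m) m, hst4 (G m) m⟩
    | succ j ih =>
      have h1 := hcV m (m + 1 + j) (by omega)
      exact ⟨hstayL (m + 1 + j) _ h1 ih.1, hstayR (m + 1 + j) _ h1 ih.2⟩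
  have hfin : ∀ x, {n | x ∈ V n}.Finite := by
    intro x
    refine Set.Finite.of_finite_image (f := fun n => (c n : ℝ)) ((hδ2 x x.2).subset ?_) ?_
    · rintro _ ⟨n, hn, rfl⟩
      exact ⟨⟨c n, hcmem n, rfl⟩, (cell_dist ((hV n x).1 hn)).trans (hk1 n)⟩
    · intro n _ m _ h
      exact hcinj (Subtype.ext h)
  have hconv : ∀ n (x y z : X), x ∈ V n → z ∈ V n → x ≤ y → y ≤ z → y ∈ V n := fun n x y z hx hz h1 h2 =>
    cell_conv (show (x : ℝ) ≤ y from h1) (show (y : ℝ) ≤ z from h2) hx hz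
  have hlam' : ∀ m n, m < n → ∀ y, y ∈ V m → y ∈ V n → V n ⊆ V m := by
    intro m n hmn y hym hyn z hz
    rw [hV] at hym hyn hz ⊢
    rcases le_or_gt (k m) (k n) with h | h
    · have h1 := cell_anti h (hz.trans hyn.symm)
      rw [h1, hym]
    · exfalso
      apply hcV m n hmn
      rw [hV]
      have h1 := cell_anti h.le hym
      rw [← h1, hyn]
  have hN0 : ∀ x, ∃ N, ∀ n, N ≤ n → x ∉ V n := by
    intro x
    obtain ⟨N, hN⟩ := (hfin x).bddAbove
    exact ⟨N + 1, fun n hn h => by have := hN h; omega⟩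
  choose N0 hN0 using hN0
  have hstab : ∀ x n, N0 x ≤ n → (G n).1 x = (G (N0 x)).1 x := by
    intro x n hn
    obtain ⟨j, rfl⟩ := Nat.exists_eq_add_of_le hn
    induction j with
    | zero => rfl
    | succ j ih => rw [← add_assoc, hout _ _ (hN0 x _ (by omega)), ih (by omega)]
  let g : X → Y := fun x => (G (N0 x)).1 x
  have hg : ∀ x, ∃ N, ∀ n, N ≤ n → (G n).1 x = g x := fun x => ⟨N0 x, fun n hn => hstab x n hn⟩
  have hgm : StrictMono g := by
    intro x y hxy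
    have h1 := (G (max (N0 x) (N0 y))).2 hxy
    rw [hstab x _ (le_max_left _ _), hstab y _ (le_max_right _ _)] at h1
    exact h1
  have hgood : ∀ x, ∃ N, (∀ n, N ≤ n → x ∉ V n) ∧ (G N).1 x = g x ∧ LG (G N).1 x ∧ RG (G N).1 x := by
    intro x
    by_cases hx : x ∈ C
    · rw [← hcC] at hx
      obtain ⟨m, rfl⟩ := hx
      refine ⟨m + 1 + N0 (c m), fun n hn => hN0 _ n (by omega), hstab _ _ (by omega), hgoodc m _⟩
    · exact ⟨N0 x, hN0 x, rfl, hgoodC x hx _⟩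
  have hLG : ∀ x, LG g x := by
    intro x
    obtain ⟨N, h1, h2, h3, _⟩ := hgood x
    exact limit_left V hconv hlam' hfin (fun n => (G n).1) (fun n => (G n).2) hout hull1
      (fun n x x1 hx _ hx1 => by
        obtain ⟨z, h1, h2, h3⟩ := hnl n x x1 hx hx1
        exact ⟨z, h1, h2, h3 z le_rfl h2.le⟩) hXdense g hg x N h1 h2 h3
  have hRG : ∀ x, RG g x := by
    intro x
    obtain ⟨N, h1, h2, _, h3⟩ := hgood x
    exact limit_right V hconv hlam' hfin (fun n => (G n).1) (fun n => (G n).2) hout hull2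
      (fun n x x1 hx _ hx1 => by
        obtain ⟨z, h1, h2, h3⟩ := hnr n x x1 hx hx1
        exact ⟨z, h1, h2, h3 z h1.le le_rfl⟩) hXdense g hg x N h1 h2 h3
  refine ⟨g, hgm, ocont_of hgm (fun x r hr => ?_) (fun x r hr => ?_)⟩
  · obtain ⟨y, hy, hry⟩ := hLG x r hr
    exact ⟨y, hy, fun z hz => hry.trans (hgm hz)⟩
  · obtain ⟨y, hy, hry⟩ := hRG x r hr
    exact ⟨y, hy, fun z hz => (hgm hz).trans hry⟩

end Pool.Agent.E8helper92.LOTS
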