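import Pool.Agent.E8helper92.LOTSReal
import Pool.Agent.E8helper92.LOTSCountryman

set_option autoImplicit false

/-!
# An uncountable `λ`-set of reals, and a good representative of a minimal real type
-/

namespace Pool.Agent.E8helper92.LOTS

open Set Cardinal

/-- `X` is a `λ`-set, in the following form: for every countable `C ⊆ X` there are neighbourhoods of the points
of `C` such that every point of `X` is in finitely many of them only. -/
def Lam (X : Set ℝ) : Prop :=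
  ∀ C ⊆ X, C.Countable → ∃ δ : ℝ → ℝ, (∀ c ∈ C, 0 < δ c) ∧ ∀ x ∈ X, {c | c ∈ C ∧ |x - c| < δ c}.Finite

theorem Lam.mono {X Y : Set ℝ} (h : Lam X) (hYX : Y ⊆ X) : Lam Y := by
  intro C hC hCc
  obtain ⟨δ, h1, h2⟩ := h C (hC.trans hYX) hCc
  exact ⟨δ, h1, fun x hx => h2 x (hYX hx)⟩

theorem exists_dominating (S : Set (ℕ → ℕ)) (hS : S.Countable) :
    ∃ g : ℕ → ℕ, ∀ f ∈ S, ∃ N, ∀ n, N ≤ n → f n < g n := by
  obtain ⟨j, hj⟩ := (Set.countable_iff_exists_injOn).1 hS
  have hfin : ∀ n, {f | f ∈ S ∧ j f ≤ n}.Finite := by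
    intro n
    apply Set.Finite.of_finite_image (f := j)
    · exact (finite_Iic n).subset (by rintro _ ⟨f, ⟨_, h⟩, rfl⟩; exact h)
    · exact hj.mono fun f h => h.1
  refine ⟨fun n => ((hfin n).toFinset.sup fun f => f n) + 1, fun f hf => ⟨j f, fun n hn => ?_⟩⟩
  have h1 : f n ≤ (hfin n).toFinset.sup fun f => f n :=
    Finset.le_sup (f := fun f : ℕ → ℕ => f n) ((hfin n).mem_toFinset.2 ⟨hf, hn⟩)
  exact Nat.lt_succ_of_le h1

theorem exists_scale : ∃ g : W1 → ℕ → ℕ, ∀ β α, β < α → ∃ N, ∀ n, N ≤ n → g β n < g α n := by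
  choose! dom hdom using exists_dominating
  let F : (α : W1) → ((β : W1) → β < α → ℕ → ℕ) → ℕ → ℕ := fun α ih =>
    dom (range fun β : Iio α => ih β β.2)
  let g : W1 → ℕ → ℕ := (wellFounded_lt (α := W1)).fix F
  have hg : ∀ α, g α = dom (range fun β : Iio α => g β) := fun α => WellFounded.fix_eq _ F α
  refine ⟨g, fun β α h => ?_⟩
  have hc : (range fun β : Iio α => g β).Countable := by
    have := (W1_Iio α).to_subtype
    exact countable_range _
  have h1 := hdom _ hc (g β) ⟨⟨β, h⟩, rfl⟩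
  rw [hg α]
  exact h1

theorem exists_lam : ∃ Λ : Set ℝ, ¬ Λ.Countable ∧ Lam Λ := by
  obtain ⟨g, hg⟩ := exists_scale
  obtain ⟨φ, _, hφc, hφi⟩ := IsClosed.exists_nat_bool_injection_of_not_countable (C := (univ : Set ℝ))
    isClosed_univ (by
      intro h
      exact not_countable_univ_iff.2 (inferInstance : Uncountable ℝ) h)
  let A : W1 → ℕ → Bool := fun α k => decide ((Nat.unpair k).2 < g α (Nat.unpair k).1)
  have hA : ∀ α n j, A α (Nat.pair n j) = decide (j < g α n) := by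
    intro α n j
    simp [A]
  let x : W1 → ℝ := fun α => φ (A α)
  let F : W1 → ℕ → Set ℝ := fun δ m => φ '' {a | ∀ n, m ≤ n → ∀ j, j < g δ n → a (Nat.pair n j) = true}
  have hFc : ∀ δ m, IsClosed (F δ m) := by
    intro δ m
    refine (IsClosed.isCompact ?_ |>.image hφc).isClosed
    have h1 : {a : ℕ → Bool | ∀ n, m ≤ n → ∀ j, j < g δ n → a (Nat.pair n j) = true} =
        ⋂ (n : ℕ) (_ : m ≤ n) (j : ℕ) (_ : j < g δ n), {a | a (Nat.pair n j) = true} := by
      ext a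
      simp
    rw [h1]
    refine isClosed_iInter fun n => isClosed_iInter fun _ => isClosed_iInter fun j => isClosed_iInter fun _ => ?_
    exact isClosed_singleton.preimage (continuous_apply (Nat.pair n j))
  have hF1 : ∀ δ γ, δ ≤ γ → ∃ m, x γ ∈ F δ m := by
    intro δ γ h
    rcases h.eq_or_lt with h | h
    · subst h
      exact ⟨0, A δ, fun n _ j hj => by rw [hA]; simpa using hj, rfl⟩
    · obtain ⟨N, hN⟩ := hg δ γ h
      exact ⟨N, A γ, fun n hn j hj => by rw [hA]; simpa using hj.trans (hN n hn), rfl⟩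
  have hF2 : ∀ β δ, β < δ → ∀ m, x β ∉ F δ m := by
    rintro β δ h m ⟨a, ha, hax⟩
    have h1 : a = A β := hφi hax
    obtain ⟨N, hN⟩ := hg β δ h
    have h2 := ha (max m N) (le_max_left _ _) (g β (max m N)) (hN _ (le_max_right _ _))
    rw [h1, hA] at h2
    simp at h2
  have hxinj : Function.Injective x := by
    intro α β h
    rcases lt_trichotomy α β with h1 | h1 | h1
    · obtain ⟨m, hm⟩ := hF1 β β le_rfl
      rw [← h] at hm
      exact absurd hm (hF2 α β h1 m)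
    · exact h1
    · obtain ⟨m, hm⟩ := hF1 α α le_rfl
      rw [h] at hm
      exact absurd hm (hF2 β α h1 m)
  refine ⟨range x, fun hc => ?_, ?_⟩
  · have h1 : (univ : Set W1).Countable := by
      have h2 := hc.preimage_of_injOn (f := x) hxinj.injOn
      rwa [preimage_range] at h2
    exact not_countable_univ_iff.2 W1_uncountable h1
  · intro C hC hCc
    obtain ⟨δ, hδ⟩ := W1_bounded (hCc.preimage_of_injOn (f := x) hxinj.injOn)
    have hCS : C ⊆ x '' Iio δ := by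
      intro c hc
      obtain ⟨α, rfl⟩ := hC hc
      exact ⟨α, hδ α hc, rfl⟩
    obtain ⟨j, hj⟩ := (Set.countable_iff_exists_injOn).1 ((W1_Iio δ).image x)
    have hfin : ∀ n, {c | c ∈ x '' Iio δ ∧ j c ≤ n}.Finite := by
      intro n
      apply Set.Finite.of_finite_image (f := j)
      · exact (finite_Iic n).subset (by rintro _ ⟨f, ⟨_, h⟩, rfl⟩; exact h)
      · exact hj.mono fun f h => h.1
    have hr : ∀ c : ℝ, ∃ r : ℝ, c ∈ x '' Iio δ → 0 < r ∧
        (∀ y, |y - c| < r → (∀ m, m ≤ j c → y ∉ F δ m) ∧ (y ∈ x '' Iio δ → j y ≤ j c → y = c)) := by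
      intro c
      by_cases hc : c ∈ x '' Iio δ
      · let G : Set ℝ := (⋃ m ∈ Iic (j c), F δ m) ∪ ({y | y ∈ x '' Iio δ ∧ j y ≤ j c} \ {c})
        have hGc : IsClosed G :=
          ((finite_Iic (j c)).isClosed_biUnion fun m _ => hFc δ m).union
            (((hfin (j c)).subset diff_subset).isClosed)
        have hcG : c ∉ G := by
          rintro (h | h)
          · simp only [mem_iUnion] at h
            obtain ⟨m, _, h⟩ := h
            obtain ⟨β, hβ, rfl⟩ := hc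
            exact hF2 β δ hβ m h
          · exact h.2 rfl
        obtain ⟨r, hr, hr2⟩ := Metric.isOpen_iff.1 hGc.isOpen_compl c hcG
        refine ⟨r, fun _ => ⟨hr, fun y hy => ?_⟩⟩
        have h1 : y ∉ G := hr2 (by rw [Metric.mem_ball, Real.dist_eq]; exact hy)
        refine ⟨fun m hm h => h1 (Or.inl ?_), fun h2 h3 => ?_⟩
        · simp only [mem_iUnion]
          exact ⟨m, hm, h⟩
        · by_contra hne
          exact h1 (Or.inr ⟨⟨h2, h3⟩, hne⟩)
      · exact ⟨0, fun h => absurd h hc⟩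
    choose r hr using hr
    refine ⟨r, fun c hc => (hr c (hCS hc)).1, ?_⟩
    rintro _ ⟨α, rfl⟩
    rcases lt_or_ge α δ with h | h
    · refine (hfin (j (x α))).subset ?_
      rintro c ⟨hc, h1⟩
      refine ⟨hCS hc, ?_⟩
      by_contra h2
      have h3 := ((hr c (hCS hc)).2 (x α) h1).2 ⟨α, h, rfl⟩ (not_le.1 h2).le
      rw [h3] at h2
      exact h2 le_rfl
    · obtain ⟨m, hm⟩ := hF1 δ α h
      refine (hfin m).subset ?_
      rintro c ⟨hc, h1⟩
      refine ⟨hCS hc, ?_⟩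
      by_contra h2
      exact ((hr c (hCS hc)).2 (x α) h1).1 m (not_le.1 h2).le hm

theorem countable_of_right {B : Set ℝ} (h : ∀ y ∈ B, (B ∩ Ioi y).Countable) : B.Countable := by
  obtain ⟨T, hTB, hTc, hT⟩ := TopologicalSpace.isOpen_biUnion_countable B (fun y => Ioi y) (fun y _ => isOpen_Ioi)
  have h1 : (B \ ⋃ y ∈ B, Ioi y).Subsingleton := by
    have key : ∀ x ∈ B \ ⋃ y ∈ B, Ioi y, ∀ y ∈ B, x ≤ y := by
      rintro x ⟨_, hx⟩ y hy
      by_contra hlt
      apply hx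
      simp only [mem_iUnion]
      exact ⟨y, hy, not_le.1 hlt⟩
    intro x hx y hy
    exact le_antisymm (key x hx y hy.1) (key y hy x hx.1)
  have h2 : B ⊆ (B \ ⋃ y ∈ B, Ioi y) ∪ ⋃ y ∈ T, (B ∩ Ioi y) := by
    intro x hx
    by_cases hx2 : x ∈ ⋃ y ∈ B, Ioi y
    · right
      rw [← hT] at hx2
      simp only [mem_iUnion] at hx2 ⊢
      obtain ⟨y, hy, hxy⟩ := hx2
      exact ⟨y, hy, hx, hxy⟩
    · exact Or.inl ⟨hx, hx2⟩
  exact (h1.countable.union (hTc.biUnion fun y hy => h y (hTB hy))).mono h2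

theorem countable_right_bad (X : Set ℝ) : {x | x ∈ X ∧ ∃ ε > 0, (X ∩ Ioo x (x + ε)).Countable}.Countable := by
  have h1 : {x | x ∈ X ∧ ∃ ε > 0, (X ∩ Ioo x (x + ε)).Countable} ⊆
      ⋃ q : ℚ, {x | x ∈ X ∧ x < q ∧ (X ∩ Ioo x q).Countable} := by
    rintro x ⟨hx, ε, hε, h⟩
    obtain ⟨q, hq1, hq2⟩ := exists_rat_btwn (show x < x + ε by linarith)
    simp only [mem_iUnion]
    exact ⟨q, hx, hq1, h.mono (inter_subset_inter_right _ (Ioo_subset_Ioo_right hq2.le))⟩
  refine (countable_iUnion fun q => ?_).mono h1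
  apply countable_of_right
  rintro y ⟨hy, hyq, h⟩
  refine h.mono ?_
  rintro z ⟨⟨hz, hzq, _⟩, hyz⟩
  exact ⟨hz, hyz, hzq⟩

theorem countable_left_bad (X : Set ℝ) : {x | x ∈ X ∧ ∃ ε > 0, (X ∩ Ioo (x - ε) x).Countable}.Countable := by
  have h1 := (countable_right_bad ((fun x => -x) '' X)).image (fun x => -x)
  refine h1.mono ?_
  rintro x ⟨hx, ε, hε, h⟩
  refine ⟨-x, ⟨⟨x, hx, rfl⟩, ε, hε, ?_⟩, by simp⟩
  refine (h.image (fun x => -x)).mono ?_
  rintro _ ⟨⟨y, hy, rfl⟩, hy1, hy2⟩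
  simp only at hy1 hy2
  exact ⟨y, ⟨hy, by linarith, by linarith⟩, rfl⟩

/-- a good representative of a real type which embeds into all uncountable sets of reals -/
theorem exists_good_real {T : Type} [LinearOrder T] (hTu : Uncountable T)
    (hT : ∀ Y : Set ℝ, ¬ Y.Countable → ∃ f : T → ℝ, StrictMono f ∧ ∀ t, f t ∈ Y) :
    ∃ X : Set ℝ, X.Nonempty ∧ (∀ x ∈ X, Irrational x) ∧ Lam X ∧ #X = ℵ₁ ∧
      (∀ x ∈ X, ∀ ε > 0, ¬ (X ∩ Ioo (x - ε) x).Countable ∧ ¬ (X ∩ Ioo x (x + ε)).Countable) ∧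
      ∀ Y : Set ℝ, ¬ Y.Countable → ∃ f : ℝ → ℝ, StrictMonoOn f X ∧ ∀ x ∈ X, f x ∈ Y := by
  obtain ⟨Λ, hΛ, hlam⟩ := exists_lam
  obtain ⟨f, hf, hfΛ⟩ := hT Λ hΛ
  obtain ⟨X, hX⟩ : ∃ X : Set ℝ, X = range f \ (range ((↑) : ℚ → ℝ) ∪
    {x | x ∈ range f ∧ ∃ ε > 0, (range f ∩ Ioo x (x + ε)).Countable} ∪
    {x | x ∈ range f ∧ ∃ ε > 0, (range f ∩ Ioo (x - ε) x).Countable}) := ⟨_, rfl⟩
  have hXf : X ⊆ range f := by rw [hX]; exact diff_subset
  have hdiff : (range f \ X).Countable := by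
    refine (((countable_range ((↑) : ℚ → ℝ)).union (countable_right_bad (range f))).union
      (countable_left_bad (range f))).mono ?_
    intro x hx
    by_contra hcon
    exact hx.2 (hX ▸ ⟨hx.1, hcon⟩)
  have hfc : ¬ (range f).Countable := by
    intro hc
    have h2 := hc.preimage_of_injOn (f := f) hf.injective.injOn
    rw [preimage_range] at h2
    exact not_countable_univ_iff.2 hTu h2
  have hbig : ∀ S : Set ℝ, ¬ (range f ∩ S).Countable → ¬ (X ∩ S).Countable := by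
    intro S hS hc
    apply hS
    refine (hc.union hdiff).mono ?_
    intro x hx
    by_cases h : x ∈ X
    · exact Or.inl ⟨h, hx.2⟩
    · exact Or.inr ⟨hx.1, h⟩
  have hXc : ¬ X.Countable := by
    have := hbig univ (by rwa [inter_univ])
    rwa [inter_univ] at this
  have hemb : ∀ Y : Set ℝ, ¬ Y.Countable → ∃ f : ℝ → ℝ, StrictMonoOn f X ∧ ∀ x ∈ X, f x ∈ Y := by
    intro Y hY
    obtain ⟨g, hg, hgY⟩ := hT Y hY
    have hinv : ∀ x : ℝ, ∃ t : ℝ, x ∈ X → ∃ s, f s = x ∧ g s = t := by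
      intro x
      by_cases hx : x ∈ X
      · obtain ⟨s, hs⟩ := hXf hx
        exact ⟨g s, fun _ => ⟨s, hs, rfl⟩⟩
      · exact ⟨0, fun h => absurd h hx⟩
    choose h hh using hinv
    refine ⟨h, ?_, ?_⟩
    · intro x hx y hy hxy
      obtain ⟨s, hs1, hs2⟩ := hh x hx
      obtain ⟨t, ht1, ht2⟩ := hh y hy
      rw [← hs2, ← ht2]
      apply hg
      rw [← hf.lt_iff_lt, hs1, ht1]
      exact hxy
    · intro x hx
      obtain ⟨s, hs1, hs2⟩ := hh x hx
      rw [← hs2]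
      exact hgY s
  refine ⟨X, ?_, ?_, hlam.mono ?_, le_antisymm ?_ (mk_of_not_countable hXc), ?_, hemb⟩
  · rw [nonempty_iff_ne_empty]
    rintro rfl
    exact hXc countable_empty
  · intro x hx
    rw [hX] at hx
    exact fun h => hx.2 (Or.inl (Or.inl h))
  · exact hXf.trans (by rintro _ ⟨t, rfl⟩; exact hfΛ t)
  · obtain ⟨Y, hY⟩ := exists_aleph1DenseReal
    have hYc : ¬ (Y ∩ Ioo (0 : ℝ) 1).Countable := not_countable_of_mk (hY 0 1 one_pos).ge
    obtain ⟨g, hg, hgY⟩ := hemb _ hYc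
    rw [← hY 0 1 one_pos]
    exact mk_le_of_injective (f := fun x : X => (⟨g x, hgY x x.2⟩ : ↥(Y ∩ Ioo (0 : ℝ) 1)))
      (fun x y h => Subtype.ext (hg.injOn x.2 y.2 (congrArg Subtype.val h)))
  · intro x hx ε hε
    rw [hX] at hx
    constructor
    · apply hbig
      intro h
      exact hx.2 (Or.inr ⟨hx.1, ε, hε, h⟩)
    · apply hbig
      intro h
      exact hx.2 (Or.inl (Or.inr ⟨hx.1, ε, hε, h⟩))

end Pool.Agent.E8helper92.LOTS
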