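import Pool.Agent.E8helper92.LOTSReal

set_option autoImplicit false

/-!
# Orthogonality of the powers and of the sets of reals: lower bounds for the size of a basis
-/

namespace Pool.Agent.E8helper92.LOTS

open Set Cardinal

section agree

variable {τ : Type} [LinearOrder τ] {b : τ}

/-- An uncountable set of elements of the power which pairwise differ below `N` contains an uncountable
subset embedding into `τ`. -/
theorem exists_sub_embed (N : ℕ) (V : Set (Power τ b)) (hV : ¬ V.Countable)
    (hN : ∀ x ∈ V, ∀ y ∈ V, x ≠ y → ∃ m, m < N ∧ x.co m ≠ y.co m) :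
    ∃ W : Set (Power τ b), W ⊆ V ∧ ¬ W.Countable ∧ ∃ f : W → τ, StrictMono f := by
  induction N generalizing V with
  | zero =>
    exfalso
    apply hV
    apply Set.Subsingleton.countable
    intro x hx y hy
    by_contra hne
    obtain ⟨m, hm, _⟩ := hN x hx y hy hne
    omega
  | succ N ih =>
    by_cases h : ∃ W : Set (Power τ b), W ⊆ V ∧ ¬ W.Countable ∧
        ∀ x ∈ W, ∀ y ∈ W, x ≠ y → ∃ m, m < N ∧ x.co m ≠ y.co m
    · obtain ⟨W, hWV, hWc, hWN⟩ := h
      obtain ⟨W', h1, h2, h3⟩ := ih W hWc hWN
      exact ⟨W', h1.trans hWV, h2, h3⟩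
    · -- the prefix map has an uncountable fibre
      push Not at h
      let π : Power τ b → (Fin N → τ) := fun x m => x.co m
      -- a transversal
      have hsec : ∀ p : π '' V, ∃ x ∈ V, π x = p := by
        rintro ⟨_, x, hx, rfl⟩
        exact ⟨x, hx, rfl⟩
      choose s hs1 hs2 using hsec
      have hsc : (range s).Countable := by
        by_contra hc
        obtain ⟨x, hx, y, hy, hxy, hm⟩ := h (range s) (by rintro _ ⟨p, rfl⟩; exact hs1 p) hc
        obtain ⟨p, rfl⟩ := hx
        obtain ⟨q, rfl⟩ := hy
        apply hxy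
        have : p = q := by
          apply Subtype.ext
          rw [← hs2 p, ← hs2 q]
          funext m
          exact hm m m.2
        rw [this]
      have hπc : (π '' V).Countable := by
        have h1 : π '' V ⊆ π '' range s := by
          rintro p hp
          exact ⟨s ⟨p, hp⟩, ⟨_, rfl⟩, hs2 ⟨p, hp⟩⟩
        exact (hsc.image π).mono h1
      -- some fibre is uncountable
      obtain ⟨p, hp, hfib⟩ : ∃ p ∈ π '' V, ¬ (V ∩ π ⁻¹' {p}).Countable := by
        by_contra hcon
        push Not at hcon
        apply hV
        have h1 : V ⊆ ⋃ p ∈ π '' V, V ∩ π ⁻¹' {p} := by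
          intro x hx
          simp only [mem_iUnion]
          exact ⟨π x, mem_image_of_mem _ hx, hx, rfl⟩
        exact (hπc.biUnion hcon).mono h1
      refine ⟨V ∩ π ⁻¹' {p}, inter_subset_left, hfib, fun x => x.1.co N, ?_⟩
      rintro ⟨x, hxV, hxp⟩ ⟨y, hyV, hyp⟩ hxy
      have hxy' : x < y := hxy
      obtain ⟨n, hn1, hn2⟩ := Power.lt_iff.1 hxy'
      have hag : ∀ m, m < N → x.co m = y.co m := by
        intro m hm
        have h1 : π x = π y := by rw [hxp, hyp]
        exact congrFun h1 ⟨m, hm⟩
      obtain ⟨m, hm1, hm2⟩ := hN x hxV y hyV hxy'.ne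
      have hmN : m = N := by
        by_contra hne
        exact hm2 (hag m (by omega))
      subst hmN
      rcases lt_trichotomy n m with h1 | h1 | h1
      · exact absurd (hag n h1) hn2.ne
      · subst h1; exact hn2
      · exact absurd (hn1 m h1) hm2

/-- an uncountable suborder of the power of `τ` contains an uncountable order which embeds into `τ` -/
theorem exists_sub_of_embed {U : Type} [LinearOrder U] (hU : Uncountable U) (f : U → Power τ b)
    (hf : StrictMono f) : ∃ V : Set U, ¬ V.Countable ∧ ∃ g : V → τ, StrictMono g := by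
  choose N hN using fun x : U => (f x).exists_bound
  obtain ⟨n, hn⟩ : ∃ n, ¬ {x : U | N x = n}.Countable := by
    by_contra hcon
    push Not at hcon
    have h1 : (univ : Set U) ⊆ ⋃ n : ℕ, {x : U | N x = n} := by
      intro x _
      simp
    exact not_countable_univ_iff.2 hU ((countable_iUnion hcon).mono h1)
  obtain ⟨W, hW1, hW2, g, hg⟩ := exists_sub_embed (b := b) n (f '' {x : U | N x = n})
    (fun hc => hn (Set.countable_of_injective_of_countable_image hf.injective.injOn hc)) (by
      rintro _ ⟨x, hx, rfl⟩ _ ⟨y, hy, rfl⟩ hxy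
      by_contra hcon
      push Not at hcon
      apply hxy
      apply Power.ext
      intro m
      rcases lt_or_ge m n with hm | hm
      · exact hcon m hm
      · rw [hN x m (by have h : N x = n := hx; omega), hN y m (by have h : N y = n := hy; omega)])
  refine ⟨f ⁻¹' W, fun hc => hW2 ?_, fun x => g ⟨f x, x.2⟩, fun x y hxy => hg (hf hxy)⟩
  refine (hc.image f).mono fun w hw => ?_
  obtain ⟨x, hx, rfl⟩ := hW1 hw
  exact ⟨x, hw, rfl⟩

end agree

/-- No uncountable order LOTS-embeds into a power and order embeds into the reals. -/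
theorem not_real_and_power {U : Type} [LinearOrder U] (hU : Uncountable U) (f : U → ℝ) (hf : StrictMono f)
    {τ : Type} [LinearOrder τ] {b e : τ} (he : b < e) (g : U → Power τ b) (hg : StrictMono g)
    (hgc : OCont g) : False := by
  choose N hN using fun x : U => (g x).exists_bound
  obtain ⟨n, hn⟩ : ∃ n, ¬ {x : U | N x = n}.Countable := by
    by_contra hcon
    push Not at hcon
    have h1 : (univ : Set U) ⊆ ⋃ n : ℕ, {x : U | N x = n} := by
      intro x _
      simp
    exact not_countable_univ_iff.2 hU ((countable_iUnion hcon).mono h1)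
  obtain ⟨V, hV⟩ : ∃ V : Set U, V = {x : U | N x = n ∧ ∃ y, x < y} := ⟨_, rfl⟩
  have hVc : ¬ V.Countable := by
    intro hc
    apply hn
    have h1 : {x : U | N x = n} ⊆ V ∪ {x : U | IsMax x} := by
      intro x hx
      by_cases h : ∃ y, x < y
      · left
        rw [hV]
        exact ⟨hx, h⟩
      · right
        push Not at h
        intro y _
        exact h y
    have h2 : {x : U | IsMax x}.Subsingleton := fun x hx y hy =>
      le_antisymm (hy.isTop x) (hx.isTop y)
    exact (hc.union h2.countable).mono h1
  have hVN : ∀ x : V, N x = n := by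
    rintro ⟨x, hx⟩
    rw [hV] at hx
    exact hx.1
  have hr : ∀ x : V, ∃ r, (x : U) < r ∧ ∀ z, z < r → g z < (g x).upd n e := by
    rintro ⟨x, hx⟩
    rw [hV] at hx
    obtain ⟨hx1, y, hy⟩ := hx
    let _ : TopologicalSpace U := Preorder.topology U
    have _ : OrderTopology U := ⟨rfl⟩
    let _ : TopologicalSpace (Power τ b) := Preorder.topology (Power τ b)
    have _ : OrderTopology (Power τ b) := ⟨rfl⟩
    have hgc' : Continuous g := hgc
    have h1 : IsOpen (g ⁻¹' (Iio ((g x).upd n e))) := isOpen_Iio.preimage hgc'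
    have hxb : (g x).co n = b := hN x n (by rw [hx1])
    have h2 : x ∈ g ⁻¹' (Iio ((g x).upd n e)) := (g x).lt_upd n e (by rw [hxb]; exact he)
    obtain ⟨r, hr1, hr2⟩ := exists_Ico_subset_of_mem_nhds (h1.mem_nhds h2) ⟨y, hy⟩
    refine ⟨r, hr1, fun z hz => ?_⟩
    rcases lt_or_ge z x with h3 | h3
    · exact (hg h3).trans h2
    · exact hr2 ⟨h3, hz⟩
  choose r hr1 hr2 using hr
  have hr3 : ∀ x y : V, (x : U) < y → r x ≤ y := by
    intro x y hxy
    by_contra hlt
    push Not at hlt
    have h1 := Power.agree_of_between' (hr2 x y hlt) (hg hxy)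
    have h2 : g y = g x := by
      apply Power.ext
      intro m
      rcases lt_or_ge m n with hm | hm
      · exact h1 m hm
      · rw [hN x m (by rw [hVN x]; exact hm), hN y m (by rw [hVN y]; exact hm)]
    exact (hg hxy).ne h2.symm
  have hq : ∀ x : V, ∃ q : ℚ, f x < q ∧ (q : ℝ) < f (r x) := fun x => exists_rat_btwn (hf (hr1 x))
  choose q hq1 hq2 using hq
  have hinj : Function.Injective q := by
    intro x y hxy
    by_contra hne
    have key : ∀ x y : V, (x : U) < y → q x ≠ q y := by
      intro x y hlt he
      have h1 := hf.monotone (hr3 x y hlt)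
      have h2 := hq2 x
      have h3 := hq1 y
      rw [he] at h2
      linarith
    rcases lt_trichotomy (x : U) y with h | h | h
    · exact key x y h hxy
    · exact hne (Subtype.ext h)
    · exact key y x h hxy.symm
  exact hVc (Set.countable_coe_iff.1 hinj.countable)

end Pool.Agent.E8helper92.LOTS
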