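import Pool.Agent.E8helper92.LOTSTypes

set_option autoImplicit false

/-!
# Sets of reals and members of the class with a ccc interval
-/

namespace Pool.Agent.E8helper92.LOTS

open Set Cardinal

/-- a set of reals which meets every interval in exactly `ℵ₁` points -/
def Aleph1DenseReal (X : Set ℝ) : Prop := ∀ r s : ℝ, r < s → #(↑(X ∩ Ioo r s) : Type) = ℵ₁

/-- Baumgartner's axiom: any two `ℵ₁`-dense sets of reals are isomorphic. -/
def BaumgartnerAxiom : Prop :=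
  ∀ X Y : Set ℝ, Aleph1DenseReal X → Aleph1DenseReal Y → Nonempty (X ≃o Y)

/-- Suslin's hypothesis: every densely ordered linear order with the countable chain condition is separable. -/
def SuslinHypothesis : Prop :=
  ∀ (L : Type) [LinearOrder L] [DenselyOrdered L], CCC L →
    @TopologicalSpace.SeparableSpace L (Preorder.topology L)

theorem not_countable_of_mk {α : Type} {s : Set α} (h : ℵ₁ ≤ #s) : ¬ s.Countable := by
  intro hc
  have h1 : #s ≤ ℵ₀ := mk_le_aleph0_iff.2 hc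
  exact absurd (h.trans h1) (not_le.2 aleph0_lt_aleph_one)

theorem mk_of_not_countable {α : Type} {s : Set α} (h : ¬ s.Countable) : ℵ₁ ≤ #s := by
  rw [← succ_aleph0, Order.succ_le_iff, ← not_le]
  exact fun h1 => h (mk_le_aleph0_iff.1 h1)

theorem exists_aleph1DenseReal : ∃ X : Set ℝ, Aleph1DenseReal X := by
  have h1 : (ℵ₁ : Cardinal.{0}) ≤ #ℝ := by
    rw [mk_real]
    exact aleph_one_le_continuum
  obtain ⟨A, hA⟩ := le_mk_iff_exists_set.1 h1
  refine ⟨range (fun q : A × ℚ => (q.1 : ℝ) + q.2), fun r s hrs => le_antisymm ?_ ?_⟩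
  · refine (mk_le_mk_of_subset inter_subset_left).trans (mk_range_le.trans ?_)
    rw [mk_prod, lift_id, lift_id, hA, Cardinal.mkRat]
    exact (mul_aleph0_eq (aleph0_le_aleph 1)).le
  · apply mk_of_not_countable
    intro hc
    have hq : ∀ a : ℝ, ∃ q : ℚ, r < a + q ∧ a + q < s := by
      intro a
      obtain ⟨q, hq1, hq2⟩ := exists_rat_btwn (show r - a < s - a by linarith)
      exact ⟨q, by linarith, by linarith⟩
    have hAc : A.Countable := by
      refine Countable.mono ?_ (hc.image2 (countable_range (fun q : ℚ => (q : ℝ))) (fun x y => x - y))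
      intro a ha
      obtain ⟨q, h1, h2⟩ := hq a
      exact ⟨a + q, ⟨⟨(⟨a, ha⟩, q), rfl⟩, h1, h2⟩, q, ⟨q, rfl⟩, by simp⟩
    exact not_countable_of_mk hA.ge hAc

theorem Aleph1DenseReal.inC {X : Set ℝ} (hX : Aleph1DenseReal X) : InC X := by
  have hne : ∀ r s : ℝ, r < s → (X ∩ Ioo r s).Nonempty := by
    intro r s hrs
    by_contra h
    rw [not_nonempty_iff_eq_empty] at h
    have h1 := hX r s hrs
    rw [h] at h1
    have h2 : (0 : Cardinal.{0}) = ℵ₁ := by rw [← h1]; simp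
    exact (aleph_pos 1).ne h2
  refine ⟨⟨?_, ?_⟩, ?_⟩
  · obtain ⟨x, hx, hx1, hx2⟩ := hne 0 1 one_pos
    obtain ⟨y, hy, hy1, hy2⟩ := hne 1 2 one_lt_two
    exact ⟨⟨x, hx⟩, ⟨y, hy⟩, fun h => by
      have := congrArg Subtype.val h
      simp only at this
      linarith⟩
  · intro a b hab
    rw [← hX a b hab]
    have e : (↑(Ioo a b) : Type) ≃ (↑(X ∩ Ioo (a : ℝ) b) : Type) :=
      { toFun := fun x => ⟨x.1.1, x.1.2, x.2.1, x.2.2⟩
        invFun := fun x => ⟨⟨x.1, x.2.1⟩, x.2.2.1, x.2.2.2⟩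
        left_inv := fun _ => rfl
        right_inv := fun _ => rfl }
    exact mk_congr e
  · rintro ⟨x, hx⟩
    constructor
    · have h : ∀ n : ℕ, ∃ s : X, (x - 1 / ((n : ℝ) + 1)) < s ∧ (s : ℝ) < x := by
        intro n
        have hp : (0 : ℝ) < 1 / ((n : ℝ) + 1) := by positivity
        obtain ⟨s, hs, h1, h2⟩ := hne (x - 1 / ((n : ℝ) + 1)) x (by linarith)
        exact ⟨⟨s, hs⟩, h1, h2⟩
      choose s hs1 hs2 using h
      refine ⟨range s, countable_range _, ?_, ?_⟩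
      · rintro _ ⟨n, rfl⟩
        exact hs2 n
      · rintro ⟨y, hy⟩ hyx
        have hyx' : y < x := hyx
        obtain ⟨n, hn⟩ := exists_nat_one_div_lt (show 0 < x - y by linarith)
        refine ⟨s n, ⟨n, rfl⟩, ?_⟩
        have := hs1 n
        apply le_of_lt
        change y < (s n : ℝ)
        linarith
    · have h : ∀ n : ℕ, ∃ s : X, x < s ∧ (s : ℝ) < x + 1 / ((n : ℝ) + 1) := by
        intro n
        have hp : (0 : ℝ) < 1 / ((n : ℝ) + 1) := by positivity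
        obtain ⟨s, hs, h1, h2⟩ := hne x (x + 1 / ((n : ℝ) + 1)) (by linarith)
        exact ⟨⟨s, hs⟩, h1, h2⟩
      choose s hs1 hs2 using h
      refine ⟨range s, countable_range _, ?_, ?_⟩
      · rintro _ ⟨n, rfl⟩
        exact hs1 n
      · rintro ⟨y, hy⟩ hyx
        have hyx' : x < y := hyx
        obtain ⟨n, hn⟩ := exists_nat_one_div_lt (show 0 < y - x by linarith)
        refine ⟨s n, ⟨n, rfl⟩, ?_⟩
        have := hs2 n
        apply le_of_lt
        change (s n : ℝ) < y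
        linarith

section ccc

variable {L : Type} [LinearOrder L] [DenselyOrdered L]

theorem ccc_of_intervalCCC {c d : L} (h : IntervalCCC c d) : CCC (Ioo c d) := by
  intro S hS hdis
  let _ : TopologicalSpace (Ioo c d) := Preorder.topology (Ioo c d)
  have _ : OrderTopology (Ioo c d) := ⟨rfl⟩
  have hI : ∀ U : S, ∃ a b : Ioo c d, a < b ∧ Ioo a b ⊆ U.1 := by
    rintro ⟨U, hU⟩
    obtain ⟨hUo, x, hx⟩ := hS U hU
    obtain ⟨y, hy⟩ : ∃ y : Ioo c d, x < y := by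
      obtain ⟨y, h1, h2⟩ := exists_between x.2.2
      exact ⟨⟨y, x.2.1.trans h1, h2⟩, h1⟩
    obtain ⟨b, hb1, hb2⟩ := exists_Ico_subset_of_mem_nhds (hUo.mem_nhds hx) ⟨y, hy⟩
    exact ⟨x, b, hb1, Ioo_subset_Ico_self.trans hb2⟩
  choose a b hab hsub using hI
  have hne : ∀ U : S, ∃ z : Ioo c d, a U < z ∧ z < b U := by
    intro U
    obtain ⟨z, h1, h2⟩ := exists_between (show (a U : L) < b U from hab U)
    exact ⟨⟨z, (a U).2.1.trans h1, h2.trans (b U).2.2⟩, h1, h2⟩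
  have hdisj : ∀ U V : S, U ≠ V → Disjoint (Ioo (a U) (b U)) (Ioo (a V) (b V)) := by
    intro U V hUV
    have h1 : Disjoint U.1 V.1 := hdis U.2 V.2 (fun he => hUV (Subtype.ext he))
    exact h1.mono (hsub U) (hsub V)
  have hdisjL : ∀ U V : S, U ≠ V → Disjoint (Ioo (a U : L) (b U)) (Ioo (a V : L) (b V)) := by
    intro U V hUV
    rw [Set.disjoint_left]
    intro z hz1 hz2
    have hz : z ∈ Ioo c d := ⟨(a U).2.1.trans hz1.1, hz1.2.trans (b U).2.2⟩
    exact Set.disjoint_left.1 (hdisj U V hUV)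
      (show (⟨z, hz⟩ : Ioo c d) ∈ Ioo (a U) (b U) from ⟨hz1.1, hz1.2⟩) ⟨hz2.1, hz2.2⟩
  have hinj : Function.Injective (fun U : S => ((a U : L), (b U : L))) := by
    intro U V hUV
    by_contra hne'
    obtain ⟨z, hz1, hz2⟩ := hne U
    have h1 : (a U : L) = a V := congrArg Prod.fst hUV
    have h2 : (b U : L) = b V := congrArg Prod.snd hUV
    refine Set.disjoint_left.1 (hdisjL U V hne')
      (show (z : L) ∈ Ioo (a U : L) (b U) from ⟨hz1, hz2⟩) ⟨?_, ?_⟩
    · rw [← h1]; exact hz1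
    · rw [← h2]; exact hz2
  have hc : (range (fun U : S => ((a U : L), (b U : L)))).Countable := by
    apply h
    · rintro _ ⟨U, rfl⟩
      exact ⟨(a U).2.1.le, hab U, (b U).2.2.le⟩
    · rintro _ ⟨U, rfl⟩ _ ⟨V, rfl⟩ hUV
      exact hdisjL U V (fun he => hUV (by rw [he]))
  have : Countable S := by
    rw [← Set.countable_univ_iff]
    have h3 := hc.preimage_of_injOn (s := range (fun U : S => ((a U : L), (b U : L)))) hinj.injOn
    rwa [preimage_range] at h3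
  exact Set.countable_coe_iff.1 this

/-- a densely ordered separable interval of an `ℵ₁`-dense order is isomorphic to an `ℵ₁`-dense set of reals -/
theorem exists_real_iso (hL : Aleph1Dense L) {c d : L} (hcd : c < d)
    (hsep : @TopologicalSpace.SeparableSpace (Ioo c d) (Preorder.topology (Ioo c d))) :
    ∃ Y : Set ℝ, Aleph1DenseReal Y ∧ Nonempty (Y ≃o Ioo c d) := by
  let _ : TopologicalSpace (Ioo c d) := Preorder.topology (Ioo c d)
  have _ : OrderTopology (Ioo c d) := ⟨rfl⟩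
  have _ := hsep
  obtain ⟨D, hDc, hDd⟩ := TopologicalSpace.exists_countable_dense (Ioo c d)
  have hbet : ∀ x y : Ioo c d, x < y → ∃ z : Ioo c d, x < z ∧ z < y := by
    intro x y hxy
    obtain ⟨z, h1, h2⟩ := exists_between (show (x : L) < y from hxy)
    exact ⟨⟨z, x.2.1.trans h1, h2.trans y.2.2⟩, h1, h2⟩
  have hD : ∀ x y : Ioo c d, x < y → ∃ z ∈ D, x < z ∧ z < y := by
    intro x y hxy
    obtain ⟨z, hz1, hz2⟩ := hDd.exists_mem_open isOpen_Ioo (hbet x y hxy)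
    exact ⟨z, hz1, hz2⟩
  have hmax : ∀ x : Ioo c d, ∃ y, x < y := by
    intro x
    obtain ⟨y, h1, h2⟩ := exists_between x.2.2
    exact ⟨⟨y, x.2.1.trans h1, h2⟩, h1⟩
  have hmin : ∀ x : Ioo c d, ∃ y, y < x := by
    intro x
    obtain ⟨y, h1, h2⟩ := exists_between x.2.1
    exact ⟨⟨y, h1, h2.trans x.2.2⟩, h2⟩
  have _ : Countable D := hDc.to_subtype
  have _ : DenselyOrdered D := ⟨by
    rintro ⟨x, hx⟩ ⟨y, hy⟩ hxy
    obtain ⟨z, hz, h1, h2⟩ := hD x y hxy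
    exact ⟨⟨z, hz⟩, h1, h2⟩⟩
  have _ : NoMaxOrder D := ⟨by
    rintro ⟨x, hx⟩
    obtain ⟨y, hy⟩ := hmax x
    obtain ⟨z, hz, h1, h2⟩ := hD x y hy
    exact ⟨⟨z, hz⟩, h1⟩⟩
  have _ : NoMinOrder D := ⟨by
    rintro ⟨x, hx⟩
    obtain ⟨y, hy⟩ := hmin x
    obtain ⟨z, hz, h1, h2⟩ := hD y x hy
    exact ⟨⟨z, hz⟩, h2⟩⟩
  have _ : Nonempty D := by
    obtain ⟨x, h1, h2⟩ := exists_between hcd
    obtain ⟨y, hy⟩ := hmax ⟨x, h1, h2⟩
    obtain ⟨z, hz, _⟩ := hD _ y hy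
    exact ⟨⟨z, hz⟩⟩
  obtain ⟨φ⟩ := Order.iso_of_countable_dense D ℚ
  -- the map to the reals
  let Sx : Ioo c d → Set ℝ := fun x => {r | ∃ z : D, (z : Ioo c d) < x ∧ r = φ z}
  have hSne : ∀ x, (Sx x).Nonempty := by
    intro x
    obtain ⟨y, hy⟩ := hmin x
    obtain ⟨z, hz, h1, h2⟩ := hD y x hy
    exact ⟨φ ⟨z, hz⟩, ⟨z, hz⟩, h2, rfl⟩
  have hSub : ∀ x, ∀ w : D, x ≤ (w : Ioo c d) → ∀ r ∈ Sx x, r ≤ φ w := by
    rintro x w hw r ⟨z, hz, rfl⟩
    have : z < w := hz.trans_le hw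
    exact_mod_cast (φ.strictMono this).le
  have hSbdd : ∀ x, BddAbove (Sx x) := by
    intro x
    obtain ⟨y, hy⟩ := hmax x
    obtain ⟨w, hw, h1, h2⟩ := hD x y hy
    exact ⟨φ ⟨w, hw⟩, hSub x ⟨w, hw⟩ h1.le⟩
  let F : Ioo c d → ℝ := fun x => sSup (Sx x)
  have hF1 : ∀ x, ∀ w : D, (w : Ioo c d) < x → (φ w : ℝ) ≤ F x := fun x w hw =>
    le_csSup (hSbdd x) ⟨w, hw, rfl⟩
  have hF2 : ∀ x, ∀ w : D, x ≤ (w : Ioo c d) → F x ≤ (φ w : ℝ) := fun x w hw =>
    csSup_le (hSne x) (hSub x w hw)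
  have hF : StrictMono F := by
    intro x y hxy
    obtain ⟨z, hz, h1, h2⟩ := hD x y hxy
    obtain ⟨w, hw, h3, h4⟩ := hD z y h2
    have h5 := hF2 x ⟨z, hz⟩ h1.le
    have h6 := hF1 y ⟨w, hw⟩ h4
    have h7 : (φ ⟨z, hz⟩ : ℝ) < φ ⟨w, hw⟩ := by
      exact_mod_cast φ.strictMono (show (⟨z, hz⟩ : D) < ⟨w, hw⟩ from h3)
    linarith
  refine ⟨range F, fun r s hrs => le_antisymm ?_ ?_, ⟨(hF.orderIso F).symm⟩⟩
  · refine (mk_le_mk_of_subset inter_subset_left).trans (mk_range_le.trans ?_)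
    exact (hL.2 c d hcd).le
  · obtain ⟨q1, hq1, hq1'⟩ := exists_rat_btwn hrs
    obtain ⟨q2, hq2, hq2'⟩ := exists_rat_btwn hq1'
    have hq12 : q1 < q2 := by exact_mod_cast hq2
    have hlt : φ.symm q1 < φ.symm q2 := φ.symm.strictMono hq12
    have hlt' : ((φ.symm q1 : Ioo c d) : L) < ((φ.symm q2 : Ioo c d) : L) := hlt
    rw [← hL.2 _ _ hlt']
    have hmem : ∀ x : Ioo ((φ.symm q1 : Ioo c d) : L) ((φ.symm q2 : Ioo c d) : L), (x : L) ∈ Ioo c d :=
      fun x => ⟨(φ.symm q1 : Ioo c d).2.1.trans x.2.1, x.2.2.trans (φ.symm q2 : Ioo c d).2.2⟩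
    refine mk_le_of_injective (f := fun x => (⟨F ⟨x, hmem x⟩, ⟨_, rfl⟩, ?_, ?_⟩ : ↥(range F ∩ Ioo r s))) ?_
    · have h1 := hF1 ⟨x, hmem x⟩ (φ.symm q1) x.2.1
      rw [φ.apply_symm_apply] at h1
      exact hq1.trans_le h1
    · have h1 := hF2 ⟨x, hmem x⟩ (φ.symm q2) x.2.2.le
      rw [φ.apply_symm_apply] at h1
      exact h1.trans_lt hq2'
    · intro x y hxy
      have h1 := hF.injective (congrArg Subtype.val hxy)
      exact Subtype.ext (congrArg (fun z : Ioo c d => (z : L)) h1)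

/-- Under Baumgartner's axiom and Suslin's hypothesis every `ℵ₁`-dense set of reals LOTS-embeds into every
`ℵ₁`-dense order with a ccc interval. -/
theorem real_emb (hBA : BaumgartnerAxiom) (hSH : SuslinHypothesis) (hL : Aleph1Dense L) {c d : L}
    (hcd : c < d) (hccc : IntervalCCC c d) {X : Set ℝ} (hX : Aleph1DenseReal X) : LOTSEmb X L := by
  have _ : DenselyOrdered (Ioo c d) := ⟨by
    intro x y hxy
    obtain ⟨z, h1, h2⟩ := exists_between (show (x : L) < y from hxy)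
    exact ⟨⟨z, x.2.1.trans h1, h2.trans y.2.2⟩, h1, h2⟩⟩
  obtain ⟨Y, hY, ⟨e⟩⟩ := exists_real_iso hL hcd (hSH _ (ccc_of_intervalCCC hccc))
  obtain ⟨f⟩ := hBA X Y hX hY
  exact (LOTSEmb.of_iso (f.trans e)).trans (LOTSEmb.of_Ioo L c d)

end ccc

end Pool.Agent.E8helper92.LOTS
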