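import Pool.Agent.E8helper92.LOTSOrtho
import Pool.Agent.E8helper92.LOTSReal

set_option autoImplicit false

/-!
# Intervals with the countable chain condition
-/

namespace Pool.Agent.E8helper92.LOTS

open Set Cardinal

theorem IntervalCCC.dual {L : Type} [LinearOrder L] {c d : L} (h : IntervalCCC c d) :
    IntervalCCC (OrderDual.toDual d) (OrderDual.toDual c) := by
  intro S hS hdis
  let sw : Lᵒᵈ × Lᵒᵈ → L × L := fun q => (OrderDual.ofDual q.2, OrderDual.ofDual q.1)
  have hswi : Function.Injective sw := by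
    intro p q hpq
    exact Prod.ext (congrArg Prod.snd hpq) (congrArg Prod.fst hpq)
  have hIoo : ∀ q : Lᵒᵈ × Lᵒᵈ, Ioo (sw q).1 (sw q).2 = (OrderDual.toDual ⁻¹' Ioo q.1 q.2 : Set L) := by
    intro q
    ext x
    exact ⟨fun h => ⟨h.2, h.1⟩, fun h => ⟨h.2, h.1⟩⟩
  have h1 : (sw '' S).Countable := by
    apply h
    · rintro _ ⟨q, hq, rfl⟩
      obtain ⟨h1, h2, h3⟩ := hS q hq
      exact ⟨h3, h2, h1⟩
    · rintro _ ⟨q, hq, rfl⟩ _ ⟨q', hq', rfl⟩ hne
      rw [hIoo, hIoo]
      exact (hdis q hq q' hq' fun he => hne (by rw [he])).preimage _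
  exact Set.countable_of_injective_of_countable_image hswi.injOn h1

/-- `ω₁` does not embed into a ccc interval -/
theorem no_W1_ccc {L : Type} [LinearOrder L] [DenselyOrdered L] {c d : L} (h : IntervalCCC c d) {Z : Type}
    [LinearOrder Z] (hZ : Uncountable Z) (g : Z → W1) (hg : StrictMono g) (f : Z → L) (hf : StrictMono f)
    (hfcd : ∀ z, c < f z ∧ f z < d) : False := by
  obtain ⟨V, s, hV, hs1, hs2⟩ := exists_gaps_of_W1 hZ g hg
  have hdis : ∀ x y : V, (x : Z) < y → Disjoint (Ioo (f x) (f (s x))) (Ioo (f y) (f (s y))) := by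
    intro x y hxy
    rw [Set.disjoint_left]
    intro w hw1 hw2
    exact absurd (hw1.2.trans_le (hf.monotone (hs2 x y hxy))) (not_lt.2 hw2.1.le)
  have h1 : (range fun x : V => (f x, f (s x))).Countable := by
    apply h
    · rintro _ ⟨x, rfl⟩
      exact ⟨(hfcd _).1.le, hf (hs1 x), (hfcd _).2.le⟩
    · rintro _ ⟨x, rfl⟩ _ ⟨y, rfl⟩ hne
      rcases lt_trichotomy (x : Z) y with hxy | hxy | hxy
      · exact hdis x y hxy
      · exact absurd (by rw [Subtype.ext hxy]) hne
      · exact (hdis y x hxy).symm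
  have hinj : Function.Injective fun x : V => (f x, f (s x)) := fun x y hxy =>
    Subtype.ext (hf.injective (congrArg Prod.fst hxy))
  apply hV
  have h2 := h1.preimage_of_injOn (f := fun x : V => (f x, f (s x))) hinj.injOn
  rw [preimage_range] at h2
  rw [Set.countable_univ_iff] at h2
  exact Set.countable_coe_iff.1 h2

theorem no_W1dual_ccc {L : Type} [LinearOrder L] [DenselyOrdered L] {c d : L} (h : IntervalCCC c d) {Z : Type}
    [LinearOrder Z] (hZ : Uncountable Z) (g : Z → W1ᵒᵈ) (hg : StrictMono g) (f : Z → L) (hf : StrictMono f)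
    (hfcd : ∀ z, c < f z ∧ f z < d) : False := by
  refine no_W1_ccc (L := Lᵒᵈ) h.dual (Z := Zᵒᵈ) hZ (fun z => OrderDual.ofDual (g (OrderDual.ofDual z)))
    (fun x y hxy => hg (show OrderDual.ofDual y < OrderDual.ofDual x from hxy))
    (fun z => OrderDual.toDual (f (OrderDual.ofDual z)))
    (fun x y hxy => hf (show OrderDual.ofDual y < OrderDual.ofDual x from hxy)) fun z => ?_
  exact ⟨(hfcd (OrderDual.ofDual z)).2, (hfcd (OrderDual.ofDual z)).1⟩

/-- a countable separating set gives an embedding into the reals -/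
theorem real_of_separated {C : Type} [LinearOrder C] (D : Set C) (hD : D.Countable) (Z : Set C)
    (h : ∀ x ∈ Z, ∀ y ∈ Z, x < y → ∃ e ∈ D, x ≤ e ∧ e < y) : ∃ g : Z → ℝ, StrictMono g := by
  classical
  obtain ⟨j, hj⟩ := (Set.countable_iff_exists_injOn).1 hD
  let t : C → ℕ → ℝ := fun x n => if ∃ e ∈ D, j e = n ∧ e < x then (1 / 2) ^ n else 0
  have hs : Summable fun n : ℕ => ((1 : ℝ) / 2) ^ n := summable_geometric_of_lt_one (by norm_num) (by norm_num)
  have ht0 : ∀ x n, 0 ≤ t x n := by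
    intro x n
    simp only [t]
    split_ifs
    · positivity
    · exact le_rfl
  have ht1 : ∀ x n, t x n ≤ (1 / 2) ^ n := by
    intro x n
    simp only [t]
    split_ifs
    · exact le_rfl
    · positivity
  have hts : ∀ x, Summable (t x) := fun x => Summable.of_nonneg_of_le (ht0 x) (ht1 x) hs
  refine ⟨fun x => ∑' n, t x n, fun x y hxy => ?_⟩
  obtain ⟨e, he, hxe, hey⟩ := h x x.2 y y.2 hxy
  refine Summable.tsum_lt_tsum (i := j e) (fun n => ?_) ?_ (hts x) (hts y)
  · simp only [t]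
    split_ifs with h1 h2 h2
    · exact le_rfl
    · obtain ⟨e', h3, h4, h5⟩ := h1
      exact absurd ⟨e', h3, h4, h5.trans hxy⟩ h2
    · positivity
    · exact le_rfl
  · have h1 : ¬ ∃ e' ∈ D, j e' = j e ∧ e' < x := by
      rintro ⟨e', h3, h4, h5⟩
      rw [hj h3 he h4] at h5
      exact absurd h5 (not_lt.2 hxe)
    have h2 : ∃ e' ∈ D, j e' = j e ∧ e' < (y : C) := ⟨e, he, rfl, hey⟩
    simp only [t]
    rw [if_neg h1, if_pos h2]
    positivity

/-- a Countryman line inside of a ccc interval contains an uncountable real type -/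
theorem real_of_countryman_ccc {L : Type} [LinearOrder L] [DenselyOrdered L] {c d : L} (h : IntervalCCC c d)
    {C : Type} [LinearOrder C] (hC : Countryman C) (f : C → L) (hf : StrictMono f)
    (hfcd : ∀ z, c < f z ∧ f z < d) : ∃ Z : Set C, ¬ Z.Countable ∧ ∃ g : Z → ℝ, StrictMono g := by
  obtain ⟨hC0, K, hK1, hK2⟩ := hC
  have hF : ∀ n, ∃ F : Set (C × C), F.Countable ∧ (∀ p ∈ F, p ∈ K n ∧ p.1 < p.2) ∧
      ∀ x y, (x, y) ∈ K n → x < y → (x, y) ∈ F ∨ ∃ p ∈ F, p.1 < y ∧ x < p.2 := by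
    intro n
    obtain ⟨F, hF⟩ := zorn_subset {F : Set (C × C) | (∀ p ∈ F, p ∈ K n ∧ p.1 < p.2) ∧
      ∀ p ∈ F, ∀ q ∈ F, p ≠ q → p.2 ≤ q.1 ∨ q.2 ≤ p.1} (by
        intro ch hch hchain
        refine ⟨⋃₀ ch, ⟨?_, ?_⟩, fun s hs => subset_sUnion_of_mem hs⟩
        · rintro p ⟨s, hs, hp⟩
          exact (hch hs).1 p hp
        · rintro p ⟨s, hs, hp⟩ q ⟨s', hs', hq⟩ hne
          rcases hchain.total hs hs' with h1 | h1
          · exact (hch hs').2 p (h1 hp) q hq hne
          · exact (hch hs).2 p hp q (h1 hq) hne)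
    have hF1 := hF.prop.1
    have hF2 := hF.prop.2
    refine ⟨F, ?_, hF1, ?_⟩
    · have hinj : Function.Injective (fun p : C × C => (f p.1, f p.2)) := by
        intro p q hpq
        exact Prod.ext (hf.injective (congrArg Prod.fst hpq)) (hf.injective (congrArg Prod.snd hpq))
      apply Set.countable_of_injective_of_countable_image hinj.injOn
      apply h
      · rintro _ ⟨p, hp, rfl⟩
        exact ⟨(hfcd _).1.le, hf (hF1 p hp).2, (hfcd _).2.le⟩
      · rintro _ ⟨p, hp, rfl⟩ _ ⟨q, hq, rfl⟩ hne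
        rw [Set.disjoint_left]
        intro w hw1 hw2
        rcases hF2 p hp q hq (fun he => hne (by rw [he])) with h1 | h1
        · exact absurd (hw1.2.trans_le (hf.monotone h1)) (not_lt.2 hw2.1.le)
        · exact absurd (hw2.2.trans_le (hf.monotone h1)) (not_lt.2 hw1.1.le)
    · intro x y hxy hlt
      by_contra hcon
      push Not at hcon
      obtain ⟨hcon1, hcon2⟩ := hcon
      apply hcon1
      have h1 : insert (x, y) F ∈ {F : Set (C × C) | (∀ p ∈ F, p ∈ K n ∧ p.1 < p.2) ∧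
          ∀ p ∈ F, ∀ q ∈ F, p ≠ q → p.2 ≤ q.1 ∨ q.2 ≤ p.1} := by
        have key : ∀ p ∈ F, p.2 ≤ x ∨ y ≤ p.1 := by
          intro p hp
          rcases lt_or_ge p.1 y with h2 | h2
          · exact Or.inl (hcon2 p hp h2)
          · exact Or.inr h2
        constructor
        · rintro p (rfl | hp)
          · exact ⟨hxy, hlt⟩
          · exact hF1 p hp
        · rintro p (rfl | hp) q (rfl | hq) hne
          · exact absurd rfl hne
          · exact (key q hq).symm
          · exact key p hp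
          · exact hF2 p hp q hq hne
      exact hF.le_of_ge h1 (subset_insert _ _) (mem_insert _ _)
  choose F hFc hF1 hF2 using hF
  obtain ⟨D, hD⟩ : ∃ D : Set C, D = ⋃ n, (Prod.fst '' F n ∪ Prod.snd '' F n) := ⟨_, rfl⟩
  have hDc : D.Countable := by
    rw [hD]
    exact countable_iUnion fun n => ((hFc n).image _).union ((hFc n).image _)
  have hD1 : ∀ n, ∀ p ∈ F n, p.1 ∈ D ∧ p.2 ∈ D := by
    intro n p hp
    rw [hD]
    exact ⟨mem_iUnion.2 ⟨n, Or.inl ⟨p, hp, rfl⟩⟩, mem_iUnion.2 ⟨n, Or.inr ⟨p, hp, rfl⟩⟩⟩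
  refine ⟨Dᶜ, fun hc => ?_, real_of_separated D hDc Dᶜ ?_⟩
  · have h1 : (univ : Set C).Countable := by
      rw [← union_compl_self D]
      exact hDc.union hc
    exact not_countable_univ_iff.2 hC0 h1
  · intro x hx y hy hxy
    by_contra hcon
    push Not at hcon
    obtain ⟨n, hn⟩ := hK2 (x, y)
    rcases hF2 n x y hn hxy with h1 | ⟨p, hp, h1, h2⟩
    · exact hx (hD1 n _ h1).1
    · have h3 : p.1 < x := by
        by_contra h4
        exact absurd (hcon p.1 (hD1 n p hp).1 (not_lt.1 h4)) (not_le.2 h1)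
      have h4 : y < p.2 := by
        refine lt_of_le_of_ne (hcon p.2 (hD1 n p hp).2 h2.le) ?_
        rintro rfl
        exact hy (hD1 n p hp).2
      rcases hK1 n _ hn _ (hF1 n p hp).1 with h5 | h5
      · exact absurd h5.1 (not_le.2 h3)
      · exact absurd h5.2 (not_le.2 h4)

/-- A ccc interval which is not separable contains an uncountable set without uncountable real suborders. -/
theorem exists_aronszajn_sub {L : Type} [LinearOrder L] [DenselyOrdered L] {c d : L}
    (hccc : IntervalCCC c d)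
    (hns : ∀ D : Set L, D.Countable → ∃ a b, c < a ∧ a < b ∧ b < d ∧ ∀ x ∈ D, ¬ (a < x ∧ x < b)) :
    ∃ A : Set L, ¬ A.Countable ∧ (∀ x ∈ A, c < x ∧ x < d) ∧
      ∀ Z : Set L, Z ⊆ A → ¬ Z.Countable → ∀ f : Z → ℝ, ¬ StrictMono f := by
  classical
  have h1 : ∀ D : Set L, ∃ q : L × L, D.Countable → c < q.1 ∧ q.1 < q.2 ∧ q.2 < d ∧
      ∀ x ∈ D, ¬ (q.1 ≤ x ∧ x ≤ q.2) := by
    intro D
    by_cases hD : D.Countable
    · obtain ⟨a, b, h1, h2, h3, h4⟩ := hns D hD
      obtain ⟨a', h5, h6⟩ := exists_between h2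
      obtain ⟨b', h7, h8⟩ := exists_between h6
      exact ⟨(a', b'), fun _ => ⟨h1.trans h5, h7, h8.trans h3, fun x hx h9 =>
        h4 x hx ⟨h5.trans_le h9.1, h9.2.trans_lt h8⟩⟩⟩
    · exact ⟨(c, c), fun h => absurd h hD⟩
  choose dom hdom using h1
  let F : (α : W1) → ((β : W1) → β < α → L × L) → L × L := fun α ih =>
    dom ((range fun β : Iio α => (ih β β.2).1) ∪ (range fun β : Iio α => (ih β β.2).2))
  let r : W1 → L × L := (wellFounded_lt (α := W1)).fix F
  have hr : ∀ α : W1, r α = dom ((range fun β : Iio α => (r (β : W1)).1) ∪ (range fun β : Iio α => (r (β : W1)).2)) :=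
    fun α => WellFounded.fix_eq _ F α
  have hrc : ∀ α : W1, ((range fun β : Iio α => (r (β : W1)).1) ∪
      (range fun β : Iio α => (r (β : W1)).2)).Countable := by
    intro α
    have := (W1_Iio α).to_subtype
    exact (countable_range _).union (countable_range _)
  have hr1 : ∀ α, c < (r α).1 ∧ (r α).1 < (r α).2 ∧ (r α).2 < d := by
    intro α
    have := hdom _ (hrc α)
    rw [← hr α] at this
    exact ⟨this.1, this.2.1, this.2.2.1⟩
  have hr2 : ∀ β α, β < α → ¬ ((r α).1 ≤ (r β).1 ∧ (r β).1 ≤ (r α).2) ∧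
      ¬ ((r α).1 ≤ (r β).2 ∧ (r β).2 ≤ (r α).2) := by
    intro β α h
    have := (hdom _ (hrc α)).2.2.2
    rw [← hr α] at this
    exact ⟨this _ (Or.inl ⟨⟨β, h⟩, rfl⟩), this _ (Or.inr ⟨⟨β, h⟩, rfl⟩)⟩
  have hinj : Function.Injective fun α => (r α).1 := by
    have key : ∀ α β, α < β → (r α).1 ≠ (r β).1 := by
      intro α β h he
      exact (hr2 α β h).1 ⟨he.ge, he.le.trans (hr1 β).2.1.le⟩
    intro α β h
    rcases lt_trichotomy α β with h1 | h1 | h1
    · exact absurd h (key _ _ h1)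
    · exact h1
    · exact absurd h.symm (key _ _ h1)
  refine ⟨range fun α => (r α).1, fun hc => ?_, ?_, ?_⟩
  · have h2 := hc.preimage_of_injOn (f := fun α => (r α).1) hinj.injOn
    rw [preimage_range] at h2
    exact not_countable_univ_iff.2 W1_uncountable h2
  · rintro _ ⟨α, rfl⟩
    exact ⟨(hr1 α).1, (hr1 α).2.1.trans (hr1 α).2.2⟩
  · intro Z hZ hZc f hf
    apply hZc
    -- a countable set `S` which meets all intervals of `Z` with an inner point
    have h2 : ∀ pq : ℚ × ℚ, ∃ s : Z, (∃ z : Z, (pq.1 : ℝ) < f z ∧ f z < pq.2) →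
        (pq.1 : ℝ) < f s ∧ f s < pq.2 := by
      intro pq
      by_cases h : ∃ z : Z, (pq.1 : ℝ) < f z ∧ f z < pq.2
      · obtain ⟨z, hz⟩ := h
        exact ⟨z, fun _ => hz⟩
      · have hne : Z.Nonempty := by
          rw [nonempty_iff_ne_empty]
          rintro rfl
          exact hZc countable_empty
        exact ⟨⟨_, hne.some_mem⟩, fun h' => absurd h' h⟩
    choose s hs using h2
    have hS : ∀ z1 z2 z3 : Z, z1 < z2 → z2 < z3 → ∃ pq, z1 < s pq ∧ s pq < z3 := by
      intro z1 z2 z3 h12 h23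
      obtain ⟨p, hp1, hp2⟩ := exists_rat_btwn (hf h12)
      obtain ⟨q, hq1, hq2⟩ := exists_rat_btwn (hf h23)
      have h3 := hs (p, q) ⟨z2, hp2, hq1⟩
      exact ⟨(p, q), hf.lt_iff_lt.1 (hp1.trans h3.1), hf.lt_iff_lt.1 (h3.2.trans hq2)⟩
    obtain ⟨δ, hδ⟩ := W1_bounded ((countable_range fun pq => (s pq : L)).preimage_of_injOn
      (f := fun α => (r α).1) hinj.injOn)
    have hSr : ∀ α, δ ≤ α → ∀ pq, ¬ ((r α).1 ≤ (s pq : L) ∧ (s pq : L) ≤ (r α).2) := by
      intro α hα pq
      obtain ⟨β, hβ⟩ := hZ (s pq).2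
      have hβ' : (r β).1 = (s pq : L) := hβ
      have h3 : β < δ := hδ β ⟨pq, hβ'.symm⟩
      rw [← hβ']
      exact (hr2 β α (h3.trans_le hα)).1
    -- the maximal intervals
    let M : Set W1 := {α | δ ≤ α ∧ ∀ β, δ ≤ β → β < α → ¬ ((r β).1 ≤ (r α).1 ∧ (r α).1 ≤ (r β).2)}
    have hMd : ∀ β ∈ M, ∀ α ∈ M, β < α → Disjoint (Ioo (r β).1 (r β).2) (Ioo (r α).1 (r α).2) := by
      intro β hβ α hα h
      have h3 := hα.2 β hβ.1 h
      have h4 := (hr2 β α h).1
      rw [Set.disjoint_left]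
      intro w hw1 hw2
      rcases lt_or_ge (r α).1 (r β).1 with h5 | h5
      · have h6 : (r α).2 < (r β).1 := by
          by_contra h7
          exact h4 ⟨h5.le, not_lt.1 h7⟩
        exact absurd (hw2.2.trans h6) (not_lt.2 hw1.1.le)
      · have h6 : (r β).2 < (r α).1 := by
          by_contra h7
          exact h3 ⟨h5, not_lt.1 h7⟩
        exact absurd (hw1.2.trans h6) (not_lt.2 hw2.1.le)
    have hMc : M.Countable := by
      have h3 : (r '' M).Countable := by
        apply hccc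
        · rintro _ ⟨α, _, rfl⟩
          exact ⟨(hr1 α).1.le, (hr1 α).2.1, (hr1 α).2.2.le⟩
        · rintro _ ⟨α, hα, rfl⟩ _ ⟨β, hβ, rfl⟩ hne
          rcases lt_trichotomy α β with h | h | h
          · exact hMd α hα β hβ h
          · exact absurd (by rw [h]) hne
          · exact (hMd β hβ α hα h).symm
      apply Set.countable_of_injective_of_countable_image (f := r) _ h3
      intro α _ β _ h
      exact hinj (congrArg Prod.fst h)
    have hcov : ∀ α, δ ≤ α → ∃ β ∈ M, (r β).1 ≤ (r α).1 ∧ (r α).1 ≤ (r β).2 := by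
      intro α hα
      have hne : ({β | δ ≤ β ∧ (r β).1 ≤ (r α).1 ∧ (r α).1 ≤ (r β).2} : Set W1).Nonempty :=
        ⟨α, hα, le_rfl, (hr1 α).2.1.le⟩
      have hwf : WellFounded (fun x y : W1 => x < y) := wellFounded_lt
      have h3 := hwf.min_mem _ hne
      have h4 : ∀ γ ∈ ({β | δ ≤ β ∧ (r β).1 ≤ (r α).1 ∧ (r α).1 ≤ (r β).2} : Set W1),
          ¬ γ < hwf.min _ hne := fun γ hγ => hwf.not_lt_min _ hγ
      obtain ⟨β, hβ⟩ : ∃ β, β = hwf.min _ hne := ⟨_, rfl⟩
      rw [← hβ] at h3 h4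
      refine ⟨β, ⟨h3.1, fun γ hγ hγβ h5 => ?_⟩, h3.2⟩
      have h6 : (r β).2 < (r γ).2 := by
        by_contra h7
        exact (hr2 γ β hγβ).2 ⟨h5.2, not_lt.1 h7⟩
      exact h4 γ ⟨hγ, h5.1.trans h3.2.1, h3.2.2.trans h6.le⟩ hγβ
    have hsmall : ∀ β, δ ≤ β → (Z ∩ Icc (r β).1 (r β).2).Countable := by
      intro β hβ
      have h3 : ∀ z1 z2 z3 : L, z1 ∈ Z ∩ Icc (r β).1 (r β).2 → z2 ∈ Z ∩ Icc (r β).1 (r β).2 →
          z3 ∈ Z ∩ Icc (r β).1 (r β).2 → z1 < z2 → ¬ z2 < z3 := by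
        intro z1 z2 z3 h1 h2 h3 h12 h23
        obtain ⟨pq, h4, h5⟩ := hS ⟨z1, h1.1⟩ ⟨z2, h2.1⟩ ⟨z3, h3.1⟩ h12 h23
        exact hSr β hβ pq ⟨h1.2.1.trans (show z1 < s pq from h4).le, (show (s pq : L) < z3 from h5).le.trans h3.2.2⟩
      by_cases hsub : (Z ∩ Icc (r β).1 (r β).2).Subsingleton
      · exact hsub.countable
      · rw [Set.not_subsingleton_iff] at hsub
        obtain ⟨x, hx, y, hy, hxy⟩ := hsub
        have key : ∀ x ∈ Z ∩ Icc (r β).1 (r β).2, ∀ y ∈ Z ∩ Icc (r β).1 (r β).2, x < y →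
            (Z ∩ Icc (r β).1 (r β).2).Countable := by
          intro x hx y hy hlt
          refine (Set.toFinite {x, y}).countable.mono fun w hw => ?_
          by_contra hne
          have h4 : w ≠ x := fun h => hne (by rw [h]; exact mem_insert _ _)
          have h5 : w ≠ y := fun h => hne (by rw [h]; exact mem_insert_of_mem _ rfl)
          rcases lt_or_gt_of_ne h4 with h6 | h6
          · exact h3 w x y hw hx hy h6 hlt
          · rcases lt_or_gt_of_ne h5 with h7 | h7
            · exact h3 x w y hx hw hy h6 h7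
            · exact h3 x y w hx hy hw hlt h7
        rcases lt_or_gt_of_ne hxy with h | h
        · exact key x hx y hy h
        · exact key y hy x hx h
    have hfinal : Z ⊆ ((fun α => (r α).1) '' Iio δ) ∪ ⋃ β ∈ M, (Z ∩ Icc (r β).1 (r β).2) := by
      intro z hz
      obtain ⟨α, hα⟩ := hZ hz
      have hα' : (r α).1 = z := hα
      rcases lt_or_ge α δ with h | h
      · exact Or.inl ⟨α, h, hα'⟩
      · obtain ⟨β, hβ, h3⟩ := hcov α h
        rw [hα'] at h3
        right
        simp only [mem_iUnion]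
        exact ⟨β, hβ, hz, h3⟩
    exact (((W1_Iio δ).image _).union (hMc.biUnion fun β hβ => hsmall β hβ.1)).mono hfinal

end Pool.Agent.E8helper92.LOTS
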