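import Pool.Agent.E8helper92.LOTSFusion3
import Pool.Agent.E8helper92.LOTSSuslin
import Pool.Agent.E8helper92.LOTSLower

set_option autoImplicit false

/-!
# The six element basis
-/

namespace Pool.Agent.E8helper92.LOTS

open Set Cardinal

/-- `T` is a basis for the uncountable linear orders: its members are uncountable linear orders and every
uncountable linear order contains an isomorphic copy of a member. -/
def UncBasis {ι : Type} (T : ι → LinOrd.{0}) : Prop :=
  (∀ i, Uncountable (T i)) ∧ ∀ (L : Type) [LinearOrder L], Uncountable L → ∃ i, ∃ f : T i → L, StrictMono f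

/-- `B` is a basis for the class `𝒞`. -/
def CBasis {ι : Type} (B : ι → LinOrd.{0}) : Prop :=
  (∀ i, InC (B i)) ∧ ∀ (L : Type) [LinearOrder L], InC L → ∃ i, LOTSEmb (B i) L

theorem exists_three {T : Type} [LinearOrder T] (hT : Uncountable T) : ∃ d b e : T, d < b ∧ b < e := by
  have hinf : Infinite T := inferInstance
  obtain ⟨s, hs⟩ := Infinite.exists_subset_card_eq T 3
  let o := s.orderEmbOfFin hs
  exact ⟨o 0, o 1, o 2, o.strictMono (by decide), o.strictMono (by decide)⟩

/-- the five test types -/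
theorem exists_tests : ∃ S : Fin 5 → LinOrd.{0}, (∀ i, #(S i) = ℵ₁) ∧ (∀ i j, i ≠ j → Orth (S i) (S j)) ∧
    (∃ f : S 0 → ℝ, StrictMono f) ∧ (∀ i, i ≠ 0 → Orth ℝ (S i)) ∧ (∃ f : W1 → S 1, StrictMono f) ∧
    (∃ f : W1ᵒᵈ → S 2, StrictMono f) ∧ (∃ f : S 1 → W1, StrictMono f) ∧
    (∃ f : S 2 → W1ᵒᵈ, StrictMono f) ∧ Countryman (S 3) ∧ Countryman (S 4) := by
  obtain ⟨C', _, hC'⟩ := exists_countryman
  obtain ⟨X, hX⟩ := exists_aleph1DenseReal
  have h1 : ℵ₁ ≤ #C' := by
    rw [← succ_aleph0, Order.succ_le_iff]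
    exact Cardinal.aleph0_lt_mk_iff.2 hC'.1
  obtain ⟨A, hA⟩ := le_mk_iff_exists_set.1 h1
  have hAu : Uncountable A := by
    rw [← Cardinal.aleph0_lt_mk_iff, hA]
    exact aleph0_lt_aleph_one
  have hC : Countryman A := hC'.of_embed hAu Subtype.val (fun _ _ h => h)
  have hR : StrictMono (fun x : ↥(X ∩ Ioo (0 : ℝ) 1) => (x : ℝ)) := fun _ _ h => h
  have o01 : Orth ℝ W1 := orth_real_W1
  have o02 : Orth ℝ W1ᵒᵈ := orth_real_W1dual
  have o03 : Orth ℝ A := orth_real_countryman hC
  have o04 : Orth ℝ Aᵒᵈ := orth_real_countryman_dual hC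
  have o12 : Orth W1 W1ᵒᵈ := orth_W1_dual
  have o13 : Orth W1 A := orth_W1_countryman hC
  have o14 : Orth W1 Aᵒᵈ := orth_W1_countryman hC.dual
  have o23 : Orth W1ᵒᵈ A := orth_W1dual_countryman hC
  have o24 : Orth W1ᵒᵈ Aᵒᵈ := (orth_W1_countryman hC).dual
  have o34 : Orth A Aᵒᵈ := orth_countryman_dual hC
  have toX : ∀ {τ : Type} [LinearOrder τ], Orth ℝ τ → Orth ↥(X ∩ Ioo (0 : ℝ) 1) τ := fun h =>
    h.mono _ hR id strictMono_id
  refine ⟨![LinOrd.of ↥(X ∩ Ioo (0 : ℝ) 1), LinOrd.of W1, LinOrd.of W1ᵒᵈ, LinOrd.of A, LinOrd.of Aᵒᵈ],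
    ?_, ?_, ⟨_, hR⟩, ?_, ⟨id, strictMono_id⟩, ⟨id, strictMono_id⟩, ⟨id, strictMono_id⟩, ⟨id, strictMono_id⟩,
    hC, hC.dual⟩
  · intro i
    fin_cases i
    · exact hX 0 1 one_pos
    · show #W1 = ℵ₁
      simp [W1]
    · show #W1 = ℵ₁
      simp [W1]
    · exact hA
    · exact hA
  · intro i j hij
    fin_cases i <;> fin_cases j
    · exact absurd rfl hij
    · exact toX o01
    · exact toX o02
    · exact toX o03
    · exact toX o04
    · exact (toX o01).symm
    · exact absurd rfl hij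
    · exact o12
    · exact o13
    · exact o14
    · exact (toX o02).symm
    · exact o12.symm
    · exact absurd rfl hij
    · exact o23
    · exact o24
    · exact (toX o03).symm
    · exact o13.symm
    · exact o23.symm
    · exact absurd rfl hij
    · exact o34
    · exact (toX o04).symm
    · exact o14.symm
    · exact o24.symm
    · exact o34.symm
    · exact absurd rfl hij
  · intro i hi
    fin_cases i
    · exact absurd rfl hi
    · exact o01
    · exact o02
    · exact o03
    · exact o04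

theorem uncountable_of_mk {T : Type} (h : #T = ℵ₁) : Uncountable T := by
  rw [← Cardinal.aleph0_lt_mk_iff, h]
  exact aleph0_lt_aleph_one

theorem InC.uncountable {L : Type} [LinearOrder L] (h : InC L) : Uncountable L := by
  have _ := h.1.1
  obtain ⟨a, b, hab⟩ := exists_pair_lt L
  have h1 := uncountable_of_mk (h.1.2 a b hab)
  exact (Subtype.val_injective (p := fun x => x ∈ Ioo a b)).uncountable

theorem good_real_inC {X : Set ℝ} (hXne : X.Nonempty) (hXc : #X = ℵ₁)
    (hX2 : ∀ x ∈ X, ∀ ε > 0, ¬ (X ∩ Ioo (x - ε) x).Countable ∧ ¬ (X ∩ Ioo x (x + ε)).Countable) : InC X := by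
  have hne : ∀ S : Set ℝ, ¬ S.Countable → S.Nonempty := by
    intro S hS
    rw [nonempty_iff_ne_empty]
    rintro rfl
    exact hS countable_empty
  refine ⟨⟨?_, ?_⟩, ?_⟩
  · obtain ⟨x, hx⟩ := hXne
    obtain ⟨y, hy, hy1, hy2⟩ := hne _ (hX2 x hx 1 one_pos).2
    exact ⟨⟨x, hx⟩, ⟨y, hy⟩, fun h => by
      have := congrArg Subtype.val h
      simp only at this
      linarith⟩
  · intro a b hab
    have hab' : (a : ℝ) < b := hab
    apply le_antisymm
    · rw [← hXc]
      exact mk_set_le _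
    · apply mk_of_not_countable
      intro hc
      apply (hX2 a a.2 (b - a) (by linarith)).2
      refine (hc.image Subtype.val).mono ?_
      rintro z ⟨hz, hz1, hz2⟩
      exact ⟨⟨z, hz⟩, ⟨hz1, show z < b by linarith⟩, rfl⟩
  · rintro ⟨x, hx⟩
    constructor
    · have h : ∀ n : ℕ, ∃ s : X, (x - 1 / ((n : ℝ) + 1)) < s ∧ (s : ℝ) < x := by
        intro n
        obtain ⟨s, hs, h1, h2⟩ := hne _ (hX2 x hx (1 / ((n : ℝ) + 1)) (by positivity)).1
        exact ⟨⟨s, hs⟩, h1, h2⟩
      choose s hs1 hs2 using h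
      refine ⟨range s, countable_range _, ?_, ?_⟩
      · rintro _ ⟨n, rfl⟩
        exact hs2 n
      · rintro ⟨y, hy⟩ hyx
        have hyx' : y < x := hyx
        obtain ⟨n, hn⟩ := exists_nat_one_div_lt (show 0 < x - y by linarith)
        refine ⟨s n, ⟨n, rfl⟩, ?_⟩
        have := hs1 n
        apply le_of_lt
        change y < (s n : ℝ)
        linarith
    · have h : ∀ n : ℕ, ∃ s : X, x < s ∧ (s : ℝ) < x + 1 / ((n : ℝ) + 1) := by
        intro n
        obtain ⟨s, hs, h1, h2⟩ := hne _ (hX2 x hx (1 / ((n : ℝ) + 1)) (by positivity)).2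
        exact ⟨⟨s, hs⟩, h1, h2⟩
      choose s hs1 hs2 using h
      refine ⟨range s, countable_range _, ?_, ?_⟩
      · rintro _ ⟨n, rfl⟩
        exact hs1 n
      · rintro ⟨y, hy⟩ hyx
        have hyx' : x < y := hyx
        obtain ⟨n, hn⟩ := exists_nat_one_div_lt (show 0 < y - x by linarith)
        refine ⟨s n, ⟨n, rfl⟩, ?_⟩
        have := hs2 n
        apply le_of_lt
        change (s n : ℝ) < y
        linarith

theorem InC.denselyOrdered {L : Type} [LinearOrder L] (h : InC L) : DenselyOrdered L := ⟨by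
  intro a b hab
  have h1 : #(Ioo a b) ≠ 0 := by
    rw [h.1.2 a b hab]
    exact (aleph_pos 1).ne'
  obtain ⟨z, hz1, hz2⟩ := mk_ne_zero_iff.1 h1
  exact ⟨z, hz1, hz2⟩⟩

theorem separable_of_between {L : Type} [LinearOrder L] [DenselyOrdered L] {c d : L} (hcd : c < d) (D : Set L)
    (hD : D.Countable) (h : ∀ a b, c < a → a < b → b < d → ∃ x ∈ D, a < x ∧ x < b) :
    @TopologicalSpace.SeparableSpace (Ioo c d) (Preorder.topology (Ioo c d)) := by
  let _ : TopologicalSpace (Ioo c d) := Preorder.topology (Ioo c d)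
  have _ : OrderTopology (Ioo c d) := ⟨rfl⟩
  have hnt : Nontrivial (Ioo c d) := by
    obtain ⟨x, h1, h2⟩ := exists_between hcd
    obtain ⟨y, h3, h4⟩ := exists_between h2
    exact ⟨⟨x, h1, h2⟩, ⟨y, h1.trans h3, h4⟩, fun he => h3.ne (congrArg Subtype.val he)⟩
  refine ⟨⟨Subtype.val ⁻¹' D, hD.preimage_of_injOn Subtype.val_injective.injOn, ?_⟩⟩
  apply dense_of_exists_between
  intro a b hab
  obtain ⟨x, hx, h1, h2⟩ := h a b a.2.1 hab b.2.2
  exact ⟨⟨x, a.2.1.trans h1, h2.trans b.2.2⟩, hx, h1, h2⟩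

/-- **A five element basis for the uncountable linear orders gives a six element basis for `𝒞`.** -/
theorem six_of_five (T : Fin 5 → LinOrd.{0}) (hT : UncBasis T) : ∃ B : Fin 6 → LinOrd.{0}, CBasis B := by
  obtain ⟨S, hSc, hSo, ⟨fR, hfR⟩, hSR, -, -, ⟨f1, hf1⟩, ⟨f2, hf2⟩, hC3, hC4⟩ := exists_tests
  have hSu : ∀ j, Uncountable (S j) := fun j => uncountable_of_mk (hSc j)
  choose φ hφ using fun j => hT.2 (S j) (hSu j)
  have hφi : Function.Injective φ := by
    intro i j hij
    by_contra hne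
    obtain ⟨f, hf⟩ := hφ i
    have h1 := hφ j
    rw [← hij] at h1
    obtain ⟨g, hg⟩ := h1
    exact hSo i j hne _ (hT.1 (φ i)) f g hf hg
  have hφs : Function.Surjective φ := Finite.injective_iff_surjective.1 hφi
  have hTc : ∀ i, #(T i) = ℵ₁ := by
    intro i
    obtain ⟨j, rfl⟩ := hφs i
    obtain ⟨f, hf⟩ := hφ j
    apply le_antisymm
    · rw [← hSc j]
      exact mk_le_of_injective hf.injective
    · rw [← succ_aleph0, Order.succ_le_iff]
      exact Cardinal.aleph0_lt_mk_iff.2 (hT.1 _)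
  choose d b e hdb hbe using fun i => exists_three (hT.1 i)
  -- the real member
  have hreal : ∀ Y : Set ℝ, ¬ Y.Countable → ∃ f : T (φ 0) → ℝ, StrictMono f ∧ ∀ t, f t ∈ Y := by
    intro Y hY
    obtain ⟨i, f, hf⟩ := hT.2 Y (by
      rw [← not_countable_iff]
      exact fun h => hY (Set.countable_coe_iff.1 h))
    obtain ⟨j, rfl⟩ := hφs i
    by_cases hj : j = 0
    · subst hj
      exact ⟨fun t => f t, fun x y h => hf h, fun t => (f t).2⟩
    · obtain ⟨g, hg⟩ := hφ j
      exact (hSR j hj _ (hT.1 _) (fun t => (f t : ℝ)) g (fun x y h => hf h) hg).elim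
  obtain ⟨X, hXne, hX1, hXlam, hXc, hX2, hX3⟩ := exists_good_real (hT.1 (φ 0)) hreal
  have hXC : InC X := good_real_inC hXne hXc hX2
  have hXunc : ¬ X.Countable := not_countable_of_mk hXc.ge
  refine ⟨Fin.cons (LinOrd.of X) (fun i => LinOrd.of (Power (T i) (b i))), ?_, ?_⟩
  · intro i
    refine Fin.cases ?_ (fun i => ?_) i
    · exact hXC
    · exact Power.inC (hTc i) (hdb i) (hbe i)
  · intro L _ hL
    have hLd := hL.denselyOrdered
    have hLn := hL.1.1
    by_cases hccc : ∃ c d : L, c < d ∧ IntervalCCC c d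
    · obtain ⟨c, d', hcd, hccc⟩ := hccc
      refine ⟨0, ?_⟩
      show LOTSEmb X L
      have hsep : ∃ D : Set L, D.Countable ∧ ∀ a b, c < a → a < b → b < d' → ∃ x ∈ D, a < x ∧ x < b := by
        by_contra hns
        push Not at hns
        obtain ⟨A, hAc, hAcd, hAr⟩ := exists_aronszajn_sub hccc (by
          intro D hD
          obtain ⟨a, b, h1, h2, h3, h4⟩ := hns D hD
          exact ⟨a, b, h1, h2, h3, fun x hx h5 => absurd h5.2 (not_lt.2 (h4 x hx h5.1))⟩)
        obtain ⟨i, f, hf⟩ := hT.2 A (by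
          rw [← not_countable_iff]
          exact fun h => hAc (Set.countable_coe_iff.1 h))
        obtain ⟨j, rfl⟩ := hφs i
        have hf' : StrictMono fun t => (f t : L) := fun x y h => hf h
        have hfcd : ∀ t, c < (f t : L) ∧ (f t : L) < d' := fun t => hAcd _ (f t).2
        have hTu := hT.1 (φ j)
        -- an uncountable real suborder of `T (φ j)` is impossible
        have hnor : ∀ Z : Set (T (φ j)), ¬ Z.Countable → ∀ g : Z → ℝ, ¬ StrictMono g := by
          intro Z hZ g hg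
          have hmem : ∀ z : ((fun t => (f t : L)) '' Z), ∃ t : Z, (f t : L) = z := by
            rintro ⟨_, t, ht, rfl⟩
            exact ⟨⟨t, ht⟩, rfl⟩
          choose r hr using hmem
          refine hAr ((fun t => (f t : L)) '' Z) ?_ ?_ (fun z => g (r z)) ?_
          · rintro _ ⟨t, _, rfl⟩
            exact (f t).2
          · intro hc
            exact hZ (Set.countable_of_injective_of_countable_image hf'.injective.injOn hc)
          · intro x y hxy
            apply hg
            have h1 : (f (r x) : L) < f (r y) := by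
              rw [hr x, hr y]
              exact hxy
            exact hf'.lt_iff_lt.1 h1
        obtain ⟨g, hg⟩ := hφ j
        have hcount : Countryman (T (φ j)) → False := by
          intro hC
          obtain ⟨Z, hZ, g, hg⟩ := real_of_countryman_ccc hccc hC _ hf' hfcd
          exact hnor Z hZ g hg
        fin_cases j
        · refine hnor univ (fun h => ?_) (fun z => fR (g z)) (fun x y hxy => hfR (hg hxy))
          exact not_countable_univ_iff.2 hTu h
        · exact no_W1_ccc hccc hTu (fun t => f1 (g t)) (fun x y hxy => hf1 (hg hxy)) _ hf' hfcd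
        · exact no_W1dual_ccc hccc hTu (fun t => f2 (g t)) (fun x y hxy => hf2 (hg hxy)) _ hf' hfcd
        · exact hcount (hC3.of_embed hTu g hg)
        · exact hcount (hC4.of_embed hTu g hg)
      obtain ⟨D, hD, hD2⟩ := hsep
      obtain ⟨Y, hY, ⟨iso⟩⟩ := exists_real_iso hL.1 hcd (separable_of_between hcd D hD hD2)
      exact ((real_lots_emb hX1 hXlam hX2 hXunc hX3 hY).trans (LOTSEmb.of_iso iso)).trans
        (LOTSEmb.of_Ioo L c d')
    · push Not at hccc
      obtain ⟨i, hi⟩ := nowhere_ccc (fun i => T i) b d e hdb hbe (fun L _ hL => by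
        obtain ⟨i, f, hf⟩ := hT.2 L hL
        exact ⟨i, ⟨OrderEmbedding.ofStrictMono f hf⟩⟩) L hL.2 hccc
      exact ⟨Fin.succ i, hi⟩

/-- **Every basis for `𝒞` has at least six elements.** -/
theorem six_le {ι : Type} (B : ι → LinOrd.{0}) (hB : CBasis B) : ∃ f : Fin 6 → ι, Function.Injective f := by
  obtain ⟨S, hSc, hSo, -, -, -, -, -, -, -, -⟩ := exists_tests
  have hSu : ∀ j, Uncountable (S j) := fun j => uncountable_of_mk (hSc j)
  choose d b e hdb hbe using fun i => exists_three (hSu i)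
  obtain ⟨X, hX⟩ := exists_aleph1DenseReal
  obtain ⟨i0, hi0⟩ := hB.2 X hX.inC
  have h1 : ∀ j, ∃ i, LOTSEmb (B i) (Power (S j) (b j)) := fun j =>
    hB.2 _ (Power.inC (hSc j) (hdb j) (hbe j))
  choose r g hg hgc using h1
  refine ⟨Fin.cons i0 r, ?_⟩
  have h2 : ∀ j, i0 ≠ r j := by
    intro j h
    have hU := (hB.1 (r j)).uncountable
    rw [h] at hi0
    obtain ⟨f0, hf0, _⟩ := hi0
    exact not_real_and_power hU (fun x => (f0 x : ℝ)) (fun x y hxy => hf0 hxy) (hbe j) (g j) (hg j) (hgc j)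
  have h3 : ∀ j j', r j = r j' → j = j' := by
    intro j j' h
    by_contra hne
    have hU := (hB.1 (r j)).uncountable
    obtain ⟨V, hV, u, hu⟩ := exists_sub_of_embed hU (g j) (hg j)
    have hVu : Uncountable V := by
      rw [← not_countable_iff]
      exact fun h => hV (Set.countable_coe_iff.1 h)
    have hgj' : ∃ g' : B (r j) → Power (S j') (b j'), StrictMono g' := by
      rw [h]
      exact ⟨g j', hg j'⟩
    obtain ⟨g', hg'⟩ := hgj'
    obtain ⟨V', hV', u', hu'⟩ := exists_sub_of_embed hVu (fun x : V => g' x) (fun x y hxy => hg' hxy)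
    have hVu' : Uncountable V' := by
      rw [← not_countable_iff]
      exact fun h => hV' (Set.countable_coe_iff.1 h)
    exact hSo j j' hne V' hVu' (fun x => u x) u' (fun x y hxy => hu hxy) hu'
  intro i
  refine Fin.cases (fun j => Fin.cases (fun _ => rfl) (fun j' h => ?_) j)
    (fun i' j => Fin.cases (fun h => ?_) (fun j' h => ?_) j) i
  · exact absurd h (h2 j')
  · exact absurd h.symm (h2 i')
  · rw [h3 i' j' h]

end Pool.Agent.E8helper92.LOTS
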