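import Pool.Agent.E8helper92.LOTSCountryman

set_option autoImplicit false

/-!
# Orthogonality of `ω₁`, `ω₁*`, sets of reals, a Countryman line and its reverse
-/

namespace Pool.Agent.E8helper92.LOTS

open Set Cardinal

/-- no uncountable linear order embeds into both `σ` and `τ` -/
def Orth (σ τ : Type) [LinearOrder σ] [LinearOrder τ] : Prop :=
  ∀ (Z : Type) [LinearOrder Z], Uncountable Z → ∀ (f : Z → σ) (g : Z → τ), StrictMono f → StrictMono g → False

theorem Orth.symm {σ τ : Type} [LinearOrder σ] [LinearOrder τ] (h : Orth σ τ) : Orth τ σ :=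
  fun Z _ hZ f g hf hg => h Z hZ g f hg hf

theorem Orth.dual {σ τ : Type} [LinearOrder σ] [LinearOrder τ] (h : Orth σ τ) : Orth σᵒᵈ τᵒᵈ := by
  intro Z _ hZ f g hf hg
  refine h Zᵒᵈ hZ (fun z => OrderDual.ofDual (f (OrderDual.ofDual z)))
    (fun z => OrderDual.ofDual (g (OrderDual.ofDual z))) ?_ ?_
  · intro x y hxy
    exact hf hxy
  · intro x y hxy
    exact hg hxy

theorem Orth.mono {σ τ σ' τ' : Type} [LinearOrder σ] [LinearOrder τ] [LinearOrder σ'] [LinearOrder τ']
    (h : Orth σ τ) (f : σ' → σ) (hf : StrictMono f) (g : τ' → τ) (hg : StrictMono g) : Orth σ' τ' :=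
  fun Z _ hZ f' g' hf' hg' => h Z hZ (f ∘ f') (g ∘ g') (hf.comp hf') (hg.comp hg')

theorem Countryman.of_embed {C D : Type} [LinearOrder C] [LinearOrder D] (hC : Countryman C)
    (hD : Uncountable D) (f : D → C) (hf : StrictMono f) : Countryman D := by
  obtain ⟨_, K, hK1, hK2⟩ := hC
  refine ⟨hD, fun n => {p | (f p.1, f p.2) ∈ K n}, fun n p hp q hq => ?_, fun p => ?_⟩
  · rcases hK1 n _ hp _ hq with h | h
    · exact Or.inl ⟨hf.le_iff_le.1 h.1, hf.le_iff_le.1 h.2⟩
    · exact Or.inr ⟨hf.le_iff_le.1 h.1, hf.le_iff_le.1 h.2⟩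
  · exact hK2 (f p.1, f p.2)

theorem Countryman.dual {C : Type} [LinearOrder C] (hC : Countryman C) : Countryman Cᵒᵈ := by
  obtain ⟨hC0, K, hK1, hK2⟩ := hC
  refine ⟨hC0, fun n => {p | (OrderDual.ofDual p.1, OrderDual.ofDual p.2) ∈ K n}, fun n p hp q hq => ?_,
    fun p => ?_⟩
  · rcases hK1 n _ hp _ hq with h | h
    · exact Or.inr ⟨h.1, h.2⟩
    · exact Or.inl ⟨h.1, h.2⟩
  · exact hK2 (OrderDual.ofDual p.1, OrderDual.ofDual p.2)

theorem uncountable_of_iUnion {Z : Type} (hZ : Uncountable Z) (A : ℕ → Set Z) (hA : ∀ n, (A n).Countable) :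
    ∃ z, ∀ n, z ∉ A n := by
  by_contra hcon
  push Not at hcon
  have h1 : (univ : Set Z) ⊆ ⋃ n, A n := by
    intro z _
    simpa using hcon z
  exact not_countable_univ_iff.2 hZ ((countable_iUnion hA).mono h1)

theorem orth_W1_countryman {C : Type} [LinearOrder C] (hC : Countryman C) : Orth W1 C := by
  intro Z _ hZ f g hf hg
  obtain ⟨_, K, hK1, hK2⟩ := hC.of_embed hZ g hg
  -- vertical sections
  have h1 : ∀ n, {x : Z | ∀ b, ∃ y, b < y ∧ (x, y) ∈ K n}.Countable := by
    intro n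
    apply Set.Subsingleton.countable
    have key : ∀ x x' : Z, (∀ b, ∃ y, b < y ∧ (x, y) ∈ K n) → (∀ b, ∃ y, b < y ∧ (x', y) ∈ K n) →
        ¬ x < x' := by
      intro x x' h h' hlt
      obtain ⟨y', _, hy'⟩ := h' x
      obtain ⟨y, hy1, hy⟩ := h y'
      rcases hK1 n _ hy _ hy' with h2 | h2
      · exact absurd h2.2 (not_le.2 hy1)
      · exact absurd h2.1 (not_le.2 hlt)
    intro x hx x' hx'
    exact le_antisymm (not_lt.1 (key x' x hx' hx)) (not_lt.1 (key x x' hx hx'))
  obtain ⟨x, hx⟩ := uncountable_of_iUnion hZ _ h1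
  have h2 : ∀ n, ∃ b : Z, ∀ y, (x, y) ∈ K n → y ≤ b := by
    intro n
    have h3 := hx n
    simp only [Set.mem_ofPred_eq] at h3
    push Not at h3
    obtain ⟨b, hb⟩ := h3
    exact ⟨b, fun y hy => by
      by_contra hlt
      exact hb y (not_le.1 hlt) hy⟩
  choose b hb using h2
  have h3 : ∀ n, (Iic (b n)).Countable := by
    intro n
    refine Set.countable_of_injective_of_countable_image (f := f) hf.injective.injOn ?_
    refine (W1_Iic (f (b n))).mono ?_
    rintro _ ⟨z, hz, rfl⟩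
    exact hf.monotone hz
  obtain ⟨y, hy⟩ := uncountable_of_iUnion hZ _ h3
  obtain ⟨n, hn⟩ := hK2 (x, y)
  exact hy n (hb n y hn)

theorem orth_real_countryman {C : Type} [LinearOrder C] (hC : Countryman C) : Orth ℝ C := by
  intro Z _ hZ f g hf hg
  obtain ⟨_, K, hK1, hK2⟩ := hC.of_embed hZ g hg
  have h1 : ∀ n, {x : Z | ∃ y y', y < y' ∧ (x, y) ∈ K n ∧ (x, y') ∈ K n}.Countable := by
    intro n
    obtain ⟨A, hA⟩ : ∃ A : Set Z, A = {x : Z | ∃ y y', y < y' ∧ (x, y) ∈ K n ∧ (x, y') ∈ K n} := ⟨_, rfl⟩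
    rw [← hA]
    have h2 : ∀ x : A, ∃ y y', y < y' ∧ ((x : Z), y) ∈ K n ∧ ((x : Z), y') ∈ K n := by
      rintro ⟨x, hx⟩
      rw [hA] at hx
      exact hx
    choose y y' h3 h4 h5 using h2
    have h6 : ∀ x, ∃ q : ℚ, f (y x) < q ∧ (q : ℝ) < f (y' x) := fun x => exists_rat_btwn (hf (h3 x))
    choose q hq1 hq2 using h6
    have key : ∀ x x' : A, (x : Z) < x' → q x < q x' := by
      intro x x' hlt
      have h7 : y' x ≤ y x' := by
        rcases hK1 n _ (h5 x) _ (h4 x') with h | h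
        · exact h.2
        · exact absurd h.1 (not_le.2 hlt)
      have h8 := hf.monotone h7
      have h9 : (q x : ℝ) < q x' := (hq2 x).trans_le (h8.trans (hq1 x').le)
      exact_mod_cast h9
    have hinj : Function.Injective q := by
      intro x x' h
      rcases lt_trichotomy (x : Z) x' with h7 | h7 | h7
      · exact absurd h (key _ _ h7).ne
      · exact Subtype.ext h7
      · exact absurd h (key _ _ h7).ne'
    exact Set.countable_coe_iff.1 hinj.countable
  obtain ⟨x, hx⟩ := uncountable_of_iUnion hZ _ h1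
  have h3 : ∀ n, {y | (x, y) ∈ K n}.Countable := by
    intro n
    apply Set.Subsingleton.countable
    intro y hy y' hy'
    by_contra hne
    rcases lt_or_gt_of_ne hne with h | h
    · exact hx n ⟨y, y', h, hy, hy'⟩
    · exact hx n ⟨y', y, h, hy', hy⟩
  obtain ⟨y, hy⟩ := uncountable_of_iUnion hZ _ h3
  obtain ⟨n, hn⟩ := hK2 (x, y)
  exact hy n hn

theorem orth_countryman_dual {C : Type} [LinearOrder C] (hC : Countryman C) : Orth C Cᵒᵈ := by
  intro Z _ hZ f g hf hg
  obtain ⟨_, K, hK1, hK2⟩ := hC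
  obtain ⟨n, hn⟩ : ∃ n, ¬ {z : Z | (f z, OrderDual.ofDual (g z)) ∈ K n}.Countable := by
    by_contra hcon
    push Not at hcon
    obtain ⟨z, hz⟩ := uncountable_of_iUnion hZ _ hcon
    obtain ⟨n, hn⟩ := hK2 (f z, OrderDual.ofDual (g z))
    exact hz n hn
  apply hn
  apply Set.Subsingleton.countable
  have key : ∀ z z' : Z, (f z, OrderDual.ofDual (g z)) ∈ K n → (f z', OrderDual.ofDual (g z')) ∈ K n →
      ¬ z < z' := by
    intro z z' h h' hlt
    rcases hK1 n _ h _ h' with h2 | h2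
    · exact absurd (hg hlt) (not_lt.2 h2.2)
    · exact absurd (hf hlt) (not_lt.2 h2.1)
  intro z hz z' hz'
  exact le_antisymm (not_lt.1 (key z' z hz' hz)) (not_lt.1 (key z z' hz hz'))

/-- an order embedding into `ω₁` gives successors -/
theorem exists_succ_of_W1 {Z : Type} [LinearOrder Z] (f : Z → W1) (hf : StrictMono f) (z : Z)
    (h : ∃ y, z < y) : ∃ s, z < s ∧ ∀ y, z < y → s ≤ y := by
  have hwf : WellFounded (fun x y : Z => x < y) := by
    refine Subrelation.wf (r := InvImage (· < ·) f) ?_ (InvImage.wf f wellFounded_lt)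
    intro x y hxy
    exact hf hxy
  refine ⟨hwf.min {y | z < y} h, hwf.min_mem {y | z < y} h, fun y hy => ?_⟩
  exact not_lt.1 (hwf.not_lt_min {y | z < y} (x := y) hy)

/-- The elements of an uncountable suborder of `ω₁`, up to one exception, are the left endpoints of pairwise
disjoint intervals. -/
theorem exists_gaps_of_W1 {Z : Type} [LinearOrder Z] (hZ : Uncountable Z) (f : Z → W1) (hf : StrictMono f) :
    ∃ (V : Set Z) (s : V → Z), ¬ V.Countable ∧ (∀ x : V, (x : Z) < s x) ∧ ∀ x y : V, (x : Z) < y → s x ≤ y := by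
  have h1 : ∀ x : {x : Z | ∃ y, x < y}, ∃ s, (x : Z) < s ∧ ∀ y, (x : Z) < y → s ≤ y := fun x =>
    exists_succ_of_W1 f hf x x.2
  choose s hs1 hs2 using h1
  refine ⟨{x : Z | ∃ y, x < y}, s, fun hc => ?_, hs1, fun x y hxy => hs2 x y hxy⟩
  have h2 : {x : Z | ¬ ∃ y, x < y}.Subsingleton := by
    intro x hx y hy
    have hx' : ¬ ∃ y, x < y := hx
    have hy' : ¬ ∃ x, y < x := hy
    push Not at hx' hy'
    exact le_antisymm (hy' x) (hx' y)
  have h3 : (univ : Set Z) ⊆ {x : Z | ∃ y, x < y} ∪ {x : Z | ¬ ∃ y, x < y} := by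
    intro x _
    exact em _
  exact not_countable_univ_iff.2 hZ ((hc.union h2.countable).mono h3)

theorem orth_real_W1 : Orth ℝ W1 := by
  intro Z _ hZ f g hf hg
  obtain ⟨V, s, hV, hs1, hs2⟩ := exists_gaps_of_W1 hZ g hg
  have h6 : ∀ x : V, ∃ q : ℚ, f x < q ∧ (q : ℝ) < f (s x) := fun x => exists_rat_btwn (hf (hs1 x))
  choose q hq1 hq2 using h6
  have key : ∀ x x' : V, (x : Z) < x' → q x < q x' := by
    intro x x' hlt
    have h9 : (q x : ℝ) < q x' := (hq2 x).trans_le ((hf.monotone (hs2 x x' hlt)).trans (hq1 x').le)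
    exact_mod_cast h9
  have hinj : Function.Injective q := by
    intro x x' h
    rcases lt_trichotomy (x : Z) x' with h7 | h7 | h7
    · exact absurd h (key _ _ h7).ne
    · exact Subtype.ext h7
    · exact absurd h (key _ _ h7).ne'
  exact hV (Set.countable_coe_iff.1 hinj.countable)

theorem orth_W1_dual : Orth W1 W1ᵒᵈ := by
  intro Z _ hZ f g hf hg
  have h1 : WellFounded (fun x y : Z => x < y) := by
    refine Subrelation.wf (r := InvImage (· < ·) f) ?_ (InvImage.wf f wellFounded_lt)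
    intro x y hxy
    exact hf hxy
  have h2 : WellFounded (fun x y : Z => x > y) := by
    refine Subrelation.wf (r := InvImage (· < ·) (fun z => OrderDual.ofDual (g z))) ?_
      (InvImage.wf _ wellFounded_lt)
    intro x y hxy
    exact hg hxy
  have i1 : WellFoundedLT Z := ⟨h1⟩
  have i2 : WellFoundedGT Z := ⟨h2⟩
  have : Finite Z := Finite.of_wellFoundedLT_wellFoundedGT Z
  exact hZ.not_countable inferInstance

theorem orth_real_W1dual : Orth ℝ W1ᵒᵈ :=
  orth_real_W1.dual.mono (fun x : ℝ => OrderDual.toDual (-x)) (fun x y hxy => by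
    change -y < -x
    exact neg_lt_neg hxy) id strictMono_id

theorem orth_real_countryman_dual {C : Type} [LinearOrder C] (hC : Countryman C) : Orth ℝ Cᵒᵈ :=
  orth_real_countryman hC.dual

theorem orth_W1dual_countryman {C : Type} [LinearOrder C] (hC : Countryman C) : Orth W1ᵒᵈ C :=
  (orth_W1_countryman hC.dual).dual.mono id strictMono_id (fun x => x) (fun _ _ h => h)

end Pool.Agent.E8helper92.LOTS
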