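import Pool.Agent.E8helper92.LOTSBasic

set_option autoImplicit false

/-!
# The lexicographic power of finite support and its embeddings
-/

namespace Pool.Agent.E8helper92.LOTS

open Set Cardinal

/-- The lexicographic power with finite supports: the sequences `x : ℕ → τ` which are eventually equal to the
base point `b`, ordered lexicographically. -/
def Power (τ : Type) [LinearOrder τ] (b : τ) : Type :=
  {x : Lex (ℕ → τ) // ∃ N, ∀ n, N ≤ n → ofLex x n = b}

noncomputable instance (τ : Type) [LinearOrder τ] (b : τ) : LinearOrder (Power τ b) :=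
  inferInstanceAs (LinearOrder {x : Lex (ℕ → τ) // ∃ N, ∀ n, N ≤ n → ofLex x n = b})

section power

variable {τ : Type} [LinearOrder τ] {b : τ}

/-- the coordinates of an element -/
def Power.co (x : Power τ b) (n : ℕ) : τ := ofLex x.1 n

theorem Power.lt_iff {x y : Power τ b} :
    x < y ↔ ∃ n, (∀ m, m < n → x.co m = y.co m) ∧ x.co n < y.co n := Iff.rfl

theorem Power.ext {x y : Power τ b} (h : ∀ n, x.co n = y.co n) : x = y :=
  Subtype.ext (funext h)

/-- the element with the given coordinates -/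
def Power.mk (f : ℕ → τ) (h : ∃ N, ∀ n, N ≤ n → f n = b) : Power τ b := ⟨toLex f, h⟩

@[simp] theorem Power.co_mk (f : ℕ → τ) (h : ∃ N, ∀ n, N ≤ n → f n = b) (n : ℕ) :
    (Power.mk f h).co n = f n := rfl

theorem Power.exists_bound (x : Power τ b) : ∃ N, ∀ n, N ≤ n → x.co n = b := x.2

/-- change one coordinate -/
def Power.upd (x : Power τ b) (n : ℕ) (e : τ) : Power τ b :=
  Power.mk (Function.update x.co n e) (by
    obtain ⟨N, hN⟩ := x.exists_bound
    refine ⟨N + n + 1, fun m hm => ?_⟩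
    rw [Function.update_of_ne (by omega)]
    exact hN m (by omega))

theorem Power.upd_same (x : Power τ b) (n : ℕ) (e : τ) : (x.upd n e).co n = e := by
  simp [Power.upd]

theorem Power.upd_ne (x : Power τ b) {n m : ℕ} (e : τ) (h : m ≠ n) : (x.upd n e).co m = x.co m := by
  simp [Power.upd, h]

theorem Power.upd_lt (x : Power τ b) (n : ℕ) (e : τ) (h : e < x.co n) : x.upd n e < x :=
  Power.lt_iff.2 ⟨n, fun m hm => x.upd_ne e hm.ne, by rw [x.upd_same]; exact h⟩

theorem Power.lt_upd (x : Power τ b) (n : ℕ) (e : τ) (h : x.co n < e) : x < x.upd n e :=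
  Power.lt_iff.2 ⟨n, fun m hm => (x.upd_ne e hm.ne).symm, by rw [x.upd_same]; exact h⟩

/-- if `x.upd n e < z < x` then `z` and `x` agree below `n` -/
theorem Power.agree_of_between {x z : Power τ b} {n : ℕ} {e : τ} (h1 : x.upd n e < z) (h2 : z < x) :
    ∀ m, m < n → z.co m = x.co m := by
  obtain ⟨k, hk1, hk2⟩ := Power.lt_iff.1 h2
  have hkn : n ≤ k := by
    by_contra hlt
    push Not at hlt
    have : z < x.upd n e := Power.lt_iff.2 ⟨k, fun m hm => by
      rw [x.upd_ne e (by omega)]; exact hk1 m hm, by rw [x.upd_ne e (by omega)]; exact hk2⟩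
    exact absurd h1 this.not_gt
  intro m hm
  exact hk1 m (by omega)

theorem Power.agree_of_between' {x z : Power τ b} {n : ℕ} {e : τ} (h1 : z < x.upd n e) (h2 : x < z) :
    ∀ m, m < n → z.co m = x.co m := by
  obtain ⟨k, hk1, hk2⟩ := Power.lt_iff.1 h2
  have hkn : n ≤ k := by
    by_contra hlt
    push Not at hlt
    have : x.upd n e < z := Power.lt_iff.2 ⟨k, fun m hm => by
      rw [x.upd_ne e (by omega)]; exact hk1 m hm, by rw [x.upd_ne e (by omega)]; exact hk2⟩
    exact absurd h1 this.not_gt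
  intro m hm
  exact (hk1 m (by omega)).symm

end power

section card

variable {τ : Type} [LinearOrder τ] {b : τ}

theorem Power.mk_le (hτ : #τ = ℵ₁) : #(Power τ b) ≤ ℵ₁ := by
  have : Infinite τ := by
    rw [Cardinal.infinite_iff, hτ]
    exact aleph0_le_aleph 1
  have h1 : #(Power τ b) ≤ #(List τ) := by
    choose N hN using fun x : Power τ b => x.exists_bound
    refine mk_le_of_injective (f := fun x => (List.range (N x)).map x.co) ?_
    intro x y hxy
    have hl : N x = N y := by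
      have := congrArg List.length hxy
      simpa using this
    apply Power.ext
    intro n
    by_cases hn : n < N x
    · have h2 := congrArg (fun l => l[n]?) hxy
      simpa [hn, hl ▸ hn] using h2
    · rw [hN x n (by omega), hN y n (by omega)]
  rw [mk_list_eq_mk, hτ] at h1
  exact h1

theorem Power.le_Ioo (hτ : #τ = ℵ₁) {e : τ} (he : b < e) {x y : Power τ b} (hxy : x < y) :
    ℵ₁ ≤ #(Ioo x y) := by
  obtain ⟨n, hn1, hn2⟩ := Power.lt_iff.1 hxy
  obtain ⟨N, hN⟩ := x.exists_bound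
  -- change the coordinate `M` to `e` and the coordinate `M + 1` arbitrarily
  obtain ⟨M, hM⟩ : ∃ M, M = N + n + 1 := ⟨_, rfl⟩
  have hxM : x.co M = b := hN M (by omega)
  rw [← hτ]
  refine mk_le_of_injective (f := fun i : τ => (⟨(x.upd M e).upd (M + 1) i, ?_, ?_⟩ : Ioo x y)) ?_
  · refine Power.lt_iff.2 ⟨M, fun m hm => ?_, ?_⟩
    · rw [Power.upd_ne _ _ (by omega), Power.upd_ne _ _ (by omega)]
    · rw [Power.upd_ne _ _ (by omega), Power.upd_same, hxM]
      exact he
  · refine Power.lt_iff.2 ⟨n, fun m hm => ?_, ?_⟩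
    · rw [Power.upd_ne _ _ (by omega), Power.upd_ne _ _ (by omega)]
      exact hn1 m hm
    · rw [Power.upd_ne _ _ (by omega), Power.upd_ne _ _ (by omega)]
      exact hn2
  · intro i j hij
    have h1 := congrArg (fun z : Ioo x y => z.1.co (M + 1)) hij
    simpa [Power.upd_same] using h1

theorem Power.aleph1Dense (hτ : #τ = ℵ₁) {e : τ} (he : b < e) : Aleph1Dense (Power τ b) := by
  constructor
  · obtain ⟨x⟩ : Nonempty (Power τ b) := ⟨Power.mk (fun _ => b) ⟨0, fun _ _ => rfl⟩⟩
    obtain ⟨N, hN⟩ := x.exists_bound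
    exact ⟨x, x.upd N e, (x.lt_upd N e (by rw [hN N le_rfl]; exact he)).ne⟩
  · intro x y hxy
    exact le_antisymm ((mk_set_le _).trans (Power.mk_le hτ)) (Power.le_Ioo hτ he hxy)

theorem Power.countableCharacter {d e : τ} (hd : d < b) (he : b < e) : CountableCharacter (Power τ b) := by
  intro x
  obtain ⟨N, hN⟩ := x.exists_bound
  constructor
  · refine ⟨range (fun n => x.upd (N + n) d), countable_range _, ?_, ?_⟩
    · rintro _ ⟨n, rfl⟩
      exact x.upd_lt _ _ (by rw [hN _ (by omega)]; exact hd)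
    · intro y hy
      obtain ⟨k, hk1, hk2⟩ := Power.lt_iff.1 hy
      refine ⟨_, ⟨k + 1, rfl⟩, le_of_lt (Power.lt_iff.2 ⟨k, fun m hm => ?_, ?_⟩)⟩
      · rw [Power.upd_ne _ _ (by omega)]; exact hk1 m hm
      · rw [Power.upd_ne _ _ (by omega)]; exact hk2
  · refine ⟨range (fun n => x.upd (N + n) e), countable_range _, ?_, ?_⟩
    · rintro _ ⟨n, rfl⟩
      exact x.lt_upd _ _ (by rw [hN _ (by omega)]; exact he)
    · intro y hy
      obtain ⟨k, hk1, hk2⟩ := Power.lt_iff.1 hy
      refine ⟨_, ⟨k + 1, rfl⟩, le_of_lt (Power.lt_iff.2 ⟨k, fun m hm => ?_, ?_⟩)⟩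
      · rw [Power.upd_ne _ _ (by omega)]; exact hk1 m hm
      · rw [Power.upd_ne _ _ (by omega)]; exact hk2

theorem Power.inC (hτ : #τ = ℵ₁) {d e : τ} (hd : d < b) (he : b < e) : InC (Power τ b) :=
  ⟨Power.aleph1Dense hτ he, Power.countableCharacter hd he⟩

end card

/-- A fan of type `σ` in the interval `(c, d)`: disjoint intervals `(u i, v i)`, `i ∈ σ`, in the order of `σ`. -/
def Fan {L : Type} [LinearOrder L] (c d : L) (σ : Type) [LinearOrder σ] : Prop :=
  ∃ u v : σ → L, (∀ i, c ≤ u i ∧ u i < v i ∧ v i ≤ d) ∧ ∀ i j, i < j → v i ≤ u j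

section embed

variable {L : Type} [LinearOrder L] [DenselyOrdered L] {τ : Type} [LinearOrder τ] (b : τ)

/-- The data at an interval: a centre `p`, sequences to `p` from both sides, and children. -/
structure Node (L : Type) [LinearOrder L] (τ : Type) [LinearOrder τ] (b : τ) (c0 d0 : L)
    (I : {q : L × L // c0 ≤ q.1 ∧ q.1 < q.2 ∧ q.2 ≤ d0}) where
  p : L
  α : ℕ → L
  β : ℕ → L
  hα : StrictMono α
  hβ : StrictAnti β
  hαp : ∀ n, I.1.1 < α n ∧ α n < p
  hβp : ∀ n, β n < I.1.2 ∧ p < β n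
  hαc : ∀ y < p, ∃ n, y < α n
  hβc : ∀ y, p < y → ∃ n, β n < y
  ch : ℕ → τ → {q : L × L // c0 ≤ q.1 ∧ q.1 < q.2 ∧ q.2 ≤ d0}
  hneg : ∀ n i, i < b → α n ≤ (ch n i).1.1 ∧ (ch n i).1.2 ≤ α (n + 1)
  hpos : ∀ n i, b < i → β (n + 1) ≤ (ch n i).1.1 ∧ (ch n i).1.2 ≤ β n
  hch : ∀ n i j, i < j → (j < b ∨ b < i) → (ch n i).1.2 ≤ (ch n j).1.1

theorem exists_node (hc : CountableCharacter L) {c0 d0 : L}
    (hfan : ∀ c d, c0 ≤ c → c < d → d ≤ d0 → Fan c d τ)
    (I : {q : L × L // c0 ≤ q.1 ∧ q.1 < q.2 ∧ q.2 ≤ d0}) : Nonempty (Node L τ b c0 d0 I) := by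
  obtain ⟨⟨c, d⟩, h1, h2, h3⟩ := I
  dsimp only at h1 h2 h3
  obtain ⟨p, hp1, hp2⟩ := exists_between h2
  obtain ⟨α, hα, hαp, hαc⟩ := exists_seq_lt hc c p hp1
  obtain ⟨β, hβ, hβp, hβc⟩ := exists_seq_gt hc d p hp2
  have f1 : ∀ n, Fan (α n) (α (n + 1)) τ := fun n =>
    hfan _ _ (h1.trans (hαp n).1.le) (hα (Nat.lt_succ_self n)) (((hαp (n + 1)).2.trans hp2).le.trans h3)
  have f2 : ∀ n, Fan (β (n + 1)) (β n) τ := fun n =>
    hfan _ _ (h1.trans (hp1.trans (hβp (n + 1)).2).le) (hβ (Nat.lt_succ_self n)) ((hβp n).1.le.trans h3)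
  choose u v huv huv' using f1
  choose u' v' huv2 huv2' using f2
  have hb1 : ∀ n i, c0 ≤ u n i ∧ u n i < v n i ∧ v n i ≤ d0 := fun n i =>
    ⟨(h1.trans (hαp n).1.le).trans (huv n i).1, (huv n i).2.1,
      (huv n i).2.2.trans (((hαp (n + 1)).2.trans hp2).le.trans h3)⟩
  have hb2 : ∀ n i, c0 ≤ u' n i ∧ u' n i < v' n i ∧ v' n i ≤ d0 := fun n i =>
    ⟨(h1.trans (hp1.trans (hβp (n + 1)).2).le).trans (huv2 n i).1, (huv2 n i).2.1,
      (huv2 n i).2.2.trans ((hβp n).1.le.trans h3)⟩
  refine ⟨{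
    p := p
    α := α
    β := β
    hα := hα
    hβ := hβ
    hαp := hαp
    hβp := hβp
    hαc := hαc
    hβc := hβc
    ch := fun n i => if i < b then ⟨(u n i, v n i), hb1 n i⟩ else ⟨(u' n i, v' n i), hb2 n i⟩
    hneg := ?_
    hpos := ?_
    hch := ?_ }⟩
  · intro n i hi
    simp only [hi, if_true]
    exact ⟨(huv n i).1, (huv n i).2.2⟩
  · intro n i hi
    simp only [hi.not_gt, if_false]
    exact ⟨(huv2 n i).1, (huv2 n i).2.2⟩
  · intro n i j hij h
    rcases h with h | h
    · simp only [hij.trans h, h, if_true]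
      exact huv' n i j hij
    · simp only [h.not_gt, (h.trans hij).not_gt, if_false]
      exact huv2' n i j hij

end embed

section embed2

variable {L : Type} [LinearOrder L] {τ : Type} [LinearOrder τ] {b : τ} {c0 d0 : L}
  (nd : ∀ I : {q : L × L // c0 ≤ q.1 ∧ q.1 < q.2 ∧ q.2 ≤ d0}, Node L τ b c0 d0 I)
  (I0 : {q : L × L // c0 ≤ q.1 ∧ q.1 < q.2 ∧ q.2 ≤ d0})

open Classical in
/-- the interval reached after `n` coordinates -/
noncomputable def path (x : ℕ → τ) : ℕ → {q : L × L // c0 ≤ q.1 ∧ q.1 < q.2 ∧ q.2 ≤ d0}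
  | 0 => I0
  | n + 1 => if x n = b then path x n else (nd (path x n)).ch n (x n)

theorem path_succ_eq (x : ℕ → τ) (n : ℕ) (h : x n = b) : path nd I0 x (n + 1) = path nd I0 x n := by
  simp [path, h]

theorem path_succ_ne (x : ℕ → τ) (n : ℕ) (h : x n ≠ b) :
    path nd I0 x (n + 1) = (nd (path nd I0 x n)).ch n (x n) := by
  simp [path, h]

theorem path_congr (x y : ℕ → τ) (n : ℕ) (h : ∀ m, m < n → x m = y m) : path nd I0 x n = path nd I0 y n := by
  induction n with
  | zero => rfl
  | succ n ih =>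
    have ih' := ih fun m hm => h m (by omega)
    simp only [path, h n (by omega)]
    rw [ih']

theorem path_stable (x : ℕ → τ) (N : ℕ) (h : ∀ n, N ≤ n → x n = b) (n : ℕ) (hn : N ≤ n) :
    path nd I0 x n = path nd I0 x N := by
  induction n, hn using Nat.le_induction with
  | base => rfl
  | succ n hn ih => rw [path_succ_eq _ _ _ _ (h n hn), ih]

/-- the embedding -/
noncomputable def emb (x : Power τ b) : L :=
  (nd (path nd I0 x.co (Classical.choose x.exists_bound))).p

theorem emb_eq (x : Power τ b) (N : ℕ) (h : ∀ n, N ≤ n → x.co n = b) :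
    emb nd I0 x = (nd (path nd I0 x.co N)).p := by
  unfold emb
  have h1 := Classical.choose_spec x.exists_bound
  obtain ⟨M, hM⟩ : ∃ M, M = Classical.choose x.exists_bound := ⟨_, rfl⟩
  rw [← hM] at h1 ⊢
  rcases le_total M N with h2 | h2
  · rw [path_stable nd I0 x.co M h1 N h2]
  · rw [path_stable nd I0 x.co N h M h2]

/-- `emb x` lies in the zone of its level `n` interval -/
theorem emb_mem (x : Power τ b) (n : ℕ) :
    (nd (path nd I0 x.co n)).α n < emb nd I0 x ∧ emb nd I0 x < (nd (path nd I0 x.co n)).β n := by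
  obtain ⟨N, hN⟩ := x.exists_bound
  -- downward induction
  have key : ∀ k n, N ≤ n + k →
      (nd (path nd I0 x.co n)).α n < emb nd I0 x ∧ emb nd I0 x < (nd (path nd I0 x.co n)).β n := by
    intro k
    induction k with
    | zero =>
      intro n hn
      rw [emb_eq nd I0 x n (fun m hm => hN m (by omega))]
      exact ⟨((nd _).hαp n).2, ((nd _).hβp n).2⟩
    | succ k ih =>
      intro n hn
      have h1 := ih (n + 1) (by omega)
      by_cases hb : x.co n = b
      · rw [path_succ_eq nd I0 x.co n hb] at h1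
        exact ⟨((nd _).hα (Nat.lt_succ_self n)).trans h1.1, h1.2.trans ((nd _).hβ (Nat.lt_succ_self n))⟩
      · rw [path_succ_ne nd I0 x.co n hb] at h1
        have h2 := ((nd ((nd (path nd I0 x.co n)).ch n (x.co n))).hαp (n + 1)).1
        have h3 := ((nd ((nd (path nd I0 x.co n)).ch n (x.co n))).hβp (n + 1)).1
        have h4 := h2.trans h1.1
        have h5 := h1.2.trans h3
        rcases lt_or_gt_of_ne hb with hlt | hgt
        · have h6 := (nd (path nd I0 x.co n)).hneg n _ hlt
          exact ⟨h6.1.trans_lt h4, (h5.trans_le h6.2).trans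
            (((nd _).hαp (n + 1)).2.trans ((nd _).hβp n).2)⟩
        · have h6 := (nd (path nd I0 x.co n)).hpos n _ hgt
          exact ⟨(((nd _).hαp n).2.trans ((nd _).hβp (n + 1)).2).trans (h6.1.trans_lt h4),
            h5.trans_le h6.2⟩
  exact key N n (by omega)

/-- the slot of a nonzero coordinate -/
theorem emb_slot (x : Power τ b) (n : ℕ) (hb : x.co n ≠ b) :
    ((nd (path nd I0 x.co n)).ch n (x.co n)).1.1 < emb nd I0 x ∧
      emb nd I0 x < ((nd (path nd I0 x.co n)).ch n (x.co n)).1.2 := by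
  have h1 := emb_mem nd I0 x (n + 1)
  rw [path_succ_ne nd I0 x.co n hb] at h1
  exact ⟨((nd _).hαp (n + 1)).1.trans h1.1, h1.2.trans ((nd _).hβp (n + 1)).1⟩

theorem emb_slot0 (x : Power τ b) (n : ℕ) (hb : x.co n = b) :
    (nd (path nd I0 x.co n)).α (n + 1) < emb nd I0 x ∧ emb nd I0 x < (nd (path nd I0 x.co n)).β (n + 1) := by
  have h1 := emb_mem nd I0 x (n + 1)
  rw [path_succ_eq nd I0 x.co n hb] at h1
  exact h1

theorem emb_strictMono : StrictMono (emb nd I0) := by
  intro x y hxy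
  obtain ⟨n, hn1, hn2⟩ := Power.lt_iff.1 hxy
  have hp : path nd I0 x.co n = path nd I0 y.co n := path_congr nd I0 _ _ n hn1
  rcases lt_trichotomy (x.co n) b with hx | hx | hx
  · have h1 := (emb_slot nd I0 x n hx.ne).2
    have h2 := (nd (path nd I0 x.co n)).hneg n _ hx
    rcases lt_trichotomy (y.co n) b with hy | hy | hy
    · have h3 := (emb_slot nd I0 y n hy.ne).1
      rw [← hp] at h3
      exact h1.trans_le (((nd _).hch n _ _ hn2 (Or.inl hy)).trans h3.le)
    · have h3 := (emb_slot0 nd I0 y n hy).1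
      rw [← hp] at h3
      exact (h1.trans_le h2.2).trans h3
    · have h3 := (emb_slot nd I0 y n hy.ne').1
      rw [← hp] at h3
      have h4 := (nd (path nd I0 x.co n)).hpos n _ hy
      exact (h1.trans_le h2.2).trans ((((nd _).hαp (n + 1)).2.trans ((nd _).hβp (n + 1)).2).trans
        (h4.1.trans_lt h3))
  · have h1 := (emb_slot0 nd I0 x n hx).2
    rw [hx] at hn2
    have h3 := (emb_slot nd I0 y n hn2.ne').1
    rw [← hp] at h3
    have h4 := (nd (path nd I0 x.co n)).hpos n _ hn2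
    exact h1.trans (h4.1.trans_lt h3)
  · have h1 := (emb_slot nd I0 x n hx.ne').2
    have h3 := (emb_slot nd I0 y n (hx.trans hn2).ne').1
    rw [← hp] at h3
    exact h1.trans_le (((nd _).hch n _ _ hn2 (Or.inr hx)).trans h3.le)

theorem emb_ocont {d e : τ} (hd : d < b) (he : b < e) : OCont (emb nd I0) := by
  apply ocont_of (emb_strictMono nd I0)
  · intro x c hc
    obtain ⟨N, hN⟩ := x.exists_bound
    have hx := emb_eq nd I0 x N hN
    rw [hx] at hc
    obtain ⟨m, hm⟩ := (nd _).hαc c hc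
    obtain ⟨n, hn⟩ : ∃ n, n = N + m := ⟨_, rfl⟩
    have hcn : c < (nd (path nd I0 x.co N)).α n := hm.trans_le ((nd _).hα.monotone (by omega))
    refine ⟨x.upd n d, x.upd_lt n d (by rw [hN n (by omega)]; exact hd), fun z hz => ?_⟩
    rcases lt_or_ge z x with hzx | hzx
    · have h1 := Power.agree_of_between hz hzx
      have h2 := (emb_mem nd I0 z n).1
      rw [path_congr nd I0 z.co x.co n h1, path_stable nd I0 x.co N hN n (by omega)] at h2
      exact hcn.trans h2
    · rw [← hx] at hc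
      exact hc.trans_le ((emb_strictMono nd I0).monotone hzx)
  · intro x c hc
    obtain ⟨N, hN⟩ := x.exists_bound
    have hx := emb_eq nd I0 x N hN
    rw [hx] at hc
    obtain ⟨m, hm⟩ := (nd _).hβc c hc
    obtain ⟨n, hn⟩ : ∃ n, n = N + m := ⟨_, rfl⟩
    have hcn : (nd (path nd I0 x.co N)).β n < c := ((nd _).hβ.antitone (by omega)).trans_lt hm
    refine ⟨x.upd n e, x.lt_upd n e (by rw [hN n (by omega)]; exact he), fun z hz => ?_⟩
    rcases lt_or_ge x z with hzx | hzx
    · have h1 := Power.agree_of_between' hz hzx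
      have h2 := (emb_mem nd I0 z n).2
      rw [path_congr nd I0 z.co x.co n h1, path_stable nd I0 x.co N hN n (by omega)] at h2
      exact h2.trans hcn
    · rw [← hx] at hc
      exact ((emb_strictMono nd I0).monotone hzx).trans_lt hc

end embed2

/-- If all subintervals of `(c0, d0)` have fans of type `τ` then the power of `τ` LOTS-embeds into `L`. -/
theorem power_emb {L : Type} [LinearOrder L] [DenselyOrdered L] (hc : CountableCharacter L) {τ : Type}
    [LinearOrder τ] {b d e : τ} (hd : d < b) (he : b < e) {c0 d0 : L} (h0 : c0 < d0)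
    (hfan : ∀ c d, c0 ≤ c → c < d → d ≤ d0 → Fan c d τ) : LOTSEmb (Power τ b) L := by
  let nd := fun I => Classical.choice (exists_node (L := L) b hc hfan I)
  exact ⟨emb nd ⟨(c0, d0), le_rfl, h0, le_rfl⟩, emb_strictMono nd _, emb_ocont nd _ hd he⟩

end Pool.Agent.E8helper92.LOTS
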