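import Pool.Agent.E8helper92.LOTSPower

set_option autoImplicit false

/-!
# Fans from the failure of the countable chain condition, and the nowhere ccc members of the class
-/

namespace Pool.Agent.E8helper92.LOTS

open Set Cardinal

/-- the countable chain condition for the open interval topology of `L` -/
def CCC (L : Type) [LinearOrder L] : Prop :=
  ∀ S : Set (Set L), (∀ U ∈ S, @IsOpen L (Preorder.topology L) U ∧ U.Nonempty) →
    S.PairwiseDisjoint id → S.Countable

/-- `T` is a basis for the uncountable linear orders under order embeddings. -/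
def IsBasisUncountable {k : ℕ} (T : Fin k → LinOrd.{0}) : Prop :=
  (∀ i, Uncountable (T i)) ∧
    ∀ (L : Type) [LinearOrder L], Uncountable L → ∃ i, Nonempty (T i ↪o L)

/-- every family of pairwise disjoint nonempty open intervals inside of `(c, d)` is countable -/
def IntervalCCC {L : Type} [LinearOrder L] (c d : L) : Prop :=
  ∀ S : Set (L × L), (∀ q ∈ S, c ≤ q.1 ∧ q.1 < q.2 ∧ q.2 ≤ d) →
    (∀ q ∈ S, ∀ q' ∈ S, q ≠ q' → Disjoint (Ioo q.1 q.2) (Ioo q'.1 q'.2)) → S.Countable

theorem Fan.comp {L : Type} [LinearOrder L] {c d : L} {σ ρ : Type} [LinearOrder σ] [LinearOrder ρ]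
    (h : Fan c d σ) (f : ρ ↪o σ) : Fan c d ρ := by
  obtain ⟨u, v, h1, h2⟩ := h
  exact ⟨u ∘ f, v ∘ f, fun i => h1 (f i), fun i j hij => h2 _ _ (f.strictMono hij)⟩

theorem Fan.mono {L : Type} [LinearOrder L] {c d c' d' : L} {σ : Type} [LinearOrder σ]
    (h : Fan c' d' σ) (hc : c ≤ c') (hd : d' ≤ d) : Fan c d σ := by
  obtain ⟨u, v, h1, h2⟩ := h
  exact ⟨u, v, fun i => ⟨hc.trans (h1 i).1, (h1 i).2.1, (h1 i).2.2.trans hd⟩, h2⟩

theorem exists_fan {L : Type} [LinearOrder L] [DenselyOrdered L] {c d : L} (h : ¬ IntervalCCC c d) :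
    ∃ A : Set L, ¬ A.Countable ∧ Fan c d A := by
  unfold IntervalCCC at h
  push Not at h
  obtain ⟨S, hS1, hS2, hS3⟩ := h
  have hinj : InjOn Prod.fst S := by
    intro q hq q' hq' he
    by_contra hne
    have hd := hS2 q hq q' hq' hne
    obtain ⟨x, hx1, hx2⟩ := exists_between (lt_min (hS1 q hq).2.1 (he ▸ (hS1 q' hq').2.1 : q.1 < q'.2))
    exact Set.disjoint_left.1 hd ⟨hx1, hx2.trans_le (min_le_left _ _)⟩
      ⟨he ▸ hx1, hx2.trans_le (min_le_right _ _)⟩
  refine ⟨Prod.fst '' S, fun hc => hS3 (Set.countable_of_injective_of_countable_image hinj hc), ?_⟩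
  have hv : ∀ a : ↥(Prod.fst '' S), ∃ v, ((a : L), v) ∈ S := by
    rintro ⟨_, q, hq, rfl⟩
    exact ⟨q.2, hq⟩
  choose v hv using hv
  refine ⟨fun a => a, v, fun a => hS1 _ (hv a), fun a a' haa => ?_⟩
  by_contra hlt
  push Not at hlt
  have haa' : (a : L) < a' := haa
  have hne : ((a : L), v a) ≠ ((a' : L), v a') := fun he => haa'.ne (congrArg Prod.fst he)
  have hd := hS2 _ (hv a) _ (hv a') hne
  obtain ⟨x, hx1, hx2⟩ := exists_between (lt_min hlt (hS1 _ (hv a')).2.1)
  exact Set.disjoint_left.1 hd ⟨haa'.trans hx1, hx2.trans_le (min_le_left _ _)⟩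
    ⟨hx1, hx2.trans_le (min_le_right _ _)⟩

/-- If no interval of `L` has the countable chain condition and if the orders `σ i` (finitely many) form a basis
for the uncountable linear orders, then one of the powers of the `σ i` LOTS-embeds into `L`. -/
theorem nowhere_ccc {k : ℕ} (σ : Fin k → Type) [∀ i, LinearOrder (σ i)] (b d e : ∀ i, σ i)
    (hd : ∀ i, d i < b i) (he : ∀ i, b i < e i)
    (hσ : ∀ (L : Type) [LinearOrder L], Uncountable L → ∃ i, Nonempty (σ i ↪o L))
    (L : Type) [LinearOrder L] [DenselyOrdered L] [Nontrivial L] (hc : CountableCharacter L)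
    (hccc : ∀ c d : L, c < d → ¬ IntervalCCC c d) : ∃ i, LOTSEmb (Power (σ i) (b i)) L := by
  classical
  let ty : L × L → Finset (Fin k) := fun q => Finset.univ.filter (fun i => Fan q.1 q.2 (σ i))
  have hty : ∀ q i, i ∈ ty q ↔ Fan q.1 q.2 (σ i) := fun q i => by simp [ty]
  obtain ⟨c1, d1, h1⟩ := exists_pair_lt L
  let P : Set (L × L) := {q | q.1 < q.2}
  obtain ⟨q, hq, hmin⟩ := WellFounded.has_min (measure (fun q : L × L => (ty q).card)).wf P ⟨(c1, d1), h1⟩
  have hsub : ∀ q', q' ∈ P → q.1 ≤ q'.1 → q'.2 ≤ q.2 → ty q' = ty q := by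
    intro q' hq' h1 h2
    apply Finset.eq_of_subset_of_card_le
    · intro i hi
      rw [hty] at hi ⊢
      exact hi.mono h1 h2
    · exact not_lt.1 (hmin q' hq')
  obtain ⟨A, hA, hfan⟩ := exists_fan (hccc q.1 q.2 hq)
  obtain ⟨i, ⟨f⟩⟩ := hσ A (by
    rw [← not_countable_iff]
    exact hA)
  refine ⟨i, power_emb hc (hd i) (he i) hq fun c d h1 h2 h3 => ?_⟩
  have h4 : i ∈ ty q := (hty _ _).2 (hfan.comp f)
  rw [← hsub (c, d) h2 h1 h3] at h4
  exact (hty _ _).1 h4

end Pool.Agent.E8helper92.LOTS
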